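import Mathlib
import Pool.Graph.R_seed8.Y827.RO.NinE
import Pool.Graph.R_pool_sql_team_seeded_35f281b4.K7.H63.TQ.Comb

/-! Narrow progressions at one scale; two of any four classes of linear forms (helper42). -/

set_option autoImplicit false

namespace Pool.Agent.H42.NP

open Finset Filter Topology
open Pool.Agent.Y827.RO (Nar QE cntE bigE narE coprime_of_adm)
open Pool.Agent.K7.H63.TQ (HitR)

/-- many narrow progressions of length `l` at the scale `N` -/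
def NarN (X : ℕ → Prop) (l C N : ℕ) : Prop :=
  ∃ d : ℕ, 1 ≤ d ∧ (d : ℝ) ≤ (Real.log N) ^ C ∧
    (N : ℝ) / (Real.log N) ^ C ≤ ({n : ℕ | 1 ≤ n ∧ n ≤ N ∧ ∀ j < l, X (n + j * d)}.ncard : ℝ)

theorem fin_set (X : ℕ → Prop) (l d N : ℕ) : {n : ℕ | 1 ≤ n ∧ n ≤ N ∧ ∀ j < l, X (n + j * d)}.Finite :=
  (Set.finite_Iic N).subset fun _ h => h.2.1

theorem NarN.mono {X Y : ℕ → Prop} {l C N : ℕ} (h : NarN X l C N) (hXY : ∀ n, X n → Y n) :
    NarN Y l C N := by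
  obtain ⟨d, h1, h2, h3⟩ := h
  refine ⟨d, h1, h2, h3.trans ?_⟩
  rw [Nat.cast_le]
  exact Set.ncard_le_ncard (fun n hn => ⟨hn.1, hn.2.1, fun j hj => hXY _ (hn.2.2 j hj)⟩) (fin_set Y l d N)

theorem NarN.exp {X : ℕ → Prop} {l C C' N : ℕ} (h : NarN X l C N) (hC : C ≤ C') (hN : 1 ≤ Real.log N) :
    NarN X l C' N := by
  obtain ⟨d, h1, h2, h3⟩ := h
  have h4 : Real.log N ^ C ≤ Real.log N ^ C' := pow_le_pow_right₀ hN hC
  refine ⟨d, h1, h2.trans h4, le_trans ?_ h3⟩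
  exact div_le_div_of_nonneg_left (Nat.cast_nonneg _) (by positivity) h4

theorem nar_iff (X : ℕ → Prop) : Nar X ↔ ∀ l : ℕ, ∃ C : ℕ, ∃ᶠ N : ℕ in atTop, NarN X l C N := by
  classical
  unfold Nar NarN
  refine forall_congr' fun l => exists_congr fun C => ?_
  have : ∀ N d : ℕ, (((Icc 1 N).filter (fun n : ℕ => ∀ j < l, X (n + j * d))).card : ℝ) =
      ({n : ℕ | 1 ≤ n ∧ n ≤ N ∧ ∀ j < l, X (n + j * d)}.ncard : ℝ) := by
    intro N d
    rw [← Set.ncard_coe_finset]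
    congr 2
    ext n
    simp only [mem_coe, mem_filter, mem_Icc, Set.mem_ofPred_eq, and_assoc]
  constructor
  · intro h
    refine h.mono fun N hN => ?_
    obtain ⟨d, h1, h2, h3⟩ := hN
    refine ⟨d, h1, h2, ?_⟩
    rw [← this]
    convert h3
  · intro h
    refine h.mono fun N hN => ?_
    obtain ⟨d, h1, h2, h3⟩ := hN
    refine ⟨d, h1, h2, ?_⟩
    rw [← this] at h3
    convert h3

/-- the image under `n ↦ q n + b` (an integer `b`), at a nearby scale -/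
theorem NarN.affine {X : ℕ → Prop} {l C N : ℕ} {q : ℕ} {b : ℤ} (hq : 1 ≤ q)
    (h : NarN (fun m => 1 ≤ (q : ℤ) * m + b ∧ X ((q : ℤ) * m + b).toNat) l C N) (hl : 1 ≤ l) {x Q : ℕ}
    (hqQ : q ≤ Q) (hx1 : (q : ℤ) * N + b ≤ x) (hx2 : x ≤ 4 * Q * N) (hN : 4 * (Q : ℝ) ≤ Real.log N)
    (hNx : N ≤ x) : NarN X l (C + 1) x := by
  obtain ⟨d, h1, h2, h3⟩ := h
  have hQ1 : (1 : ℝ) ≤ Q := by exact_mod_cast hq.trans hqQ
  have hqr : (q : ℝ) ≤ Q := by exact_mod_cast hqQ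
  have hl1 : 1 ≤ Real.log N := by linarith
  have hN0 : (0 : ℝ) < N := by
    rcases Nat.eq_zero_or_pos N with h0 | h0
    · rw [h0] at hl1
      simp at hl1
      linarith
    · exact_mod_cast h0
  have hll : Real.log N ≤ Real.log x := Real.log_le_log hN0 (by exact_mod_cast hNx)
  have hpow : Real.log N ^ C ≤ Real.log x ^ C := pow_le_pow_left₀ (by linarith) hll C
  refine ⟨q * d, Nat.mul_pos hq h1, ?_, ?_⟩
  · push_cast
    rw [pow_succ, mul_comm]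
    exact mul_le_mul (h2.trans hpow) (by linarith) (Nat.cast_nonneg _) (by positivity)
  · have hcnt : ({n : ℕ | 1 ≤ n ∧ n ≤ N ∧ ∀ j < l,
        1 ≤ (q : ℤ) * ((n + j * d : ℕ) : ℤ) + b ∧ X ((q : ℤ) * ((n + j * d : ℕ) : ℤ) + b).toNat}.ncard : ℝ) ≤
        ({n : ℕ | 1 ≤ n ∧ n ≤ x ∧ ∀ j < l, X (n + j * (q * d))}.ncard : ℝ) := by
      rw [Nat.cast_le]
      refine Set.ncard_le_ncard_of_injOn (fun m : ℕ => ((q : ℤ) * m + b).toNat) ?_ ?_ (fin_set X l _ x)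
      · rintro m ⟨hm1, hm2, hm3⟩
        have e0 := hm3 0 (by omega)
        rw [zero_mul, add_zero] at e0
        have hm2' : (q : ℤ) * m ≤ q * N := by
          exact mul_le_mul_of_nonneg_left (by exact_mod_cast hm2) (Nat.cast_nonneg _)
        refine ⟨by omega, by omega, fun j hj => ?_⟩
        have e1 := (hm3 j hj).2
        have e2 : ((q : ℤ) * m + b).toNat + j * (q * d) = ((q : ℤ) * ((m + j * d : ℕ) : ℤ) + b).toNat := by
          have e3 : (0 : ℤ) ≤ ((j * (q * d) : ℕ) : ℤ) := Int.natCast_nonneg _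
          have e4 : (q : ℤ) * ((m + j * d : ℕ) : ℤ) + b = ((q : ℤ) * m + b) + ((j * (q * d) : ℕ) : ℤ) := by
            push_cast; ring
          rw [e4, Int.toNat_add (by omega) e3, Int.toNat_natCast]
        rw [e2]
        exact e1
      · rintro m ⟨hm1, hm2, hm3⟩ m' ⟨hm1', hm2', hm3'⟩ hmm
        have e0 := (hm3 0 (by omega)).1
        have e0' := (hm3' 0 (by omega)).1
        rw [zero_mul, add_zero] at e0 e0'
        simp only at hmm
        have e1 : (q : ℤ) * m + b = (q : ℤ) * m' + b := by omega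
        have e2 : (q : ℤ) * m = (q : ℤ) * m' := by linarith
        have hq0 : (q : ℤ) ≠ 0 := by exact_mod_cast (by omega : q ≠ 0)
        exact_mod_cast mul_left_cancel₀ hq0 e2
    refine le_trans ?_ (h3.trans hcnt)
    have hx2' : (x : ℝ) ≤ 4 * Q * N := by exact_mod_cast hx2
    have hlx : 0 < Real.log x := by linarith
    rw [div_le_div_iff₀ (by positivity) (by positivity)]
    calc (x : ℝ) * Real.log N ^ C ≤ (4 * Q * N) * Real.log x ^ C :=
          mul_le_mul hx2' hpow (by positivity) (by positivity)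
      _ = N * (Real.log x ^ C * (4 * Q)) := by ring
      _ ≤ N * (Real.log x ^ C * Real.log x) := by
          apply mul_le_mul_of_nonneg_left _ hN0.le
          exact mul_le_mul_of_nonneg_left (hN.trans hll) (by positivity)
      _ = N * Real.log x ^ (C + 1) := by rw [pow_succ]

theorem NarN.len {X : ℕ → Prop} {l l' C N : ℕ} (h : NarN X l' C N) (hl : l ≤ l') : NarN X l C N := by
  obtain ⟨d, h1, h2, h3⟩ := h
  refine ⟨d, h1, h2, h3.trans ?_⟩
  rw [Nat.cast_le]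
  exact Set.ncard_le_ncard (fun n hn => ⟨hn.1, hn.2.1, fun j hj => hn.2.2 j (by omega)⟩) (fin_set X l d N)

theorem log_ev' (c : ℝ) : ∀ᶠ N : ℕ in atTop, c ≤ Real.log N :=
  (Real.tendsto_log_atTop.comp tendsto_natCast_atTop_atTop).eventually_ge_atTop _

theorem nar_affine {X : ℕ → Prop} {q : ℕ} {b : ℤ} (hq : 1 ≤ q)
    (h : Nar (fun m => 1 ≤ (q : ℤ) * m + b ∧ X ((q : ℤ) * m + b).toNat)) : Nar X := by
  rw [nar_iff] at h ⊢
  intro l
  obtain ⟨C, hC⟩ := h (max l 1)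
  refine ⟨C + 1, ?_⟩
  have ht : Tendsto (fun N : ℕ => 4 * q * N) atTop atTop :=
    tendsto_id.const_mul_atTop' (by omega)
  refine ht.frequently ((hC.and_eventually ((log_ev' (4 * q)).and
    (eventually_ge_atTop b.natAbs))).mono ?_)
  rintro N ⟨h1, h2, h3⟩
  have h4 : b ≤ N := by
    have := le_abs_self b
    rw [Int.abs_eq_natAbs] at this
    have h5 : (b.natAbs : ℤ) ≤ N := by exact_mod_cast h3
    omega
  have h5 : (N : ℤ) ≤ q * N := by
    have : (1 : ℤ) ≤ q := by exact_mod_cast hq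
    nlinarith [Int.natCast_nonneg N]
  refine (NarN.affine (q := q) (b := b) (Q := q) hq h1 (le_max_right _ _) le_rfl ?_ ?_ h2 ?_).len
    (le_max_left _ _)
  · push_cast
    nlinarith
  · exact le_rfl
  · nlinarith

/-- both forms are prime -/
def PF (f g : ℤ × ℤ) (n : ℕ) : Prop := (f.1 * n + f.2).toNat.Prime ∧ (g.1 * n + g.2).toNat.Prime

theorem PF_symm {f g : ℤ × ℤ} {n : ℕ} (h : PF f g n) : PF g f n := ⟨h.2, h.1⟩

open Classical in
theorem narN_of_QE {T K : ℕ} {H : Fin T → Fin K → ℤ × ℤ} {E : Finset (Fin T × Fin K)} {l C N : ℕ}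
    (h : QE H E l C N) {x y : Fin T × Fin K} (hx : x ∈ E) (hy : y ∈ E) :
    NarN (PF (H x.1 x.2) (H y.1 y.2)) l C N := by
  obtain ⟨d, h1, h2, h3⟩ := h
  refine ⟨d, h1, h2, h3.trans ?_⟩
  unfold cntE
  rw [← Set.ncard_coe_finset, Nat.cast_le]
  refine Set.ncard_le_ncard ?_ (fin_set _ l d N)
  intro n hn
  rw [mem_coe, mem_filter, mem_Icc] at hn
  exact ⟨hn.1.1, hn.1.2, fun j hj => ⟨(hn.2 j hj x.1 x.2).2 hx, (hn.2 j hj y.1 y.2).2 hy⟩⟩

theorem two_classes {T K : ℕ} {E : Finset (Fin T × Fin K)} (h : 1 + 1 ≤ (E.image Prod.fst).card) :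
    ∃ x ∈ E, ∃ y ∈ E, x.1 ≠ y.1 := by
  obtain ⟨g, hg, g', hg', hne⟩ := Finset.one_lt_card.1 (show 1 < (E.image Prod.fst).card by omega)
  obtain ⟨x, hx, rfl⟩ := mem_image.1 hg
  obtain ⟨y, hy, rfl⟩ := mem_image.1 hg'
  exact ⟨x, hx, y, hy, hne⟩

theorem hit_inf : ∃ K : ℕ, 1 ≤ K ∧ HitR K {f | 1 ≤ f.1} (fun f g => Nar (PF f g)) := by
  obtain ⟨K, hK, H⟩ := bigE 4 1 (by norm_num) (by norm_num)
  refine ⟨K, hK, fun A hF hinj hadm => ?_⟩
  obtain ⟨E, hE, hE2⟩ := H A hinj (fun g i => ⟨by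
      have h1 : 1 ≤ (A g i).1 := hF g i
      omega, coprime_of_adm fun p hp => by
      obtain ⟨n, hn⟩ := hadm p hp
      exact ⟨n, hn g i⟩⟩) (fun p hp _ => hadm p hp)
  obtain ⟨x, hx, y, hy, hxy⟩ := two_classes hE
  refine ⟨x.1, y.1, x.2, y.2, hxy, ?_⟩
  show Nar (PF (A x.1 x.2) (A y.1 y.2))
  rw [nar_iff]
  intro l
  obtain ⟨C, hC⟩ := hE2 l
  exact ⟨C, hC.mono fun N hN => narN_of_QE hN hx hy⟩

/-- two of any four classes of forms from a finite set, at every scale -/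
theorem hit_scale : ∃ K : ℕ, 1 ≤ K ∧ ∀ (F : Finset (ℤ × ℤ)), (∀ f ∈ F, 1 ≤ f.1) → ∀ l : ℕ,
    ∃ C : ℕ, ∀ᶠ N : ℕ in atTop, HitR K {f | f ∈ F} (fun f g => NarN (PF f g) l C N) := by
  classical
  obtain ⟨K, hK, H⟩ := narE 4 1 (by norm_num) (by norm_num)
  refine ⟨K, hK, fun F hF l => ?_⟩
  have key : ∀ A : Fin 4 → Fin K → F, ∃ C : ℕ, ∀ᶠ N : ℕ in atTop,
      Function.Injective (fun x : Fin 4 × Fin K => (A x.1 x.2 : ℤ × ℤ)) →
      (∀ p : ℕ, p.Prime → ∃ n : ℤ, ∀ g i, ¬ ((p : ℤ) ∣ (A g i : ℤ × ℤ).1 * n + (A g i : ℤ × ℤ).2)) →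
      ∃ (g g' : Fin 4) (i j : Fin K), g ≠ g' ∧ NarN (PF (A g i) (A g' j)) l C N := by
    intro A
    by_cases h1 : Function.Injective (fun x : Fin 4 × Fin K => (A x.1 x.2 : ℤ × ℤ)) ∧
      (∀ p : ℕ, p.Prime → ∃ n : ℤ, ∀ g i, ¬ ((p : ℤ) ∣ (A g i : ℤ × ℤ).1 * n + (A g i : ℤ × ℤ).2))
    · obtain ⟨hinj, hadm⟩ := h1
      obtain ⟨C, hC⟩ := H (fun g i => (A g i : ℤ × ℤ)) hinj (fun g i => ⟨by
        have h1 : 1 ≤ (A g i : ℤ × ℤ).1 := hF _ (A g i).2
        omega, coprime_of_adm fun p hp => by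
        obtain ⟨n, hn⟩ := hadm p hp
        exact ⟨n, hn g i⟩⟩) (fun p hp _ => hadm p hp) l
      refine ⟨C, hC.mono ?_⟩
      rintro N ⟨E, hE, hQ⟩ _ _
      obtain ⟨x, hx, y, hy, hxy⟩ := two_classes hE
      exact ⟨x.1, y.1, x.2, y.2, hxy, narN_of_QE hQ hx hy⟩
    · exact ⟨0, Eventually.of_forall fun N h2 h3 => absurd ⟨h2, h3⟩ h1⟩
  choose Cf hCf using key
  refine ⟨∑ A, Cf A, ?_⟩
  have hlog : ∀ᶠ N : ℕ in atTop, 1 ≤ Real.log N :=
    (Real.tendsto_log_atTop.comp tendsto_natCast_atTop_atTop).eventually_ge_atTop _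
  filter_upwards [eventually_all.2 hCf, hlog] with N hN hl A hA hinj hadm
  obtain ⟨g, g', i, j, hne, h⟩ := hN (fun g i => ⟨A g i, hA g i⟩) hinj hadm
  exact ⟨g, g', i, j, hne, h.exp (Finset.single_le_sum (f := Cf) (fun _ _ => Nat.zero_le _)
    (mem_univ _)) hl⟩

end Pool.Agent.H42.NP
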