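import Mathlib

/-! Residue classes in which given linear forms are not prime (helper42). -/

set_option autoImplicit false

namespace Pool.Agent.H42.NP

open Finset

/-- no form of `F` has a common factor with the modulus `Q` in the class of `r` -/
def GoodRes (F : Finset (ℤ × ℤ)) (Q r : ℕ) : Prop :=
  1 ≤ Q ∧ 1 ≤ r ∧ ∀ p : ℕ, p.Prime → p ∣ Q → ∀ f ∈ F, ¬ (p : ℤ) ∣ f.1 * r + f.2

/-- a smaller progression -/
def SubP (Q r Q' r' : ℕ) : Prop := ∃ s t : ℕ, Q' = Q * s ∧ r' = r + Q * t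

theorem SubP.refl (Q r : ℕ) : SubP Q r Q r := ⟨1, 0, by simp, by simp⟩

theorem SubP.trans {Q r Q' r' Q'' r'' : ℕ} (h : SubP Q r Q' r') (h' : SubP Q' r' Q'' r'') :
    SubP Q r Q'' r'' := by
  obtain ⟨s, t, rfl, rfl⟩ := h
  obtain ⟨s', t', rfl, rfl⟩ := h'
  exact ⟨s * s', t + s * t', by ring, by ring⟩

theorem SubP.val {Q r Q' r' : ℕ} (h : SubP Q r Q' r') (m : ℕ) :
    ∃ m' : ℕ, Q' * m + r' = Q * m' + r := by
  obtain ⟨s, t, rfl, rfl⟩ := h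
  exact ⟨s * m + t, by ring⟩

theorem hit_class {Q p : ℕ} (hcop : Nat.Coprime Q p) (hp : 0 < p) (r : ℕ) (n : ℤ) :
    ∃ t : ℕ, (p : ℤ) ∣ ((r + Q * t : ℕ) : ℤ) - n := by
  have h1 : IsCoprime (Q : ℤ) (p : ℤ) := Nat.isCoprime_iff_coprime.2 hcop
  obtain ⟨u, v, huv⟩ := h1
  have hp0 : (0 : ℤ) < p := by exact_mod_cast hp
  refine ⟨(((n - r) * u) % p).toNat, ?_⟩
  have h2 : (((((n - r) * u) % p).toNat : ℕ) : ℤ) = ((n - r) * u) % p :=
    Int.toNat_of_nonneg (Int.emod_nonneg _ hp0.ne')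
  have h3 : ((n - r) * u) % p = (n - r) * u - p * (((n - r) * u) / p) := by
    have := Int.emod_add_mul_ediv ((n - r) * u) p
    linarith
  push_cast
  rw [h2, h3]
  refine ⟨-((n - r) * v) - Q * (((n - r) * u) / p), ?_⟩
  linear_combination (n - r) * huv

theorem good_shift {F : Finset (ℤ × ℤ)} {Q r : ℕ} (h : GoodRes F Q r) (M : ℕ) :
    GoodRes F Q (r + Q * M) := by
  obtain ⟨h1, h2, h3⟩ := h
  refine ⟨h1, by omega, fun p hp hpQ f hf hd => h3 p hp hpQ f hf ?_⟩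
  have h4 : (p : ℤ) ∣ (Q : ℤ) := Int.natCast_dvd_natCast.2 hpQ
  have h5 : f.1 * ((r + Q * M : ℕ) : ℤ) + f.2 = (f.1 * r + f.2) + Q * (f.1 * M) := by
    push_cast; ring
  rw [h5] at hd
  exact (dvd_add_left (h4.mul_right _)).1 hd

/-- one more prime factor of the modulus -/
theorem ext_prime {F : Finset (ℤ × ℤ)} {Q r : ℕ} (h : GoodRes F Q r) {p : ℕ} (hp : p.Prime)
    (hpQ : ¬ p ∣ Q) {n : ℤ} (hn : ∀ f ∈ F, ¬ (p : ℤ) ∣ f.1 * n + f.2) :
    ∃ t : ℕ, (p : ℤ) ∣ ((r + Q * t : ℕ) : ℤ) - n ∧ GoodRes F (Q * p) (r + Q * t) := by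
  obtain ⟨h1, h2, h3⟩ := h
  have hcop : Nat.Coprime Q p := ((Nat.Prime.coprime_iff_not_dvd hp).2 hpQ).symm
  obtain ⟨t, ht⟩ := hit_class hcop hp.pos r n
  refine ⟨t, ht, Nat.mul_pos h1 hp.pos, by omega, fun l hl hlQ f hf hd => ?_⟩
  rcases (Nat.Prime.dvd_mul hl).1 hlQ with h4 | h4
  · have h5 := (good_shift ⟨h1, h2, h3⟩ t).2.2 l hl h4 f hf
    exact h5 hd
  · have h5 : l = p := (Nat.prime_dvd_prime_iff_eq hl hp).1 h4
    subst h5
    apply hn f hf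
    have h6 : f.1 * n + f.2 = (f.1 * ((r + Q * t : ℕ) : ℤ) + f.2) -
        f.1 * (((r + Q * t : ℕ) : ℤ) - n) := by ring
    rw [h6]
    exact dvd_sub hd (ht.mul_left _)

/-- a finite set of further prime factors of the modulus -/
theorem ext_set {F : Finset (ℤ × ℤ)}
    (hadm : ∀ p : ℕ, p.Prime → ∃ n : ℤ, ∀ f ∈ F, ¬ (p : ℤ) ∣ f.1 * n + f.2) {Q r : ℕ}
    (h : GoodRes F Q r) (P : Finset ℕ) (hP : ∀ p ∈ P, p.Prime) :
    ∃ Q' r', SubP Q r Q' r' ∧ GoodRes F Q' r' ∧ ∀ p ∈ P, p ∣ Q' := by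
  induction P using Finset.induction_on with
  | empty => exact ⟨Q, r, SubP.refl _ _, h, by simp⟩
  | insert p P hpP ih =>
    obtain ⟨Q', r', h1, h2, h3⟩ := ih (fun q hq => hP q (mem_insert_of_mem hq))
    by_cases hpQ : p ∣ Q'
    · refine ⟨Q', r', h1, h2, fun q hq => ?_⟩
      rcases mem_insert.1 hq with rfl | hq
      · exact hpQ
      · exact h3 q hq
    · have hp := hP p (mem_insert_self _ _)
      obtain ⟨n, hn⟩ := hadm p hp
      obtain ⟨t, -, h5⟩ := ext_prime h2 hp hpQ hn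
      refine ⟨Q' * p, r' + Q' * t, h1.trans ⟨p, t, rfl, rfl⟩, h5, fun q hq => ?_⟩
      rcases mem_insert.1 hq with rfl | hq
      · exact dvd_mul_left _ _
      · exact (h3 q hq).mul_right _

/-- in the progression `Q m + r` no prime `p'` satisfies `D p' = h (Q m + r)`, unless `h` is `D` times a
form of `F` -/
def Blocks (F : Finset (ℤ × ℤ)) (Q r D : ℕ) (h : ℤ × ℤ) : Prop :=
  ∀ m p' : ℕ, p'.Prime → (D : ℤ) * p' = h.1 * ((Q * m + r : ℕ) : ℤ) + h.2 →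
    ∃ f ∈ F, h.1 = D * f.1 ∧ h.2 = D * f.2

theorem Blocks.sub {F : Finset (ℤ × ℤ)} {Q r Q' r' D : ℕ} {h : ℤ × ℤ} (hB : Blocks F Q r D h)
    (hS : SubP Q r Q' r') : Blocks F Q' r' D h := by
  intro m p' hp' he
  obtain ⟨m', hm'⟩ := hS.val m
  rw [hm'] at he
  exact hB m' p' hp' he

theorem ext_test {F : Finset (ℤ × ℤ)} (hF : ∀ f ∈ F, 1 ≤ f.1)
    (hadm : ∀ p : ℕ, p.Prime → ∃ n : ℤ, ∀ f ∈ F, ¬ (p : ℤ) ∣ f.1 * n + f.2) {Q r : ℕ}
    (hG : GoodRes F Q r) {D : ℕ} (hD : 1 ≤ D) {h : ℤ × ℤ} (hh : 1 ≤ h.1) :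
    ∃ Q' r', SubP Q r Q' r' ∧ GoodRes F Q' r' ∧ Blocks F Q' r' D h := by
  by_cases hprop : ∃ f ∈ F, f.1 * h.2 = h.1 * f.2
  · obtain ⟨f, hf, he⟩ := hprop
    obtain ⟨Q', r', h1, h2, h3⟩ := ext_set hadm hG D.primeFactors
      (fun p hp => Nat.prime_of_mem_primeFactors hp)
    have hf1 := hF f hf
    have hcop : IsCoprime f.1 f.2 := by
      rw [Int.isCoprime_iff_gcd_eq_one]
      by_contra hne
      obtain ⟨p, hp, hd⟩ := Nat.exists_prime_and_dvd hne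
      obtain ⟨n, hn⟩ := hadm p hp
      apply hn f hf
      have e1 : (p : ℤ) ∣ f.1 := (Int.natCast_dvd_natCast.2 hd).trans (Int.gcd_dvd_left f.1 f.2)
      have e2 : (p : ℤ) ∣ f.2 := (Int.natCast_dvd_natCast.2 hd).trans (Int.gcd_dvd_right f.1 f.2)
      exact dvd_add (e1.mul_right n) e2
    obtain ⟨t, ht⟩ : f.1 ∣ h.1 := hcop.dvd_of_dvd_mul_right ⟨h.2, he.symm⟩
    have ht2 : h.2 = t * f.2 := by
      have : f.1 * h.2 = f.1 * (t * f.2) := by rw [he, ht]; ring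
      exact mul_left_cancel₀ (by omega) this
    have ht1 : h.1 = t * f.1 := by rw [ht]; ring
    obtain ⟨M, hM⟩ : ∃ M : ℕ, M = f.2.natAbs + 2 := ⟨_, rfl⟩
    refine ⟨Q', r' + Q' * M, h1.trans ⟨1, M, by ring, rfl⟩, good_shift h2 M, ?_⟩
    have hG' := good_shift h2 M
    intro m p' hp' heq
    obtain ⟨n, hn⟩ : ∃ n : ℕ, n = Q' * m + (r' + Q' * M) := ⟨_, rfl⟩
    rw [← hn] at heq
    have hQ'1 : 1 ≤ Q' := h2.1
    have hnM : M ≤ n := by
      have : M ≤ Q' * M := Nat.le_mul_of_pos_left M hQ'1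
      omega
    have hfn : 2 ≤ f.1 * n + f.2 := by
      have e1 : (n : ℤ) ≤ f.1 * n := by nlinarith
      have e2 : -|f.2| ≤ f.2 := neg_abs_le f.2
      have e3 : ((f.2.natAbs + 2 : ℕ) : ℤ) ≤ n := by rw [← hM]; exact_mod_cast hnM
      push_cast at e3
      linarith
    have heq2 : (D : ℤ) * p' = t * (f.1 * n + f.2) := by rw [heq, ht1, ht2]; ring
    have hcopD : IsCoprime (D : ℤ) (f.1 * n + f.2) := by
      rw [Int.isCoprime_iff_gcd_eq_one]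
      by_contra hne
      obtain ⟨p, hp, hd⟩ := Nat.exists_prime_and_dvd hne
      have e1 : (p : ℤ) ∣ (D : ℤ) := (Int.natCast_dvd_natCast.2 hd).trans (Int.gcd_dvd_left _ _)
      have e2 : (p : ℤ) ∣ f.1 * n + f.2 :=
        (Int.natCast_dvd_natCast.2 hd).trans (Int.gcd_dvd_right _ _)
      have e3 : p ∣ Q' := h3 p (Nat.mem_primeFactors.2 ⟨hp, Int.natCast_dvd_natCast.1 e1, by omega⟩)
      have e4 : (p : ℤ) ∣ (Q' : ℤ) := Int.natCast_dvd_natCast.2 e3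
      apply hG'.2.2 p hp e3 f hf
      have e5 : f.1 * ((r' + Q' * M : ℕ) : ℤ) + f.2 = (f.1 * n + f.2) - Q' * (f.1 * m) := by
        rw [hn]; push_cast; ring
      rw [e5]
      exact dvd_sub e2 (e4.mul_right _)
    obtain ⟨s, hs⟩ : (D : ℤ) ∣ t := hcopD.dvd_of_dvd_mul_right ⟨p', heq2.symm⟩
    have hD0 : (D : ℤ) ≠ 0 := by exact_mod_cast (by omega : D ≠ 0)
    have hps : (p' : ℤ) = s * (f.1 * n + f.2) := by
      apply mul_left_cancel₀ hD0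
      rw [heq2, hs]; ring
    obtain ⟨w, hw⟩ : ∃ w : ℕ, (w : ℤ) = f.1 * n + f.2 := ⟨(f.1 * n + f.2).toNat, by
      rw [Int.toNat_of_nonneg (by linarith)]⟩
    rw [← hw] at hps hfn
    have hdvd : w ∣ p' := Int.natCast_dvd_natCast.1 ⟨s, by rw [hps]; ring⟩
    have hw2 : 2 ≤ w := by exact_mod_cast hfn
    have hwp : w = p' := ((Nat.dvd_prime hp').1 hdvd).resolve_left (by omega)
    have hs1 : s = 1 := by
      rw [hwp] at hps
      have hp0 : (p' : ℤ) ≠ 0 := by exact_mod_cast hp'.ne_zero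
      have : s * (p' : ℤ) = 1 * p' := by rw [one_mul]; exact hps.symm
      exact mul_right_cancel₀ hp0 this
    refine ⟨f, hf, ?_, ?_⟩
    · rw [ht1, hs, hs1]; ring
    · rw [ht2, hs, hs1]; ring
  · push Not at hprop
    obtain ⟨bd, hbd⟩ : ∃ bd : ℕ, bd = Q + D + h.1.natAbs + (∑ f ∈ F, (f.1 * h.2 - h.1 * f.2).natAbs) + 1 :=
      ⟨_, rfl⟩
    obtain ⟨l, hl1, hl⟩ := Nat.exists_infinite_primes bd
    have hG1 := hG.1
    have hlQ : ¬ l ∣ Q := fun h' => by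
      have := Nat.le_of_dvd hG1 h'
      omega
    have hlD : ¬ l ∣ D := fun h' => by
      have := Nat.le_of_dvd hD h'
      omega
    have hlh : ¬ (l : ℤ) ∣ h.1 := fun h' => by
      have h'' := Int.natCast_dvd.1 h'
      have := Nat.le_of_dvd (by omega) h''
      omega
    have hlr : ∀ f ∈ F, ¬ (l : ℤ) ∣ f.1 * h.2 - h.1 * f.2 := fun f hf h' => by
      have h'' := Int.natCast_dvd.1 h'
      have hne : f.1 * h.2 - h.1 * f.2 ≠ 0 := sub_ne_zero.2 (hprop f hf)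
      have h3 := Nat.le_of_dvd (Int.natAbs_pos.2 hne) h''
      have h4 : (f.1 * h.2 - h.1 * f.2).natAbs ≤ ∑ f ∈ F, (f.1 * h.2 - h.1 * f.2).natAbs :=
        Finset.single_le_sum (f := fun f : ℤ × ℤ => (f.1 * h.2 - h.1 * f.2).natAbs)
          (fun _ _ => Nat.zero_le _) hf
      omega
    have hcop : IsCoprime h.1 (l : ℤ) :=
      ((Prime.coprime_iff_not_dvd (Nat.prime_iff_prime_int.1 hl)).2 hlh).symm
    obtain ⟨u, v, huv⟩ := hcop
    obtain ⟨n0, hn0⟩ : ∃ n0 : ℤ, n0 = -h.2 * u := ⟨_, rfl⟩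
    have hz : h.1 * n0 + h.2 = l * (h.2 * v) := by
      rw [hn0]; linear_combination (-h.2) * huv
    obtain ⟨t, ht, hG'⟩ := ext_prime hG hl hlQ (n := n0) (fun f hf hd => hlr f hf (by
      have e1 : f.1 * h.2 - h.1 * f.2 = f.1 * (h.1 * n0 + h.2) - h.1 * (f.1 * n0 + f.2) := by ring
      rw [e1, hz]
      exact dvd_sub ((dvd_mul_right _ _).mul_left _) (hd.mul_left _)))
    obtain ⟨M, hM⟩ : ∃ M : ℕ, M = D * l + h.2.natAbs + 1 := ⟨_, rfl⟩
    refine ⟨Q * l, r + Q * t + Q * l * M, ⟨l, t + l * M, rfl, by ring⟩, good_shift hG' M, ?_⟩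
    intro m p' hp' heq
    exfalso
    obtain ⟨n, hn⟩ : ∃ n : ℕ, n = Q * l * m + (r + Q * t + Q * l * M) := ⟨_, rfl⟩
    rw [← hn] at heq
    have hnl : (l : ℤ) ∣ (n : ℤ) - n0 := by
      have e1 : (n : ℤ) - n0 = (((r + Q * t : ℕ) : ℤ) - n0) + l * (Q * m + Q * M) := by
        rw [hn]; push_cast; ring
      rw [e1]
      exact dvd_add ht (dvd_mul_right _ _)
    have hdl : (l : ℤ) ∣ (D : ℤ) * p' := by
      have e1 : (D : ℤ) * p' = h.1 * ((n : ℤ) - n0) + (h.1 * n0 + h.2) := by rw [heq]; ring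
      rw [e1, hz]
      exact dvd_add (hnl.mul_left _) (dvd_mul_right _ _)
    have hdl' : l ∣ D * p' := by exact_mod_cast hdl
    have hlp : l ∣ p' := ((Nat.Prime.dvd_mul hl).1 hdl').resolve_left hlD
    have hlp' : l = p' := (Nat.prime_dvd_prime_iff_eq hl hp').1 hlp
    have hnM : M ≤ n := by
      have h5 : 1 ≤ Q * l := Nat.mul_pos hG1 hl.pos
      have : M ≤ Q * l * M := Nat.le_mul_of_pos_left M h5
      omega
    have e1 : (n : ℤ) ≤ h.1 * n := by nlinarith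
    have e2 : -|h.2| ≤ h.2 := neg_abs_le h.2
    have e3 : ((D * l + h.2.natAbs + 1 : ℕ) : ℤ) ≤ n := by rw [← hM]; exact_mod_cast hnM
    push_cast at e3
    rw [← hlp'] at heq
    linarith

/-- **a progression in which none of finitely many forms is prime**, except for coincidences -/
theorem block_all {F : Finset (ℤ × ℤ)} (hF : ∀ f ∈ F, 1 ≤ f.1)
    (hadm : ∀ p : ℕ, p.Prime → ∃ n : ℤ, ∀ f ∈ F, ¬ (p : ℤ) ∣ f.1 * n + f.2)
    (Hs : Finset (ℕ × (ℤ × ℤ))) (hH : ∀ h ∈ Hs, 1 ≤ h.1 ∧ 1 ≤ h.2.1) :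
    ∃ Q r, GoodRes F Q r ∧ ∀ h ∈ Hs, Blocks F Q r h.1 h.2 := by
  induction Hs using Finset.induction_on with
  | empty =>
    refine ⟨1, 1, ⟨le_rfl, le_rfl, fun p hp h1 => ?_⟩, by simp⟩
    exact absurd (Nat.dvd_one.1 h1) hp.one_lt.ne'
  | insert h Hs hh ih =>
    obtain ⟨Q, r, h1, h2⟩ := ih (fun g hg => hH g (mem_insert_of_mem hg))
    obtain ⟨h3, h4⟩ := hH h (mem_insert_self _ _)
    obtain ⟨Q', r', h5, h6, h7⟩ := ext_test hF hadm h1 h3 h4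
    refine ⟨Q', r', h6, fun g hg => ?_⟩
    rcases mem_insert.1 hg with rfl | hg
    · exact h7
    · exact (h2 g hg).sub h5

end Pool.Agent.H42.NP
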