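import Mathlib
import Pool.Graph.R_pool_sql_team_seeded_35f281b4.K7.H63.TQ.Push2
import Pool.Graph.R_pool_sql_team_seeded_35f281b4.K7.H63.TQ.Reg

/-! Triples counted with multiplicity one, in short boxes, for an abstract relation (helper42). -/

set_option autoImplicit false

namespace Pool.Agent.H42.NP

open Finset
open Pool.Agent.K7.H63.TQ (HitR third Adm4 AdmT io io_inj VN mem_VN adm_VN)

/-! ### integers prime to `6` -/

/-- the number of integers below `n` prime to `6` -/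
def g6 (n : ℕ) : ℕ := ((range n).filter (fun y => Nat.Coprime y 6)).card

theorem g6_succ (n : ℕ) : g6 (n + 1) = g6 n + (if Nat.Coprime n 6 then 1 else 0) := by
  unfold g6
  rw [Finset.range_add_one, Finset.filter_insert]
  split_ifs with h
  · rw [Finset.card_insert_of_notMem (by simp)]
  · rfl

theorem cop_six_mod (n k : ℕ) : Nat.Coprime (6 * n + k) 6 ↔ Nat.Coprime k 6 := by
  rw [show 6 * n + k = k + 6 * n by ring]
  simp

theorem g6_step (k : ℕ) : g6 (6 * k + 1) = g6 (6 * k) ∧ g6 (6 * k + 2) = g6 (6 * k) + 1 ∧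
    g6 (6 * k + 3) = g6 (6 * k) + 1 ∧ g6 (6 * k + 4) = g6 (6 * k) + 1 ∧
    g6 (6 * k + 5) = g6 (6 * k) + 1 ∧ g6 (6 * (k + 1)) = g6 (6 * k) + 2 := by
  have h0 : ¬ Nat.Coprime (6 * k) 6 := by
    have := cop_six_mod k 0
    rw [add_zero] at this
    rw [this]; decide
  have h1 : Nat.Coprime (6 * k + 1) 6 := (cop_six_mod k 1).2 (by decide)
  have h2 : ¬ Nat.Coprime (6 * k + 2) 6 := by rw [cop_six_mod]; decide
  have h3 : ¬ Nat.Coprime (6 * k + 3) 6 := by rw [cop_six_mod]; decide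
  have h4 : ¬ Nat.Coprime (6 * k + 4) 6 := by rw [cop_six_mod]; decide
  have h5 : Nat.Coprime (6 * k + 5) 6 := (cop_six_mod k 5).2 (by decide)
  have k1 := g6_succ (6 * k)
  have k2 := g6_succ (6 * k + 1)
  have k3 := g6_succ (6 * k + 2)
  have k4 := g6_succ (6 * k + 3)
  have k5 := g6_succ (6 * k + 4)
  have k6 := g6_succ (6 * k + 5)
  rw [if_neg h0] at k1
  rw [if_pos h1] at k2
  rw [if_neg h2] at k3
  rw [if_neg h3] at k4
  rw [if_neg h4] at k5
  rw [if_pos h5] at k6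
  have e2 : 6 * k + 1 + 1 = 6 * k + 2 := rfl
  have e3 : 6 * k + 2 + 1 = 6 * k + 3 := rfl
  have e4 : 6 * k + 3 + 1 = 6 * k + 4 := rfl
  have e5 : 6 * k + 4 + 1 = 6 * k + 5 := rfl
  have e6 : 6 * k + 5 + 1 = 6 * (k + 1) := by ring
  rw [e2] at k2
  rw [e3] at k3
  rw [e4] at k4
  rw [e5] at k5
  rw [e6] at k6
  refine ⟨by omega, by omega, by omega, by omega, by omega, by omega⟩

theorem g6_bd (n : ℕ) : n ≤ 3 * g6 n + 2 ∧ 3 * g6 n ≤ n + 1 := by
  have key : ∀ k : ℕ, g6 (6 * k) = 2 * k := by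
    intro k
    induction k with
    | zero => rfl
    | succ k ih =>
      have := (g6_step k).2.2.2.2.2
      omega
  have hn := Nat.div_add_mod n 6
  have hlt := Nat.mod_lt n (by norm_num : 0 < 6)
  obtain ⟨k, hk⟩ : ∃ k, k = n / 6 := ⟨_, rfl⟩
  obtain ⟨r, hr⟩ : ∃ r, r = n % 6 := ⟨_, rfl⟩
  rw [← hk, ← hr] at hn
  rw [← hr] at hlt
  clear hk hr
  subst hn
  obtain ⟨k1, k2, k3, k4, k5, -⟩ := g6_step k
  have k0 := key k
  interval_cases r
  · rw [add_zero]; omega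
  all_goals omega

/-- the integers of `(A, A + L]` prime to `6` -/
def A6 (A L : ℕ) : Finset ℕ := (Ioc A (A + L)).filter (fun y => Nat.Coprime y 6)

theorem mem_A6 {A L y : ℕ} : y ∈ A6 A L ↔ (A < y ∧ y ≤ A + L) ∧ Nat.Coprime y 6 := by
  unfold A6
  rw [mem_filter, mem_Ioc]

theorem A6_card (A L : ℕ) : L ≤ 3 * (A6 A L).card + 3 ∧ 3 * (A6 A L).card ≤ L + 3 := by
  have h1 : (A6 A L).card + g6 (A + 1) = g6 (A + L + 1) := by
    unfold A6 g6
    rw [← Finset.card_union_of_disjoint]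
    · congr 1
      ext y
      simp only [mem_union, mem_filter, mem_Ioc, mem_range]
      constructor
      · rintro (⟨⟨h1, h2⟩, h3⟩ | ⟨h1, h2⟩)
        · exact ⟨by omega, h3⟩
        · exact ⟨by omega, h2⟩
      · rintro ⟨h1, h2⟩
        by_cases h3 : y < A + 1
        · exact Or.inr ⟨h3, h2⟩
        · exact Or.inl ⟨⟨by omega, by omega⟩, h2⟩
    · rw [Finset.disjoint_left]
      intro y hy hy'
      have h2 := (mem_Ioc.1 (mem_filter.1 hy).1).1
      have h3 := mem_range.1 (mem_filter.1 hy').1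
      omega
  have h2 := g6_bd (A + 1)
  have h3 := g6_bd (A + L + 1)
  omega

/-- the multiples of `m` -/
theorem A6_mult (A L m : ℕ) (hm : 1 ≤ m) :
    (((A6 A L).filter (fun y => m ∣ y)).card : ℝ) ≤ (L : ℝ) / 3 / m + 4 / 3 := by
  have h1 : ((A6 A L).filter (fun y => m ∣ y)).card ≤ (A6 (A / m) (L / m + 1)).card := by
    apply Finset.card_le_card_of_injOn (fun y => y / m)
    · intro y hy
      have hy := mem_coe.1 hy
      obtain ⟨hy1, k, rfl⟩ := mem_filter.1 hy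
      obtain ⟨⟨h1, h2⟩, h3⟩ := mem_A6.1 hy1
      have hk : m * k / m = k := Nat.mul_div_cancel_left k (by omega)
      simp only [hk]
      refine mem_coe.2 (mem_A6.2 ⟨⟨?_, ?_⟩, Nat.Coprime.coprime_mul_left h3⟩)
      · exact Nat.div_lt_of_lt_mul h1
      · have h4 : k ≤ (A + L) / m := by
          rw [Nat.le_div_iff_mul_le (by omega)]
          rw [mul_comm]; exact h2
        have h5 : (A + L) / m ≤ A / m + L / m + 1 := by
          rw [Nat.add_div (by omega : 0 < m)]; split_ifs <;> omega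
        omega
    · intro y hy z hz hyz
      have hy := mem_coe.1 hy
      have hz := mem_coe.1 hz
      obtain ⟨_, k, rfl⟩ := mem_filter.1 hy
      obtain ⟨_, l, rfl⟩ := mem_filter.1 hz
      simp only [Nat.mul_div_cancel_left k (by omega : 0 < m),
        Nat.mul_div_cancel_left l (by omega : 0 < m)] at hyz
      rw [hyz]
  have h2 := (A6_card (A / m) (L / m + 1)).2
  have h3 : 3 * ((A6 A L).filter (fun y => m ∣ y)).card ≤ L / m + 4 := by omega
  have h4 : ((3 * ((A6 A L).filter (fun y => m ∣ y)).card : ℕ) : ℝ) ≤ ((L / m + 4 : ℕ) : ℝ) := by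
    exact_mod_cast h3
  have h5 : ((L / m : ℕ) : ℝ) ≤ (L : ℝ) / m := Nat.cast_div_le
  push_cast at h4
  have h6 : (L : ℝ) / 3 / m = (L : ℝ) / m / 3 := by ring
  rw [h6]
  linarith

/-- the integers of `(A, A + L]` prime to `6` in a class modulo `α` -/
theorem A6_class (L α : ℕ) (hα6 : Nat.Coprime α 6) (S : Finset ℕ)
    (hS : ∀ y ∈ S, y ∈ A6 0 L) (hc : ∀ y ∈ S, ∀ z ∈ S, y ≡ z [MOD α]) :
    S.card ≤ 2 * (L / (6 * α) + 1) := by
  have h1 : S.card ≤ (range (L / (6 * α) + 1) ×ˢ ({1, 5} : Finset ℕ)).card := by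
    apply Finset.card_le_card_of_injOn (fun y => (y / (6 * α), y % 6))
    · intro y hy
      obtain ⟨⟨h1, h2⟩, h3⟩ := mem_A6.1 (hS y (mem_coe.1 hy))
      rw [zero_add] at h2
      refine mem_coe.2 (mem_product.2 ⟨mem_range.2 ?_, ?_⟩)
      · have := Nat.div_le_div_right (c := 6 * α) h2
        show y / (6 * α) < _
        omega
      · show y % 6 ∈ ({1, 5} : Finset ℕ)
        have h4 : Nat.Coprime (y % 6) 6 := by
          unfold Nat.Coprime at h3 ⊢
          rw [Nat.gcd_comm y 6, Nat.gcd_rec 6 y] at h3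
          exact h3
        have h5 := Nat.mod_lt y (by norm_num : 0 < 6)
        generalize y % 6 = r at h4 h5
        interval_cases r
        · exact absurd h4 (by decide)
        · decide
        · exact absurd h4 (by decide)
        · exact absurd h4 (by decide)
        · exact absurd h4 (by decide)
        · decide
    · intro y hy z hz hyz
      simp only [Prod.mk.injEq] at hyz
      have h2 := hc y (mem_coe.1 hy) z (mem_coe.1 hz)
      have h3 : y ≡ z [MOD 6] := hyz.2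
      have h4 : y ≡ z [MOD 6 * α] := (Nat.modEq_and_modEq_iff_modEq_mul hα6.symm).1 ⟨h3, h2⟩
      have h5 : y % (6 * α) = z % (6 * α) := h4
      have h6 := Nat.div_add_mod y (6 * α)
      have h7 := Nat.div_add_mod z (6 * α)
      rw [hyz.1, h5] at h6
      omega
  rw [card_product, card_range] at h1
  have h2 : ({1, 5} : Finset ℕ).card = 2 := by decide
  rw [h2] at h1
  omega

/-! ### the forms -/

/-- the forms `u n + v`, `X < u ≤ X + H`, `v ≤ N`, `u` and `v` prime to `6` and coprime -/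
def VV (X H N : ℕ) : Finset (ℕ × ℕ) :=
  (A6 X H ×ˢ A6 0 N).filter (fun f => Nat.Coprime f.2 f.1)

theorem mem_VV {X H N : ℕ} {f : ℕ × ℕ} : f ∈ VV X H N ↔
    (f.1 ∈ A6 X H ∧ f.2 ∈ A6 0 N) ∧ Nat.Coprime f.2 f.1 := by
  unfold VV
  rw [mem_filter, mem_product]

/-- the odd integers from `5` to `m` -/
def OO (m : ℕ) : Finset ℕ := (Icc 5 m).filter (fun k => k % 2 = 1)

/-- a common prime factor of two integers prime to `6` -/
theorem common {a b m : ℕ} (ha : Nat.Coprime a 6) (h : ¬ Nat.Coprime a b)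
    (hm : ∀ p : ℕ, p.Prime → p ∣ a → p ∣ b → p ≤ m) : ∃ p ∈ OO m, p ∣ a ∧ p ∣ b := by
  obtain ⟨p, hp, h1, h2⟩ := Nat.Prime.not_coprime_iff_dvd.1 h
  refine ⟨p, ?_, h1, h2⟩
  have h3 : ∀ k ∈ ({2, 3} : Finset ℕ), p ≠ k := by
    intro k hk hpk
    have h4 : p ∣ 6 := by
      rw [hpk]
      fin_cases hk
      · norm_num
      · norm_num
    exact Nat.not_coprime_of_dvd_of_dvd hp.one_lt h1 h4 ha
  have h2' := h3 2 (by decide)
  have h3' := h3 3 (by decide)
  have h4 := hp.two_le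
  have hodd := hp.eq_two_or_odd.resolve_left h2'
  have h5 : 5 ≤ p := by omega
  exact mem_filter.2 ⟨mem_Icc.2 ⟨h5, hm p hp h1 h2⟩, hodd⟩

theorem sum_inv_sq (m : ℕ) : ∑ k ∈ OO m, 1 / (k : ℝ) ^ 2 ≤ 1 / 8 := by
  have h : ∀ n : ℕ, ∑ k ∈ OO (2 * n + 4), 1 / (k : ℝ) ^ 2 ≤ 1 / 8 - 1 / (4 * (n + 2 : ℝ)) := by
    intro n
    induction n with
    | zero =>
      have : OO (2 * 0 + 4) = ∅ := by decide
      rw [this]; norm_num
    | succ n ih =>
      have h1 : OO (2 * (n + 1) + 4) ⊆ insert (2 * n + 5) (OO (2 * n + 4)) := by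
        intro k hk
        obtain ⟨h1, h2⟩ := mem_filter.1 hk
        obtain ⟨h3, h4⟩ := mem_Icc.1 h1
        by_cases h5 : k = 2 * n + 5
        · exact mem_insert.2 (Or.inl h5)
        · exact mem_insert.2 (Or.inr (mem_filter.2 ⟨mem_Icc.2 ⟨h3, by omega⟩, h2⟩))
      have h2 : (2 * n + 5) ∉ OO (2 * n + 4) := by
        intro h
        have := (mem_Icc.1 (mem_filter.1 h).1).2
        omega
      refine (Finset.sum_le_sum_of_subset_of_nonneg h1 (fun _ _ _ => by positivity)).trans ?_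
      rw [Finset.sum_insert h2]
      have h3 : 1 / (((2 * n + 5 : ℕ) : ℝ)) ^ 2 ≤ 1 / (4 * (n + 2 : ℝ)) - 1 / (4 * ((n + 1 : ℕ) + 2 : ℝ)) := by
        have h4 : (0 : ℝ) < n + 2 := by positivity
        have h5 : (0 : ℝ) < n + 3 := by positivity
        have e : 1 / (4 * (n + 2 : ℝ)) - 1 / (4 * ((n + 1 : ℕ) + 2 : ℝ)) =
            1 / (4 * (n + 2 : ℝ) * (n + 3)) := by
          push_cast
          field_simp
          ring
        rw [e]
        apply one_div_le_one_div_of_le (by positivity)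
        push_cast
        nlinarith
      linarith
  have h1 : OO m ⊆ OO (2 * m + 4) := by
    intro k hk
    obtain ⟨h1, h2⟩ := mem_filter.1 hk
    obtain ⟨h3, h4⟩ := mem_Icc.1 h1
    exact mem_filter.2 ⟨mem_Icc.2 ⟨h3, by omega⟩, h2⟩
  refine (Finset.sum_le_sum_of_subset_of_nonneg h1 (fun _ _ _ => by positivity)).trans ((h m).trans ?_)
  have : (0 : ℝ) ≤ 1 / (4 * (m + 2 : ℝ)) := by positivity
  linarith

theorem sum_inv (m : ℕ) : ∑ k ∈ OO m, 1 / (k : ℝ) ≤ 1 + Real.log m := by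
  refine le_trans ?_ (Pool.Agent.K7.H63.TQ.hh_le m)
  unfold Pool.Agent.K7.H63.TQ.hh
  apply Finset.sum_le_sum_of_subset_of_nonneg
  · intro k hk
    obtain ⟨h3, h4⟩ := mem_Icc.1 (mem_filter.1 hk).1
    exact mem_Icc.2 ⟨by omega, h4⟩
  · intro _ _ _; positivity

theorem OO_card (m : ℕ) : ((OO m).card : ℝ) ≤ m := by
  have h1 : (OO m).card ≤ (Icc 1 m).card := by
    apply Finset.card_le_card
    intro k hk
    obtain ⟨h3, h4⟩ := mem_Icc.1 (mem_filter.1 hk).1
    exact mem_Icc.2 ⟨by omega, h4⟩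
  rw [Nat.card_Icc] at h1
  exact_mod_cast (by omega : (OO m).card ≤ m)

/-- the pairs with a common factor -/
theorem sum_two (m : ℕ) (h n : ℝ) (hh : 0 ≤ h) (hn : 0 ≤ n) :
    ∑ k ∈ OO m, (h / k + 4 / 3) * (n / k + 4 / 3) ≤
      h * n / 8 + 4 / 3 * (h + n) * (1 + Real.log m) + 16 / 9 * m := by
  have h1 : ∑ k ∈ OO m, (h / k + 4 / 3) * (n / k + 4 / 3) =
      h * n * ∑ k ∈ OO m, 1 / (k : ℝ) ^ 2 + 4 / 3 * (h + n) * ∑ k ∈ OO m, 1 / (k : ℝ) +
        16 / 9 * (OO m).card := by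
    rw [Finset.mul_sum, Finset.mul_sum, Finset.card_eq_sum_ones]
    push_cast
    rw [Finset.mul_sum, ← Finset.sum_add_distrib, ← Finset.sum_add_distrib]
    apply Finset.sum_congr rfl
    intro k hk
    have : (0 : ℝ) < k := by
      have := (mem_Icc.1 (mem_filter.1 hk).1).1
      exact_mod_cast (by omega : 0 < k)
    field_simp
    ring
  rw [h1]
  have h2 := mul_le_mul_of_nonneg_left (sum_inv_sq m) (mul_nonneg hh hn)
  have h3 := mul_le_mul_of_nonneg_left (sum_inv m) (by positivity : 0 ≤ 4 / 3 * (h + n))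
  have h4 := OO_card m
  linarith

/-- many forms -/
theorem VV_card (X H N : ℕ) :
    ((H : ℝ) / 3 - 1) * ((N : ℝ) / 3 - 1) - ((H : ℝ) / 3 * (N / 3) / 8 +
      4 / 3 * ((H : ℝ) / 3 + N / 3) * (1 + Real.log (X + H : ℕ)) + 16 / 9 * (X + H : ℕ)) ≤
      ((VV X H N).card : ℝ) ∨ H < 3 ∨ N < 3 := by
  by_cases hH : H < 3
  · exact Or.inr (Or.inl hH)
  by_cases hN : N < 3
  · exact Or.inr (Or.inr hN)
  left
  push Not at hH hN
  have h1 : (A6 X H ×ˢ A6 0 N).card ≤ (VV X H N).card +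
      ∑ k ∈ OO (X + H), ((A6 X H).filter (fun y => k ∣ y)).card * ((A6 0 N).filter (fun y => k ∣ y)).card := by
    have h2 : A6 X H ×ˢ A6 0 N ⊆ VV X H N ∪ (OO (X + H)).biUnion (fun k =>
        ((A6 X H).filter (fun y => k ∣ y)) ×ˢ ((A6 0 N).filter (fun y => k ∣ y))) := by
      intro f hf
      obtain ⟨h3, h4⟩ := mem_product.1 hf
      by_cases h5 : Nat.Coprime f.2 f.1
      · exact mem_union_left _ (mem_VV.2 ⟨⟨h3, h4⟩, h5⟩)
      · obtain ⟨p, hp, h6, h7⟩ := common (m := X + H) (mem_A6.1 h4).2 h5 (by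
          intro p _ _ hp
          have h8 := (mem_A6.1 h3).1
          exact (Nat.le_of_dvd (by omega) hp).trans h8.2)
        exact mem_union_right _ (mem_biUnion.2 ⟨p, hp, mem_product.2
          ⟨mem_filter.2 ⟨h3, h7⟩, mem_filter.2 ⟨h4, h6⟩⟩⟩)
    refine (card_le_card h2).trans ((card_union_le _ _).trans ?_)
    refine Nat.add_le_add_left (card_biUnion_le.trans (le_of_eq ?_)) _
    exact Finset.sum_congr rfl fun k _ => card_product _ _
  have h2 : ((A6 X H ×ˢ A6 0 N).card : ℝ) ≤ (VV X H N).card +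
      ∑ k ∈ OO (X + H), ((H : ℝ) / 3 / k + 4 / 3) * ((N : ℝ) / 3 / k + 4 / 3) := by
    have h3 : ((A6 X H ×ˢ A6 0 N).card : ℝ) ≤ (VV X H N).card +
      ∑ k ∈ OO (X + H), (((A6 X H).filter (fun y => k ∣ y)).card : ℝ) *
        (((A6 0 N).filter (fun y => k ∣ y)).card : ℝ) := by exact_mod_cast h1
    refine h3.trans ?_
    gcongr with k hk
    · have := (mem_Icc.1 (mem_filter.1 hk).1).1
      exact A6_mult _ _ _ (by omega)
    · have := (mem_Icc.1 (mem_filter.1 hk).1).1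
      exact A6_mult _ _ _ (by omega)
  have h3 := sum_two (X + H) ((H : ℝ) / 3) ((N : ℝ) / 3) (by positivity) (by positivity)
  have h4 : (H : ℝ) / 3 - 1 ≤ (A6 X H).card := by
    have : (H : ℝ) ≤ 3 * (A6 X H).card + 3 := by exact_mod_cast (A6_card X H).1
    linarith
  have h5 : (N : ℝ) / 3 - 1 ≤ (A6 0 N).card := by
    have : (N : ℝ) ≤ 3 * (A6 0 N).card + 3 := by exact_mod_cast (A6_card 0 N).1
    linarith
  have hH' : (3 : ℝ) ≤ H := by exact_mod_cast hH
  have hN' : (3 : ℝ) ≤ N := by exact_mod_cast hN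
  have h6 : ((H : ℝ) / 3 - 1) * ((N : ℝ) / 3 - 1) ≤ ((A6 X H ×ˢ A6 0 N).card : ℝ) := by
    rw [card_product]
    push_cast
    exact mul_le_mul h4 h5 (by linarith) (by positivity)
  linarith

open Classical in
/-- few pairs with a common factor -/
theorem bad_card (X H N : ℕ) :
    (((VV X H N ×ˢ VV X H N).filter (fun x => ¬ Nat.Coprime x.1.1 x.2.1)).card : ℝ) ≤
      ((H : ℝ) / 3 + 1 + ((H : ℝ) / 3 * (H / 3) / 8 +
      4 / 3 * ((H : ℝ) / 3 + H / 3) * (1 + Real.log H) + 16 / 9 * H)) * ((N : ℝ) / 3 + 1) ^ 2 := by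
  obtain ⟨P, hP⟩ : ∃ P, P = (A6 X H ×ˢ A6 X H).filter (fun x => ¬ Nat.Coprime x.1 x.2) := ⟨_, rfl⟩
  have h1 : ((VV X H N ×ˢ VV X H N).filter (fun x => ¬ Nat.Coprime x.1.1 x.2.1)).card ≤
      (P ×ˢ (A6 0 N ×ˢ A6 0 N)).card := by
    apply Finset.card_le_card_of_injOn (fun x => ((x.1.1, x.2.1), (x.1.2, x.2.2)))
    · intro x hx
      obtain ⟨h1, h2⟩ := mem_filter.1 (mem_coe.1 hx)
      obtain ⟨h3, h4⟩ := mem_product.1 h1
      have h5 := (mem_VV.1 h3).1
      have h6 := (mem_VV.1 h4).1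
      refine mem_coe.2 (mem_product.2 ⟨?_, mem_product.2 ⟨h5.2, h6.2⟩⟩)
      rw [hP]
      exact mem_filter.2 ⟨mem_product.2 ⟨h5.1, h6.1⟩, h2⟩
    · rintro ⟨⟨a, b⟩, c, d⟩ _ ⟨⟨a', b'⟩, c', d'⟩ _ h
      simp only [Prod.mk.injEq] at h ⊢
      tauto
  have h2 : P.card ≤ (A6 X H).card +
      ∑ k ∈ OO H, ((A6 X H).filter (fun y => k ∣ y)).card * ((A6 X H).filter (fun y => k ∣ y)).card := by
    have h2 : P ⊆ (A6 X H).image (fun y => (y, y)) ∪ (OO H).biUnion (fun k =>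
        ((A6 X H).filter (fun y => k ∣ y)) ×ˢ ((A6 X H).filter (fun y => k ∣ y))) := by
      intro f hf
      rw [hP] at hf
      obtain ⟨hf1, h5⟩ := mem_filter.1 hf
      obtain ⟨h3, h4⟩ := mem_product.1 hf1
      by_cases h6 : f.1 = f.2
      · exact mem_union_left _ (mem_image.2 ⟨f.1, h3, by rw [Prod.ext_iff]; exact ⟨rfl, h6⟩⟩)
      · obtain ⟨p, hp, h7, h8⟩ := common (m := H) (mem_A6.1 h3).2 h5 (by
          intro p _ hp1 hp2
          have h8 := (mem_A6.1 h3).1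
          have h9 := (mem_A6.1 h4).1
          rcases Nat.lt_or_gt_of_ne h6 with h10 | h10
          · exact (Nat.le_of_dvd (by omega) (Nat.dvd_sub hp2 hp1)).trans (by omega)
          · exact (Nat.le_of_dvd (by omega) (Nat.dvd_sub hp1 hp2)).trans (by omega))
        exact mem_union_right _ (mem_biUnion.2 ⟨p, hp, mem_product.2
          ⟨mem_filter.2 ⟨h3, h7⟩, mem_filter.2 ⟨h4, h8⟩⟩⟩)
    refine (card_le_card h2).trans ((card_union_le _ _).trans ?_)
    refine Nat.add_le_add card_image_le (card_biUnion_le.trans (le_of_eq ?_))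
    exact Finset.sum_congr rfl fun k _ => card_product _ _
  have h3 : (P.card : ℝ) ≤ (A6 X H).card +
      ∑ k ∈ OO H, ((H : ℝ) / 3 / k + 4 / 3) * ((H : ℝ) / 3 / k + 4 / 3) := by
    have h3 : (P.card : ℝ) ≤ (A6 X H).card +
      ∑ k ∈ OO H, (((A6 X H).filter (fun y => k ∣ y)).card : ℝ) *
        (((A6 X H).filter (fun y => k ∣ y)).card : ℝ) := by exact_mod_cast h2
    refine h3.trans ?_
    gcongr with k hk
    · have := (mem_Icc.1 (mem_filter.1 hk).1).1
      exact A6_mult _ _ _ (by omega)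
    · have := (mem_Icc.1 (mem_filter.1 hk).1).1
      exact A6_mult _ _ _ (by omega)
  have h4 := sum_two H ((H : ℝ) / 3) ((H : ℝ) / 3) (by positivity) (by positivity)
  have h5 : ((A6 X H).card : ℝ) ≤ (H : ℝ) / 3 + 1 := by
    have : 3 * ((A6 X H).card : ℝ) ≤ H + 3 := by exact_mod_cast (A6_card X H).2
    linarith
  have h6 : ((A6 0 N).card : ℝ) ≤ (N : ℝ) / 3 + 1 := by
    have : 3 * ((A6 0 N).card : ℝ) ≤ N + 3 := by exact_mod_cast (A6_card 0 N).2
    linarith
  have h7 : (((VV X H N ×ˢ VV X H N).filter (fun x => ¬ Nat.Coprime x.1.1 x.2.1)).card : ℝ) ≤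
      (P.card : ℝ) * (((A6 0 N).card : ℝ)) ^ 2 := by
    have h8 : (((VV X H N ×ˢ VV X H N).filter (fun x => ¬ Nat.Coprime x.1.1 x.2.1)).card : ℝ) ≤
      ((P ×ˢ (A6 0 N ×ˢ A6 0 N)).card : ℝ) := by exact_mod_cast h1
    rw [card_product, card_product] at h8
    push_cast at h8
    linarith
  refine h7.trans ?_
  have h8 : (P.card : ℝ) ≤ (H : ℝ) / 3 + 1 + ((H : ℝ) / 3 * (H / 3) / 8 +
      4 / 3 * ((H : ℝ) / 3 + H / 3) * (1 + Real.log H) + 16 / 9 * H) := by linarith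
  exact mul_le_mul h8 (pow_le_pow_left₀ (by positivity) h6 2) (by positivity) (le_trans (by positivity) h8)

end Pool.Agent.H42.NP
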