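import Mathlib
import Pool.Agent.H42.NP.NatAbs

/-! Triples counted with multiplicity one, in short boxes, for an abstract relation: the theorem
(helper42). -/

set_option autoImplicit false

namespace Pool.Agent.H42.NP

open Finset
open Pool.Agent.K7.H63.TQ (HitR third Adm4 AdmT io io_inj VN mem_VN adm_VN)

/-- the triple of a pair of forms -/
def tr (x : (ℕ × ℕ) × (ℕ × ℕ)) : ℕ × ℕ × ℕ :=
  if x.2.1 * x.1.2 < x.1.1 * x.2.2 then (x.1.1, x.2.1, x.1.1 * x.2.2 - x.2.1 * x.1.2)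
  else (x.2.1, x.1.1, x.2.1 * x.1.2 - x.1.1 * x.2.2)

theorem adm_of {u v u' v' γ : ℕ} (hu : 1 ≤ u) (hu' : 1 ≤ u') (hγ : 1 ≤ γ) (hu6 : Nat.Coprime u 6)
    (hv6 : Nat.Coprime v 6) (hu6' : Nat.Coprime u' 6) (hv6' : Nat.Coprime v' 6)
    (huv : Nat.Coprime v u) (huv' : Nat.Coprime v' u') (huu : Nat.Coprime u u')
    (h : u * v' = u' * v + γ) : AdmT u u' γ := by
  refine ⟨hu, hu', hγ, huu, ?_, ?_, ?_⟩
  · -- `u` and `γ`
    have h1 : Nat.Coprime u (u' * v) := Nat.Coprime.mul_right huu huv.symm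
    have h2 : Nat.gcd u γ ∣ Nat.gcd u (u' * v) := by
      refine Nat.dvd_gcd (Nat.gcd_dvd_left _ _) ?_
      have h3 : Nat.gcd u γ ∣ u' * v + γ := by
        rw [← h]; exact (Nat.gcd_dvd_left _ _).mul_right _
      exact (Nat.dvd_add_left (Nat.gcd_dvd_right _ _)).1 h3
    rw [h1] at h2
    exact Nat.dvd_one.1 h2
  · have h1 : Nat.Coprime u' (u * v') := Nat.Coprime.mul_right huu.symm huv'.symm
    have h2 : Nat.gcd u' γ ∣ Nat.gcd u' (u * v') := by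
      refine Nat.dvd_gcd (Nat.gcd_dvd_left _ _) ?_
      rw [h]
      exact dvd_add ((Nat.gcd_dvd_left _ _).mul_right _) (Nat.gcd_dvd_right _ _)
    rw [h1] at h2
    exact Nat.dvd_one.1 h2
  · rintro ⟨-, -, h3⟩
    have hodd : ∀ y : ℕ, Nat.Coprime y 6 → y % 2 = 1 := by
      intro y hy
      have h4 : Nat.Coprime y 2 := Nat.Coprime.coprime_dvd_right (by norm_num) hy
      exact Nat.odd_iff.1 (Nat.coprime_two_right.1 h4)
    have a1 := hodd _ hu6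
    have a2 := hodd _ hv6
    have a3 := hodd _ hu6'
    have a4 := hodd _ hv6'
    have a5 := Nat.odd_iff.1 h3
    have a6 : (u * v') % 2 = 1 := by rw [Nat.mul_mod, a1, a4]
    have a7 : (u' * v) % 2 = 1 := by rw [Nat.mul_mod, a3, a2]
    omega

/-- the triple of a coprime pair -/
theorem tr_spec {X H N : ℕ} (hX : 1 ≤ X) {x : (ℕ × ℕ) × (ℕ × ℕ)} (h1 : x.1 ∈ VV X H N)
    (h2 : x.2 ∈ VV X H N) (hc : Nat.Coprime x.1.1 x.2.1) :
    ∃ α β γ b b' : ℕ, tr x = (α, β, γ) ∧ AdmT α β γ ∧ (X < α ∧ α ≤ X + H) ∧ (X < β ∧ β ≤ X + H) ∧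
      γ ≤ (X + H) * N ∧ α * b' = β * b + γ ∧ b ≤ N ∧ b' ≤ N ∧ b ∈ A6 0 N ∧ Nat.Coprime α 6 ∧
      (x = ((α, b), (β, b')) ∨ x = ((β, b'), (α, b))) := by
  obtain ⟨⟨u, v⟩, u', v'⟩ := x
  obtain ⟨⟨hu, hv⟩, huv⟩ := mem_VV.1 h1
  obtain ⟨⟨hu', hv'⟩, huv'⟩ := mem_VV.1 h2
  simp only at hu hv huv hu' hv' huv' hc
  obtain ⟨hu1, hu2⟩ := mem_A6.1 hu
  obtain ⟨hv1, hv2⟩ := mem_A6.1 hv
  obtain ⟨hu1', hu2'⟩ := mem_A6.1 hu'
  obtain ⟨hv1', hv2'⟩ := mem_A6.1 hv'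
  rw [zero_add] at hv1 hv1'
  have hne : u' * v ≠ u * v' := by
    intro h
    have h3 : u ∣ u' * v := ⟨v', h⟩
    have h4 : u ∣ v := hc.dvd_of_dvd_mul_left h3
    have h5 := Nat.eq_one_of_dvd_coprimes huv h4 dvd_rfl
    omega
  unfold tr
  simp only
  rcases Nat.lt_or_gt_of_ne hne with h | h
  · rw [if_pos h]
    have e : u * v' = u' * v + (u * v' - u' * v) := by omega
    refine ⟨u, u', u * v' - u' * v, v, v', rfl, adm_of (by omega) (by omega) (by omega) hu2 hv2 hu2' hv2'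
      huv huv' hc e, hu1, hu1', ?_, e, hv1.2, hv1'.2, hv, hu2, Or.inl rfl⟩
    exact (Nat.sub_le _ _).trans (Nat.mul_le_mul hu1.2 hv1'.2)
  · rw [if_neg (by omega)]
    have e : u' * v = u * v' + (u' * v - u * v') := by omega
    refine ⟨u', u, u' * v - u * v', v', v, rfl, adm_of (by omega) (by omega) (by omega) hu2' hv2' hu2 hv2
      huv' huv hc.symm e, hu1', hu1, ?_, e, hv1'.2, hv1.2, hv', hu2', Or.inr rfl⟩
    exact (Nat.sub_le _ _).trans (Nat.mul_le_mul hu1'.2 hv1.2)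

/-- the fiber of a triple -/
theorem fib {X H N : ℕ} (hX : 1 ≤ X) (G : Finset ((ℕ × ℕ) × (ℕ × ℕ)))
    (hG : ∀ x ∈ G, x.1 ∈ VV X H N ∧ x.2 ∈ VV X H N ∧ Nat.Coprime x.1.1 x.2.1) (T : ℕ × ℕ × ℕ)
    (hT : T ∈ G.image tr) : (G.filter (fun x => tr x = T)).card ≤ 4 * (N / (6 * X) + 1) := by
  obtain ⟨x, hx, rfl⟩ := mem_image.1 hT
  obtain ⟨hx1, hx2, hx3⟩ := hG x hx
  obtain ⟨α, β, γ, b, b', e1, hadm, hα, hβ, -, -, -, -, -, hα6, -⟩ := tr_spec hX hx1 hx2 hx3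
  obtain ⟨S, hS⟩ : ∃ S, S = (A6 0 N).filter (fun b => α ∣ β * b + γ) := ⟨_, rfl⟩
  have hcop : Nat.Coprime α β := hadm.2.2.2.1
  have hScard : S.card ≤ 2 * (N / (6 * α) + 1) := by
    apply A6_class N α hα6 S
    · intro y hy
      rw [hS] at hy
      exact (mem_filter.1 hy).1
    · intro y hy z hz
      rw [hS] at hy hz
      have h1 : β * y + γ ≡ β * z + γ [MOD α] :=
        ((Nat.modEq_zero_iff_dvd.2 (mem_filter.1 hy).2).trans
          (Nat.modEq_zero_iff_dvd.2 (mem_filter.1 hz).2).symm)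
      have h2 : β * y ≡ β * z [MOD α] := Nat.ModEq.add_right_cancel' γ h1
      exact Nat.ModEq.cancel_left_of_coprime hcop h2
  have hsub : G.filter (fun y => tr y = tr x) ⊆
      S.image (fun b => ((α, b), (β, (β * b + γ) / α))) ∪
        S.image (fun b => ((β, (β * b + γ) / α), (α, b))) := by
    intro y hy
    obtain ⟨hy1, hy2⟩ := mem_filter.1 hy
    obtain ⟨h1, h2, h3⟩ := hG y hy1
    obtain ⟨α', β', γ', c, c', e1', hadm', hα', hβ', -, e2, -, -, hcA, -, hor⟩ := tr_spec hX h1 h2 h3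
    rw [e1, e1'] at hy2
    simp only [Prod.mk.injEq] at hy2
    obtain ⟨rfl, rfl, rfl⟩ := hy2
    have hcS : c ∈ S := by
      rw [hS]
      exact mem_filter.2 ⟨hcA, ⟨c', e2.symm⟩⟩
    have hdiv : (β' * c + γ') / α' = c' := by
      rw [← e2]
      exact Nat.mul_div_cancel_left _ (by omega)
    rcases hor with h | h
    · exact mem_union_left _ (mem_image.2 ⟨c, hcS, by rw [hdiv, h]⟩)
    · exact mem_union_right _ (mem_image.2 ⟨c, hcS, by rw [hdiv, h]⟩)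
  have h1 := (card_le_card hsub).trans (card_union_le _ _)
  have h2 : (S.image (fun b => ((α, b), (β, (β * b + γ) / α)))).card ≤ S.card := card_image_le
  have h3 : (S.image (fun b => ((β, (β * b + γ) / α), (α, b)))).card ≤ S.card := card_image_le
  have h4 : N / (6 * α) ≤ N / (6 * X) := Nat.div_le_div_left (by omega) (by omega)
  omega

theorem ar1 {A v w : ℝ} (hA : 0 ≤ A) (hv : 874 / 1000 * A ≤ v) (hw : w ≤ 1 / 10000) :
    2545 / 10000 * A ^ 2 ≤ 1 / 3 * v ^ 2 - w * v ^ 2 := by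
  have h3 : w * v ^ 2 ≤ 1 / 10000 * v ^ 2 := mul_le_mul_of_nonneg_right hw (sq_nonneg v)
  have h4 : (874 / 1000 * A) ^ 2 ≤ v ^ 2 := pow_le_pow_left₀ (by positivity) hv 2
  have h5 : (874 / 1000 * A) ^ 2 = 763876 / 1000000 * A ^ 2 := by ring
  rw [h5] at h4
  have h6 := sq_nonneg A
  linarith

theorem ar2 {h l : ℝ} (hb : 100000 ≤ h) (hl : l ≤ h / 10000) :
    h + 1 + (h * h / 8 + 4 / 3 * (h + h) * l + 16 / 9 * (3 * h)) ≤ 126 / 1000 * h ^ 2 := by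
  have h5 : 4 / 3 * (h + h) * l ≤ 4 / 3 * (h + h) * (h / 10000) :=
    mul_le_mul_of_nonneg_left hl (by linarith)
  have h6 : 100000 * h ≤ h * h := mul_le_mul_of_nonneg_right hb (by linarith)
  have h7 : 4 / 3 * (h + h) * (h / 10000) = 8 / 30000 * (h * h) := by ring
  have h8 : h ^ 2 = h * h := sq h
  rw [h7] at h5
  rw [h8]
  linarith

theorem ar3 {n : ℝ} (hn : 10000 ≤ n) : (n + 1) ^ 2 ≤ 10003 / 10000 * n ^ 2 := by
  have h1 : 10000 * n ≤ n * n := mul_le_mul_of_nonneg_right hn (by linarith)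
  have h2 : n ^ 2 = n * n := sq n
  have h3 : (n + 1) ^ 2 = n * n + 2 * n + 1 := by ring
  rw [h2, h3]
  linarith

theorem ar4 {h n q : ℝ} (h4 : q ≤ 126 / 1000 * h ^ 2) (h5 : (n + 1) ^ 2 ≤ 10003 / 10000 * n ^ 2) :
    q * (n + 1) ^ 2 ≤ 1261 / 10000 * (h * n) ^ 2 := by
  have h6 : q * (n + 1) ^ 2 ≤ (126 / 1000 * h ^ 2) * (10003 / 10000 * n ^ 2) :=
    (mul_le_mul_of_nonneg_right h4 (sq_nonneg _)).trans (mul_le_mul_of_nonneg_left h5 (by positivity))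
  have h7 : 0 ≤ h ^ 2 * n ^ 2 := by positivity
  have h8 : (126 / 1000 * h ^ 2) * (10003 / 10000 * n ^ 2) = 12603780 / 100000000 * (h ^ 2 * n ^ 2) := by ring
  have h9 : (h * n) ^ 2 = h ^ 2 * n ^ 2 := by ring
  rw [h8] at h6
  rw [h9]
  linarith

theorem ar5 {n X Y : ℝ} (hX : 0 < X) (hn : 20000 * X ≤ n) (hX1 : 400000 ≤ X)
    (hY : Y ≤ (3 * n + 1) * (2 * X)) : Y ≤ 61 / 10 * (n * X) := by
  have h1 : X ≤ n * X / 10000 := by
    have : 10000 * X ≤ n * X := mul_le_mul_of_nonneg_right (by linarith) hX.le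
    linarith
  have h2 : (3 * n + 1) * (2 * X) = 6 * (n * X) + 2 * X := by ring
  have h3 : 0 ≤ n * X := by nlinarith
  rw [h2] at hY
  linarith

theorem ar6 {A h n L Q X : ℝ} (hA : A = h * n) (hh : 100000 ≤ h) (hn : 10000 ≤ n) (hhn : h ≤ n)
    (hL1 : 1 ≤ L) (hL : L ≤ h / 10000) (hQ : Q ≤ 2 * X) (hX : 20000 * X ≤ n) :
    h ≤ A / 10000 ∧ n ≤ A / 10000 ∧ h * L ≤ A / 10000 ∧ n * L ≤ A / 10000 ∧ Q ≤ A / 10000 := by
  have e2 : 10000 * n ≤ h * n := mul_le_mul_of_nonneg_right (by linarith) (by linarith)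
  have e1 : 10000 * h ≤ h * n := by
    have := mul_le_mul_of_nonneg_left hn (by linarith : 0 ≤ h)
    linarith
  have e3 : h * L ≤ h * (n / 10000) := mul_le_mul_of_nonneg_left (by linarith) (by linarith)
  have e4 : n * L ≤ n * (h / 10000) := mul_le_mul_of_nonneg_left hL (by linarith)
  subst hA
  refine ⟨by linarith, by linarith, by linarith, by linarith, by linarith⟩

open Classical in
/-- **triples counted with multiplicity one, abstract form** -/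
theorem nat_abs (K : ℕ) (hK : 1 ≤ K) : ∃ C : ℕ, 1 ≤ C ∧ ∀ X H Y : ℕ, C ≤ H → (C : ℝ) * Real.log X ≤ H →
    H ≤ X → C * X ^ 2 ≤ Y → ∀ (F : Set (ℤ × ℤ)) (R : ℤ × ℤ → ℤ × ℤ → Prop), (∀ x y, R x y → R y x) →
    HitR K F R → (∀ f : ℕ × ℕ, 1 ≤ f.1 → f.1 ≤ X + H → f.2 ≤ Y → io f ∈ F) →
    ∀ Gd : ℕ × ℕ × ℕ → Prop,
    (∀ α β γ b b' : ℕ, AdmT α β γ → α ≤ X + H → β ≤ X + H → b ≤ Y → b' ≤ Y →
      α * b' = β * b + γ → R (io (α, b)) (io (β, b')) → Gd (α, β, γ)) →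
    (H : ℝ) ^ 2 * Y / 1000 ≤ (((Ioc X (X + H) ×ˢ Ioc X (X + H) ×ˢ Icc 1 Y).filter
      (fun T : ℕ × ℕ × ℕ => AdmT T.1 T.2.1 T.2.2 ∧ Gd T)).card : ℝ) := by
  obtain ⟨C0, δ, hC0, hδ, -, hthird⟩ := third K hK
  obtain ⟨v0, hv0⟩ : ∃ v0 : ℕ, ∀ v : ℝ, (v0 : ℝ) ≤ v → C0 * v ^ (-δ) ≤ 1 / 10000 := by
    have t1 : Filter.Tendsto (fun v : ℝ => C0 * v ^ (-δ)) Filter.atTop (nhds (C0 * 0)) :=
      (tendsto_rpow_neg_atTop hδ).const_mul C0
    rw [mul_zero] at t1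
    obtain ⟨w, hw⟩ := Filter.eventually_atTop.1 (t1.eventually (gt_mem_nhds (by norm_num : (0 : ℝ) < 1 / 10000)))
    obtain ⟨v0, hv0⟩ := exists_nat_ge w
    exact ⟨v0, fun v hv => (hw v (hv0.trans hv)).le⟩
  obtain ⟨C, hCdef⟩ : ∃ C : ℕ, C = 400000 + 6 * v0 := ⟨_, rfl⟩
  refine ⟨C, by omega, ?_⟩
  intro X H Y hCH hlog hHX hY F R hsymm hq hF Gd hGd
  have hC4 : (400000 : ℝ) ≤ C := by exact_mod_cast (by omega : 400000 ≤ C)
  have hCv : 6 * (v0 : ℝ) ≤ C := by exact_mod_cast (by omega : 6 * v0 ≤ C)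
  have hX1 : 1 ≤ X := by omega
  obtain ⟨N, hN⟩ : ∃ N : ℕ, N = Y / (X + H) := ⟨_, rfl⟩
  have hNY : (X + H) * N ≤ Y := by rw [hN]; exact Nat.mul_div_le _ _
  have hNY1 : N ≤ Y := by
    refine le_trans ?_ hNY
    exact Nat.le_mul_of_pos_left _ (by omega)
  have hHr : (C : ℝ) ≤ H := by exact_mod_cast hCH
  have hXr : (H : ℝ) ≤ X := by exact_mod_cast hHX
  have hYr : (C : ℝ) * (X : ℝ) ^ 2 ≤ Y := by exact_mod_cast hY
  have hX0 : (0 : ℝ) < X := by linarith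
  have hNl : (Y : ℝ) ≤ (N + 1) * (X + H) := by
    have h1 : Y < (N + 1) * (X + H) := by
      rw [hN]
      have := Nat.lt_mul_div_succ Y (by omega : 0 < X + H)
      rw [mul_comm]; exact this
    exact_mod_cast h1.le
  have hYN : (Y : ℝ) ≤ (N + 1) * (2 * X) := by
    refine hNl.trans ?_
    have : (0 : ℝ) ≤ (N : ℝ) + 1 := by positivity
    nlinarith
  -- the sizes
  obtain ⟨h, hh⟩ : ∃ h : ℝ, h = (H : ℝ) / 3 := ⟨_, rfl⟩
  obtain ⟨n, hn⟩ : ∃ n : ℝ, n = (N : ℝ) / 3 := ⟨_, rfl⟩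
  obtain ⟨L, hL⟩ : ∃ L : ℝ, L = 1 + Real.log (X + H : ℕ) := ⟨_, rfl⟩
  obtain ⟨A, hA⟩ : ∃ A : ℝ, A = h * n := ⟨_, rfl⟩
  have hXH : ((X + H : ℕ) : ℝ) ≤ 2 * X := by push_cast; linarith
  have hXH0 : (0 : ℝ) < ((X + H : ℕ) : ℝ) := by push_cast; linarith
  have hNbig : 200000 * (X : ℝ) - 1 ≤ N := by
    have h1 : (400000 : ℝ) * (X : ℝ) ^ 2 ≤ (N + 1) * (2 * X) := by
      have : (400000 : ℝ) * (X : ℝ) ^ 2 ≤ C * (X : ℝ) ^ 2 := by gcongr
      linarith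
    have h2 : (200000 * (X : ℝ)) * (2 * X) ≤ (N + 1) * (2 * X) := by linarith [h1, sq (X : ℝ)]
    have h3 := le_of_mul_le_mul_right h2 (by positivity)
    linarith
  have hhb : (100000 : ℝ) ≤ h := by rw [hh]; linarith
  have hnb : 20000 * (X : ℝ) ≤ n := by rw [hn]; linarith
  have hn1 : (10000 : ℝ) ≤ n := by linarith
  have hhn : h ≤ n := by rw [hh]; linarith
  have hLh : L ≤ h / 10000 := by
    have h1 : Real.log (X + H : ℕ) ≤ Real.log 2 + Real.log X := by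
      rw [← Real.log_mul (by norm_num) hX0.ne']
      exact Real.log_le_log hXH0 hXH
    have h2 : Real.log 2 ≤ 1 := by
      have := Real.log_two_lt_d9; linarith
    have h3 : Real.log X ≤ H / 400000 := by
      rw [le_div_iff₀ (by norm_num)]
      have h4 : 0 ≤ Real.log X := Real.log_natCast_nonneg X
      nlinarith
    rw [hL, hh]
    linarith
  have hL1 : 1 ≤ L := by
    rw [hL]
    have := Real.log_natCast_nonneg (X + H)
    linarith
  have hA0 : 0 < A := by rw [hA]; positivity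
  obtain ⟨e1, e2, e3, e4, e5⟩ := ar6 hA hhb hn1 hhn hL1 hLh hXH hnb
  -- the number of forms
  obtain ⟨v, hv⟩ : ∃ v : ℝ, v = ((VV X H N).card : ℝ) := ⟨_, rfl⟩
  have hv1 : 874 / 1000 * A ≤ v := by
    rcases VV_card X H N with h1 | h1 | h1
    · rw [← hh, ← hn, ← hL, ← hv] at h1
      have e6 : (h - 1) * (n - 1) = A - h - n + 1 := by rw [hA]; ring
      have e7 : h * n / 8 = A / 8 := by rw [hA]
      have e8 : 4 / 3 * (h + n) * L = 4 / 3 * (h * L) + 4 / 3 * (n * L) := by ring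
      rw [e6, e7, e8] at h1
      linarith
    · omega
    · exfalso
      have : (N : ℝ) < 3 := by exact_mod_cast h1
      rw [hn] at hn1
      linarith
  have hvv0 : (v0 : ℝ) ≤ v := by
    have h1 : (v0 : ℝ) ≤ h := by
      rw [hh]
      have : (0 : ℝ) ≤ v0 := by positivity
      linarith
    have : h ≤ A / 2 := by linarith
    linarith
  have hcard1 : 1 ≤ (VV X H N).card := by
    have : (0 : ℝ) < v := by linarith
    rw [hv] at this
    exact_mod_cast this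
  -- the related pairs
  obtain ⟨V, hV⟩ : ∃ V : Finset (ℤ × ℤ), V = (VV X H N).image io := ⟨_, rfl⟩
  have hVcard : V.card = (VV X H N).card := by
    rw [hV]; exact card_image_of_injective _ io_inj
  have hmem : ∀ f ∈ VV X H N, 1 ≤ f.1 ∧ f.1 ≤ X + H ∧ f.2 ≤ N := by
    intro f hf
    obtain ⟨⟨h1, h2⟩, -⟩ := mem_VV.1 hf
    have h3 := (mem_A6.1 h1).1
    have h4 := (mem_A6.1 h2).1
    exact ⟨by omega, h3.2, by omega⟩
  have h3rd := hthird F R hsymm hq V (by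
    intro f hf
    rw [hV] at hf
    obtain ⟨g, hg, rfl⟩ := mem_image.1 hf
    obtain ⟨h1, h2, h3⟩ := hmem g hg
    exact hF g h1 h2 (h3.trans hNY1)) (by rw [hVcard]; exact hcard1) (by
    intro f hf
    apply adm_VN (X + H) (N + 1) f
    intro i
    have h1 := hf i
    rw [hV] at h1
    obtain ⟨g, hg, hgi⟩ := mem_image.1 h1
    refine mem_image.2 ⟨g, ?_, hgi⟩
    obtain ⟨h2, h3, h4⟩ := hmem g hg
    obtain ⟨⟨h5, h6⟩, h7⟩ := mem_VV.1 hg
    refine mem_VN.2 ⟨⟨h2, h3⟩, ?_, (mem_A6.1 h6).2, h7⟩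
    calc g.2 < N + 1 := by omega
      _ ≤ g.1 * (N + 1) := Nat.le_mul_of_pos_left _ (by omega))
  rw [hVcard, ← hv] at h3rd
  have hRp : ((V ×ˢ V).filter (fun x => R x.1 x.2)).card =
      ((VV X H N ×ˢ VV X H N).filter (fun x => R (io x.1) (io x.2))).card := by
    symm
    apply Finset.card_bij (fun x _ => (io x.1, io x.2))
    · intro x hx
      obtain ⟨h1, h2⟩ := mem_filter.1 hx
      obtain ⟨h3, h4⟩ := mem_product.1 h1
      rw [hV]
      exact mem_filter.2 ⟨mem_product.2 ⟨mem_image_of_mem _ h3, mem_image_of_mem _ h4⟩, h2⟩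
    · intro x _ y _ hxy
      simp only [Prod.mk.injEq] at hxy
      exact Prod.ext (io_inj hxy.1) (io_inj hxy.2)
    · intro y hy
      obtain ⟨h1, h2⟩ := mem_filter.1 hy
      obtain ⟨h3, h4⟩ := mem_product.1 h1
      rw [hV] at h3 h4
      obtain ⟨f, hf, hf'⟩ := mem_image.1 h3
      obtain ⟨g, hg, hg'⟩ := mem_image.1 h4
      refine ⟨(f, g), mem_filter.2 ⟨mem_product.2 ⟨hf, hg⟩, ?_⟩, ?_⟩
      · show R (io f) (io g)
        rw [hf', hg']; exact h2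
      · show (io f, io g) = y
        rw [hf', hg']
  obtain ⟨G, hG⟩ : ∃ G, G = (VV X H N ×ˢ VV X H N).filter
    (fun x => R (io x.1) (io x.2) ∧ Nat.Coprime x.1.1 x.2.1) := ⟨_, rfl⟩
  have hGcard : ((VV X H N ×ˢ VV X H N).filter (fun x => R (io x.1) (io x.2))).card ≤
      G.card + ((VV X H N ×ˢ VV X H N).filter (fun x => ¬ Nat.Coprime x.1.1 x.2.1)).card := by
    rw [hG]
    refine le_trans (card_le_card ?_) (card_union_le _ _)
    intro x hx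
    obtain ⟨h1, h2⟩ := mem_filter.1 hx
    by_cases h3 : Nat.Coprime x.1.1 x.2.1
    · exact mem_union_left _ (mem_filter.2 ⟨h1, h2, h3⟩)
    · exact mem_union_right _ (mem_filter.2 ⟨h1, h3⟩)
  have hbad := bad_card X H N
  rw [hRp] at h3rd
  have hGr : (((VV X H N ×ˢ VV X H N).filter (fun x => R (io x.1) (io x.2))).card : ℝ) ≤
      (G.card : ℝ) + (((VV X H N ×ˢ VV X H N).filter (fun x => ¬ Nat.Coprime x.1.1 x.2.1)).card : ℝ) := by
    exact_mod_cast hGcard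
  have hG1 : 128 / 1000 * A ^ 2 ≤ (G.card : ℝ) := by
    have h1 : 2545 / 10000 * A ^ 2 ≤ 1 / 3 * v ^ 2 - C0 * v ^ (-δ) * v ^ 2 :=
      ar1 hA0.le hv1 (hv0 v hvv0)
    have h2 : ((H : ℝ) / 3 + 1 + ((H : ℝ) / 3 * (H / 3) / 8 +
      4 / 3 * ((H : ℝ) / 3 + H / 3) * (1 + Real.log H) + 16 / 9 * H)) * ((N : ℝ) / 3 + 1) ^ 2 ≤
        1261 / 10000 * A ^ 2 := by
      rw [← hh, ← hn]
      have e6 : (H : ℝ) = 3 * h := by rw [hh]; ring
      have h3 : 1 + Real.log H ≤ h / 10000 := by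
        refine le_trans ?_ hLh
        rw [hL]
        have : Real.log H ≤ Real.log (X + H : ℕ) :=
          Real.log_le_log (by linarith) (by push_cast; linarith)
        linarith
      have h4 := ar2 hhb h3
      rw [← e6] at h4
      rw [hA]
      exact ar4 h4 (ar3 hn1)
    have h3 := sq_nonneg A
    linarith
  -- the triples
  have hGm : ∀ x ∈ G, x.1 ∈ VV X H N ∧ x.2 ∈ VV X H N ∧ Nat.Coprime x.1.1 x.2.1 := by
    intro x hx
    rw [hG] at hx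
    obtain ⟨h1, h2⟩ := mem_filter.1 hx
    exact ⟨(mem_product.1 h1).1, (mem_product.1 h1).2, h2.2⟩
  have himg := Finset.card_le_mul_card_image (f := tr) G (4 * (N / (6 * X) + 1))
    (fun T hT => fib hX1 G hGm T hT)
  have hsub : G.image tr ⊆ (Ioc X (X + H) ×ˢ Ioc X (X + H) ×ˢ Icc 1 Y).filter
      (fun T : ℕ × ℕ × ℕ => AdmT T.1 T.2.1 T.2.2 ∧ Gd T) := by
    intro T hT
    obtain ⟨x, hx, rfl⟩ := mem_image.1 hT
    obtain ⟨hx1, hx2, hx3⟩ := hGm x hx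
    obtain ⟨α, β, γ, b, b', e6, hadm, hα, hβ, hγ, e7, hb, hb', -, -, hor⟩ := tr_spec hX1 hx1 hx2 hx3
    rw [e6]
    refine mem_filter.2 ⟨mem_product.2 ⟨mem_Ioc.2 hα, mem_product.2 ⟨mem_Ioc.2 hβ,
      mem_Icc.2 ⟨hadm.2.2.1, hγ.trans hNY⟩⟩⟩, hadm, ?_⟩
    rw [hG] at hx
    have hR := (mem_filter.1 hx).2.1
    refine hGd α β γ b b' hadm hα.2 hβ.2 (hb.trans hNY1) (hb'.trans hNY1) e7 ?_
    rcases hor with hor | hor
    · rw [hor] at hR; exact hR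
    · rw [hor] at hR; exact hsymm _ _ hR
  obtain ⟨I, hI⟩ : ∃ I : ℝ, I = ((G.image tr).card : ℝ) := ⟨_, rfl⟩
  have hI0 : 0 ≤ I := by rw [hI]; positivity
  have hIle : I ≤ (((Ioc X (X + H) ×ˢ Ioc X (X + H) ×ˢ Icc 1 Y).filter
      (fun T : ℕ × ℕ × ℕ => AdmT T.1 T.2.1 T.2.2 ∧ Gd T)).card : ℝ) := by
    rw [hI]; exact_mod_cast card_le_card hsub
  refine le_trans ?_ hIle
  have h1 : (G.card : ℝ) ≤ 4 * ((N / (6 * X) : ℕ) + 1) * I := by
    rw [hI]; exact_mod_cast himg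
  have h2 : ((N / (6 * X) : ℕ) : ℝ) ≤ (N : ℝ) / (6 * X) := by
    refine Nat.cast_div_le.trans (le_of_eq ?_)
    push_cast; ring
  have h3 : (G.card : ℝ) * X ≤ (2 * n + 4 * X) * I := by
    have h4 : (G.card : ℝ) ≤ 4 * ((N : ℝ) / (6 * X) + 1) * I := h1.trans (by gcongr)
    calc (G.card : ℝ) * X ≤ 4 * ((N : ℝ) / (6 * X) + 1) * I * X := mul_le_mul_of_nonneg_right h4 hX0.le
      _ = (2 * n + 4 * X) * I := by
        rw [hn]; field_simp; ring
  have h4 : 128 / 1000 * A ^ 2 * X ≤ (20002 / 10000 * n) * I := by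
    calc 128 / 1000 * A ^ 2 * X ≤ (G.card : ℝ) * X := mul_le_mul_of_nonneg_right hG1 hX0.le
      _ ≤ (2 * n + 4 * X) * I := h3
      _ ≤ (20002 / 10000 * n) * I := mul_le_mul_of_nonneg_right (by linarith) hI0
  have hn0 : 0 < n := by linarith
  have h5 : 128 / 1000 * (h ^ 2 * n * X) ≤ 20002 / 10000 * I := by
    have h6 : n * (128 / 1000 * (h ^ 2 * n * X)) ≤ n * (20002 / 10000 * I) := by
      calc n * (128 / 1000 * (h ^ 2 * n * X)) = 128 / 1000 * A ^ 2 * X := by rw [hA]; ring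
        _ ≤ (20002 / 10000 * n) * I := h4
        _ = n * (20002 / 10000 * I) := by ring
    exact le_of_mul_le_mul_left h6 hn0
  have h6 : (Y : ℝ) ≤ 61 / 10 * (n * X) := by
    apply ar5 hX0 hnb (by linarith)
    have e6 : (N : ℝ) = 3 * n := by rw [hn]; ring
    rw [← e6]; exact hYN
  have h7 : (H : ℝ) ^ 2 * Y / 1000 = 9 * h ^ 2 * Y / 1000 := by
    rw [hh]; ring
  rw [h7]
  have h8 : 9 * h ^ 2 * Y / 1000 ≤ 9 * h ^ 2 * (61 / 10 * (n * X)) / 1000 := by gcongr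
  have h9 : 0 ≤ h ^ 2 * n * X := by positivity
  have h10 : 9 * h ^ 2 * (61 / 10 * (n * X)) / 1000 = 549 / 10000 * (h ^ 2 * n * X) := by ring
  rw [h10] at h8
  linarith

end Pool.Agent.H42.NP
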