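import Mathlib
import Pool.Agent.H42.NP.NatMain

/-! Fixed coefficients: two of any four integers (helper42). -/

set_option autoImplicit false

namespace Pool.Agent.H42.NP

open Finset
open Pool.Agent.K7.H63.TQ (HitR third Adm4 AdmT io io_inj VN mem_VN adm_VN)

theorem card_units (q k : ℕ) : ((range (q * k)).filter (fun v => Nat.Coprime q v)).card = k * Nat.totient q := by
  induction k with
  | zero => simp
  | succ k ih =>
    have h1 : (range (q * (k + 1))).filter (fun v => Nat.Coprime q v) =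
        (range (q * k)).filter (fun v => Nat.Coprime q v) ∪
          (Ico (q * k) (q * k + q)).filter (fun v => Nat.Coprime q v) := by
      rw [← Finset.filter_union]
      congr 1
      ext v
      simp only [mem_range, mem_union, mem_Ico, Nat.mul_succ]
      omega
    have h2 : Disjoint ((range (q * k)).filter (fun v => Nat.Coprime q v))
        ((Ico (q * k) (q * k + q)).filter (fun v => Nat.Coprime q v)) := by
      rw [Finset.disjoint_left]
      intro v h3 h4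
      have h5 := mem_range.1 (mem_filter.1 h3).1
      have h6 := (mem_Ico.1 (mem_filter.1 h4).1).1
      omega
    rw [h1, card_union_of_disjoint h2, ih, Nat.filter_coprime_Ico_eq_totient]
    ring

/-- the integers below `6 u k` prime to `6 u` -/
def Vu (u k : ℕ) : Finset ℕ := (range (6 * u * k)).filter (fun v => Nat.Coprime (6 * u) v)

theorem mem_Vu {u k v : ℕ} : v ∈ Vu u k ↔ v < 6 * u * k ∧ Nat.Coprime (6 * u) v := by
  unfold Vu
  rw [mem_filter, mem_range]

/-- the pairs with a positive determinant and a relation -/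
def EP (P : ℕ → ℕ → Prop) [∀ v w, Decidable (P v w)] (u u' k k' : ℕ) : Finset (ℕ × ℕ) :=
  (Vu u k ×ˢ Vu u' k').filter (fun x => P x.1 x.2 ∧ u' * x.1 < u * x.2)

theorem odd_of_cop {u v : ℕ} (h : Nat.Coprime (6 * u) v) : Nat.Coprime v 6 ∧ Nat.Coprime v u :=
  ⟨(Nat.Coprime.coprime_mul_right h).symm, (Nat.Coprime.coprime_mul_left h).symm⟩

theorem adm_of' {u v u' v' γ : ℕ} (hu : 1 ≤ u) (hu' : 1 ≤ u') (hγ : 1 ≤ γ)
    (hv6 : Nat.Coprime v 6) (hv6' : Nat.Coprime v' 6)
    (huv : Nat.Coprime v u) (huv' : Nat.Coprime v' u') (huu : Nat.Coprime u u')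
    (h : u * v' = u' * v + γ) : AdmT u u' γ := by
  refine ⟨hu, hu', hγ, huu, ?_, ?_, ?_⟩
  · have h1 : Nat.Coprime u (u' * v) := Nat.Coprime.mul_right huu huv.symm
    have h2 : Nat.gcd u γ ∣ Nat.gcd u (u' * v) := by
      refine Nat.dvd_gcd (Nat.gcd_dvd_left _ _) ?_
      have h3 : Nat.gcd u γ ∣ u' * v + γ := by
        rw [← h]; exact (Nat.gcd_dvd_left _ _).mul_right _
      exact (Nat.dvd_add_left (Nat.gcd_dvd_right _ _)).1 h3
    rw [h1] at h2
    exact Nat.dvd_one.1 h2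
  · have h1 : Nat.Coprime u' (u * v') := Nat.Coprime.mul_right huu.symm huv'.symm
    have h2 : Nat.gcd u' γ ∣ Nat.gcd u' (u * v') := by
      refine Nat.dvd_gcd (Nat.gcd_dvd_left _ _) ?_
      rw [h]
      exact dvd_add ((Nat.gcd_dvd_left _ _).mul_right _) (Nat.gcd_dvd_right _ _)
    rw [h1] at h2
    exact Nat.dvd_one.1 h2
  · rintro ⟨h1, h2, h3⟩
    have hodd : ∀ y : ℕ, Nat.Coprime y 6 → y % 2 = 1 := by
      intro y hy
      have h4 : Nat.Coprime y 2 := Nat.Coprime.coprime_dvd_right (by norm_num) hy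
      exact Nat.odd_iff.1 (Nat.coprime_two_right.1 h4)
    have a1 := Nat.odd_iff.1 h1
    have a2 := hodd _ hv6
    have a3 := Nat.odd_iff.1 h2
    have a4 := hodd _ hv6'
    have a5 := Nat.odd_iff.1 h3
    have a6 : (u * v') % 2 = 1 := by rw [Nat.mul_mod, a1, a4]
    have a7 : (u' * v) % 2 = 1 := by rw [Nat.mul_mod, a3, a2]
    omega

/-- the values `α v' - β v`, where `u = G α`, `u' = G β` -/
theorem EP_card (P : ℕ → ℕ → Prop) [∀ v w, Decidable (P v w)] (G α β k k' : ℕ) (hα : 1 ≤ α)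
    (hab : Nat.Coprime α β) :
    (EP P (G * α) (G * β) k k').card ≤
      6 * k * G * ((EP P (G * α) (G * β) k k').image (fun x => α * x.2 - β * x.1)).card := by
  apply Finset.card_le_mul_card_image
  intro c _
  have hpos : ∀ x ∈ EP P (G * α) (G * β) k k', β * x.1 < α * x.2 := by
    intro x hx
    have h1 := (mem_filter.1 hx).2.2
    rw [mul_assoc, mul_assoc] at h1
    exact lt_of_mul_lt_mul_left h1 (Nat.zero_le _)
  have h1 : ((EP P (G * α) (G * β) k k').filter (fun x => α * x.2 - β * x.1 = c)).card ≤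
      (range (6 * k * G)).card := by
    apply Finset.card_le_card_of_injOn (fun x => x.1 / α)
    · intro x hx
      have h2 := (mem_filter.1 (mem_coe.1 hx)).1
      have h3 := (mem_product.1 (mem_filter.1 h2).1).1
      have h4 := (mem_Vu.1 h3).1
      refine mem_coe.2 (mem_range.2 ?_)
      show x.1 / α < 6 * k * G
      apply Nat.div_lt_of_lt_mul
      calc x.1 < 6 * (G * α) * k := h4
        _ = α * (6 * k * G) := by ring
    · intro x hx y hy hxy
      obtain ⟨h2, h3⟩ := mem_filter.1 (mem_coe.1 hx)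
      obtain ⟨h2', h3'⟩ := mem_filter.1 (mem_coe.1 hy)
      have h4 := hpos x h2
      have h4' := hpos y h2'
      have e1 : α * x.2 = β * x.1 + c := by omega
      have e2 : α * y.2 = β * y.1 + c := by omega
      have h5 : β * x.1 + c ≡ β * y.1 + c [MOD α] := by
        rw [← e1, ← e2]
        exact (Nat.modEq_zero_iff_dvd.2 (dvd_mul_right _ _)).trans
          (Nat.modEq_zero_iff_dvd.2 (dvd_mul_right _ _)).symm
      have h6 : x.1 ≡ y.1 [MOD α] :=
        Nat.ModEq.cancel_left_of_coprime hab (Nat.ModEq.add_right_cancel' c h5)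
      have h7 : x.1 % α = y.1 % α := h6
      have h8 := Nat.div_add_mod x.1 α
      have h9 := Nat.div_add_mod y.1 α
      simp only at hxy
      rw [hxy, h7] at h8
      have h10 : x.1 = y.1 := by omega
      rw [h10] at e1
      have h11 : α * x.2 = α * y.2 := by omega
      exact Prod.ext h10 (Nat.eq_of_mul_eq_mul_left (by omega) h11)
  rwa [card_range] at h1

theorem ar7 {a b f g Φ Ψ k l M I Y : ℝ} (ha : 0 < a) (hb : 0 < b) (hf : 0 ≤ f) (hg : 0 ≤ g) (hk : 0 < k)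
    (hl : 0 ≤ l) (hΦ : 2 * f ≤ Φ) (hΨ : 2 * g ≤ Ψ) (hM : M = Φ * k) (hM' : M = Ψ * l)
    (hY : Y = 6 * a * b * l) (h : 55 / 1000 * M ^ 2 ≤ 6 * k * I) : f * g / (a * b) * Y / 200 ≤ I := by
  have e1 : f * g / (a * b) * Y / 200 = 3 / 100 * (f * g * l) := by
    rw [hY]; field_simp; ring
  rw [e1]
  have h1 : k * (55 / 1000 * (Ψ * l * Φ)) ≤ k * (6 * I) := by
    calc k * (55 / 1000 * (Ψ * l * Φ)) = 55 / 1000 * M ^ 2 := by
          rw [pow_two]; nth_rw 1 [hM]; rw [hM']; ring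
      _ ≤ 6 * k * I := h
      _ = k * (6 * I) := by ring
  have h2 := le_of_mul_le_mul_left h1 hk
  have h3 : 4 * (f * g) ≤ Ψ * Φ := by nlinarith
  have h4 : 4 * (f * g) * l ≤ Ψ * Φ * l := mul_le_mul_of_nonneg_right h3 hl
  have h5 : 0 ≤ f * g * l := by positivity
  nlinarith

open Classical in
/-- **two of any four integers, abstract form** -/
theorem four_abs (K : ℕ) (hK : 1 ≤ K) : ∃ M0 : ℕ, 1 ≤ M0 ∧ ∀ a : Fin 4 → ℕ, (∀ i, 1 ≤ a i) →
    Function.Injective a →
    ∀ (F : Set (ℤ × ℤ)) (R : ℤ × ℤ → ℤ × ℤ → Prop), (∀ x y, R x y → R y x) →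
    HitR K F R → (∀ f : ℕ × ℕ, 1 ≤ f.1 → io f ∈ F) →
    ∀ Gd : ℕ → ℕ → ℕ → Prop,
    (∀ G α β γ b b' : ℕ, 1 ≤ G → AdmT α β γ → α * b' = β * b + γ →
      R (io (G * α, b)) (io (G * β, b')) → Gd α β γ) →
    ∀ t : ℕ, M0 ≤ t → ∃ i j, i ≠ j ∧ ∃ Y : ℕ, t ≤ Y ∧
      (Nat.totient (a i) : ℝ) * Nat.totient (a j) / ((a i : ℝ) * a j) * Y / 200 ≤
        (((Icc 1 Y).filter (fun c => AdmT (a i / Nat.gcd (a i) (a j)) (a j / Nat.gcd (a i) (a j)) c ∧
          Gd (a i / Nat.gcd (a i) (a j)) (a j / Nat.gcd (a i) (a j)) c)).card : ℝ) := by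
  obtain ⟨C0, δ, hC0, hδ, -, hthird⟩ := third K hK
  obtain ⟨v0, hv0⟩ : ∃ v0 : ℕ, ∀ v : ℝ, (v0 : ℝ) ≤ v → C0 * v ^ (-δ) ≤ 1 / 10000 := by
    have t1 : Filter.Tendsto (fun v : ℝ => C0 * v ^ (-δ)) Filter.atTop (nhds (C0 * 0)) :=
      (tendsto_rpow_neg_atTop hδ).const_mul C0
    rw [mul_zero] at t1
    obtain ⟨w, hw⟩ := Filter.eventually_atTop.1 (t1.eventually (gt_mem_nhds (by norm_num : (0 : ℝ) < 1 / 10000)))
    obtain ⟨v0, hv0⟩ := exists_nat_ge w
    exact ⟨v0, fun v hv => (hw v (hv0.trans hv)).le⟩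
  refine ⟨v0 + 1, by omega, ?_⟩
  intro a ha hainj F R hsymm hq hF Gd hGd t ht
  obtain ⟨Φ, hΦ⟩ : ∃ Φ : Fin 4 → ℕ, Φ = fun i => Nat.totient (6 * a i) := ⟨_, rfl⟩
  have hΦ1 : ∀ i, 1 ≤ Φ i := fun i => by
    rw [hΦ]; exact Nat.totient_pos.2 (by have := ha i; omega)
  obtain ⟨M, hM⟩ : ∃ M : ℕ, M = t * ∏ i, Φ i := ⟨_, rfl⟩
  have hdvd : ∀ i, Φ i ∣ M := fun i => by
    rw [hM]; exact (Finset.dvd_prod_of_mem Φ (mem_univ i)).mul_left t
  have hprod1 : 1 ≤ ∏ i, Φ i := by
    have : 0 < ∏ i, Φ i := Finset.prod_pos fun i _ => hΦ1 i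
    omega
  have htM : t ≤ M := by rw [hM]; exact Nat.le_mul_of_pos_right _ hprod1
  obtain ⟨k, hk⟩ : ∃ k : Fin 4 → ℕ, k = fun i => M / Φ i := ⟨_, rfl⟩
  have hkM : ∀ i, Φ i * k i = M := fun i => by rw [hk]; exact Nat.mul_div_cancel' (hdvd i)
  have hM1 : 1 ≤ M := by omega
  have hk1 : ∀ i, 1 ≤ k i := fun i => by
    rcases Nat.eq_zero_or_pos (k i) with h | h
    · have := hkM i; rw [h] at this; omega
    · exact h
  have hVcard : ∀ i, (Vu (a i) (k i)).card = M := fun i => by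
    unfold Vu
    rw [card_units, ← hkM i, hΦ]; ring
  -- the pairs of forms
  obtain ⟨E, hE⟩ : ∃ E : Fin 4 → Fin 4 → Finset (ℕ × ℕ), E = fun i j =>
    (Vu (a i) (k i) ×ˢ Vu (a j) (k j)).filter (fun x => R (io (a i, x.1)) (io (a j, x.2))) := ⟨_, rfl⟩
  have hE1 : ∀ i j, (E i j).card ≤ M * M := fun i j => by
    rw [hE]
    refine (card_filter_le _ _).trans ?_
    rw [card_product, hVcard, hVcard]
  obtain ⟨Q, hQ⟩ : ∃ Q : Fin 4 → Fin 4 → Finset (ℕ × ℕ), Q = fun i j =>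
    EP (fun v w => R (io (a i, v)) (io (a j, w))) (a i) (a j) (k i) (k j) := ⟨_, rfl⟩
  have hEQ : ∀ i j, i ≠ j → (E i j).card ≤ (Q i j).card + (Q j i).card := by
    intro i j hij
    have h1 : E i j ⊆ Q i j ∪ (Q j i).image Prod.swap := by
      intro x hx
      rw [hE] at hx
      obtain ⟨h2, h3⟩ := mem_filter.1 hx
      obtain ⟨h4, h5⟩ := mem_product.1 h2
      have h6 := odd_of_cop (mem_Vu.1 h4).2
      have h7 := odd_of_cop (mem_Vu.1 h5).2
      have hne : a j * x.1 ≠ a i * x.2 := by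
        intro h
        -- `a i ∣ a j` and `a j ∣ a i`
        have h8 : a i ∣ a j := h6.2.symm.dvd_of_dvd_mul_right ⟨x.2, h⟩
        have h9 : a j ∣ a i := h7.2.symm.dvd_of_dvd_mul_right ⟨x.1, h.symm⟩
        exact hij (hainj (Nat.dvd_antisymm h8 h9))
      rcases Nat.lt_or_gt_of_ne hne with h | h
      · apply mem_union_left
        rw [hQ]
        exact mem_filter.2 ⟨h2, h3, h⟩
      · apply mem_union_right
        refine mem_image.2 ⟨(x.2, x.1), ?_, rfl⟩
        rw [hQ]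
        exact mem_filter.2 ⟨mem_product.2 ⟨h5, h4⟩, hsymm _ _ h3, h⟩
    refine (card_le_card h1).trans ((card_union_le _ _).trans ?_)
    exact Nat.add_le_add_left card_image_le _
  -- all forms
  obtain ⟨W, hW⟩ : ∃ W : Finset (ℕ × ℕ), W = (univ : Finset (Fin 4)).biUnion
    (fun i => (Vu (a i) (k i)).image (fun v => (a i, v))) := ⟨_, rfl⟩
  have hWm : ∀ f, f ∈ W ↔ ∃ i, ∃ v ∈ Vu (a i) (k i), f = (a i, v) := by
    intro f
    rw [hW, mem_biUnion]
    constructor
    · rintro ⟨i, -, h⟩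
      obtain ⟨v, hv, rfl⟩ := mem_image.1 h
      exact ⟨i, v, hv, rfl⟩
    · rintro ⟨i, v, hv, rfl⟩
      exact ⟨i, mem_univ _, mem_image.2 ⟨v, hv, rfl⟩⟩
  have hWcard : W.card = 4 * M := by
    rw [hW, card_biUnion]
    · have h1 : ∀ i : Fin 4, ((Vu (a i) (k i)).image (fun v => (a i, v))).card = M := by
        intro i
        rw [card_image_of_injective _ (fun v w h => by simpa using h), hVcard]
      rw [Finset.sum_congr rfl (fun i _ => h1 i)]
      simp
    · intro i _ j _ hij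
      show Disjoint ((Vu (a i) (k i)).image (fun v => (a i, v))) ((Vu (a j) (k j)).image (fun v => (a j, v)))
      rw [Finset.disjoint_left]
      intro f h1 h2
      obtain ⟨v, -, rfl⟩ := mem_image.1 h1
      obtain ⟨w, -, h3⟩ := mem_image.1 h2
      simp only [Prod.mk.injEq] at h3
      exact hij (hainj h3.1.symm)
  obtain ⟨V, hV⟩ : ∃ V : Finset (ℤ × ℤ), V = W.image io := ⟨_, rfl⟩
  have hVc : V.card = 4 * M := by
    rw [hV, card_image_of_injective _ io_inj, hWcard]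
  obtain ⟨D, hD⟩ : ∃ D : ℕ, D = ∑ i, 6 * a i * k i := ⟨_, rfl⟩
  have h3rd := hthird F R hsymm hq V (by
    intro f hf
    rw [hV] at hf
    obtain ⟨g, hg, rfl⟩ := mem_image.1 hf
    obtain ⟨i, v, -, rfl⟩ := (hWm g).1 hg
    exact hF _ (ha i)) (by rw [hVc]; omega) (by
    intro f hf
    apply adm_VN (∑ i, a i) D f
    intro i
    have h1 := hf i
    rw [hV] at h1
    obtain ⟨g, hg, hgi⟩ := mem_image.1 h1
    refine mem_image.2 ⟨g, ?_, hgi⟩
    obtain ⟨j, v, hv, rfl⟩ := (hWm g).1 hg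
    obtain ⟨h5, h6⟩ := mem_Vu.1 hv
    have h7 := odd_of_cop h6
    refine mem_VN.2 ⟨⟨ha j, ?_⟩, ?_, h7.1, h7.2⟩
    · exact Finset.single_le_sum (f := a) (fun _ _ => Nat.zero_le _) (mem_univ j)
    · calc v < 6 * a j * k j := h5
        _ ≤ D := by
          rw [hD]
          exact Finset.single_le_sum (f := fun i => 6 * a i * k i) (fun _ _ => Nat.zero_le _) (mem_univ j)
        _ ≤ a j * D := Nat.le_mul_of_pos_left _ (ha j))
  rw [hVc] at h3rd
  have hpairs : ((V ×ˢ V).filter (fun x => R x.1 x.2)).card ≤ ∑ i, ∑ j, (E i j).card := by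
    have h1 : (V ×ˢ V).filter (fun x => R x.1 x.2) ⊆ (univ : Finset (Fin 4)).biUnion (fun i =>
        (univ : Finset (Fin 4)).biUnion (fun j => (E i j).image (fun x => (io (a i, x.1), io (a j, x.2))))) := by
      intro y hy
      obtain ⟨h1, h2⟩ := mem_filter.1 hy
      obtain ⟨h3, h4⟩ := mem_product.1 h1
      rw [hV] at h3 h4
      obtain ⟨f, hf, hf'⟩ := mem_image.1 h3
      obtain ⟨g, hg, hg'⟩ := mem_image.1 h4
      obtain ⟨i, v, hv, rfl⟩ := (hWm f).1 hf
      obtain ⟨j, w, hw, rfl⟩ := (hWm g).1 hg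
      refine mem_biUnion.2 ⟨i, mem_univ _, mem_biUnion.2 ⟨j, mem_univ _, mem_image.2 ⟨(v, w), ?_, ?_⟩⟩⟩
      · rw [hE]
        refine mem_filter.2 ⟨mem_product.2 ⟨hv, hw⟩, ?_⟩
        show R (io (a i, v)) (io (a j, w))
        rw [hf', hg']; exact h2
      · show (io (a i, v), io (a j, w)) = y
        rw [hf', hg']
    refine (card_le_card h1).trans (card_biUnion_le.trans (Finset.sum_le_sum fun i _ => ?_))
    exact card_biUnion_le.trans (Finset.sum_le_sum fun j _ => card_image_le)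
  have hM0 : (0 : ℝ) < M := by exact_mod_cast hM1
  have hlow : 53317 / 10000 * (M : ℝ) ^ 2 ≤ ((∑ i, ∑ j, (E i j).card : ℕ) : ℝ) := by
    have h1 : (v0 : ℝ) ≤ ((4 * M : ℕ) : ℝ) := by exact_mod_cast (by omega : v0 ≤ 4 * M)
    have h2 := hv0 _ h1
    have h3 : C0 * ((4 * M : ℕ) : ℝ) ^ (-δ) * ((4 * M : ℕ) : ℝ) ^ 2 ≤ 1 / 10000 * ((4 * M : ℕ) : ℝ) ^ 2 :=
      mul_le_mul_of_nonneg_right h2 (sq_nonneg _)
    have h4 : (((V ×ˢ V).filter (fun x => R x.1 x.2)).card : ℝ) ≤ ((∑ i, ∑ j, (E i j).card : ℕ) : ℝ) := by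
      exact_mod_cast hpairs
    have h5 : ((4 * M : ℕ) : ℝ) ^ 2 = 16 * (M : ℝ) ^ 2 := by push_cast; ring
    rw [h5] at h3 h3rd
    have h6 := sq_nonneg (M : ℝ)
    linarith
  -- a rich pair of classes
  obtain ⟨i, j, hij, hrich⟩ : ∃ i j, i ≠ j ∧ 55 / 1000 * (M : ℝ) ^ 2 ≤ ((Q i j).card : ℝ) := by
    by_contra hcon
    push Not at hcon
    have h1 : ∀ i j, i ≠ j → ((E i j).card : ℝ) ≤ 110 / 1000 * (M : ℝ) ^ 2 := by
      intro i j hij
      have h2 := hcon i j hij
      have h3 := hcon j i hij.symm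
      have h4 : ((E i j).card : ℝ) ≤ (Q i j).card + (Q j i).card := by exact_mod_cast hEQ i j hij
      linarith
    have h2 : ∀ i, ((E i i).card : ℝ) ≤ (M : ℝ) ^ 2 := by
      intro i
      have := hE1 i i
      have h3 : ((E i i).card : ℝ) ≤ (M : ℝ) * M := by exact_mod_cast this
      rw [pow_two]; exact h3
    have h3 : ((∑ i, ∑ j, (E i j).card : ℕ) : ℝ) ≤ 4 * (M : ℝ) ^ 2 + 12 * (110 / 1000 * (M : ℝ) ^ 2) := by
      push_cast
      simp only [Fin.sum_univ_four]
      have a0 := h2 0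
      have a1 := h2 1
      have a2 := h2 2
      have a3 := h2 3
      have b01 := h1 0 1 (by decide)
      have b02 := h1 0 2 (by decide)
      have b03 := h1 0 3 (by decide)
      have b10 := h1 1 0 (by decide)
      have b12 := h1 1 2 (by decide)
      have b13 := h1 1 3 (by decide)
      have b20 := h1 2 0 (by decide)
      have b21 := h1 2 1 (by decide)
      have b23 := h1 2 3 (by decide)
      have b30 := h1 3 0 (by decide)
      have b31 := h1 3 1 (by decide)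
      have b32 := h1 3 2 (by decide)
      linarith
    have h4 : 0 < (M : ℝ) ^ 2 := by positivity
    linarith
  obtain ⟨G, hG⟩ : ∃ G, G = Nat.gcd (a i) (a j) := ⟨_, rfl⟩
  have hG1 : 1 ≤ G := by rw [hG]; exact Nat.gcd_pos_of_pos_left _ (ha i)
  obtain ⟨α, hα⟩ : G ∣ a i := by rw [hG]; exact Nat.gcd_dvd_left _ _
  obtain ⟨β, hβ⟩ : G ∣ a j := by rw [hG]; exact Nat.gcd_dvd_right _ _
  have hα1 : 1 ≤ α := by
    rcases Nat.eq_zero_or_pos α with h | h
    · rw [h, mul_zero] at hα; have := ha i; omega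
    · exact h
  have hβ1 : 1 ≤ β := by
    rcases Nat.eq_zero_or_pos β with h | h
    · rw [h, mul_zero] at hβ; have := ha j; omega
    · exact h
  have hαβ : Nat.Coprime α β := by
    have h1 : G * Nat.gcd α β = G * 1 := by
      rw [← Nat.gcd_mul_left, ← hα, ← hβ, ← hG, mul_one]
    exact Nat.eq_of_mul_eq_mul_left hG1 h1
  have hdα : a i / G = α := by rw [hα]; exact Nat.mul_div_cancel_left _ hG1
  have hdβ : a j / G = β := by rw [hβ]; exact Nat.mul_div_cancel_left _ hG1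
  refine ⟨i, j, hij, α * (6 * a j * k j), ?_, ?_⟩
  · have h1 : t ≤ Φ j * k j := by rw [hkM j]; exact htM
    have h2 : Φ j ≤ 6 * a j := by rw [hΦ]; exact Nat.totient_le _
    calc t ≤ Φ j * k j := h1
      _ ≤ 6 * a j * k j := Nat.mul_le_mul_right _ h2
      _ ≤ α * (6 * a j * k j) := Nat.le_mul_of_pos_left _ hα1
  · rw [← hG, hdα, hdβ]
    have h1 := EP_card (fun v w => R (io (a i, v)) (io (a j, w))) G α β (k i) (k j) hα1 hαβ
    rw [← hα, ← hβ] at h1
    obtain ⟨I, hI⟩ : ∃ I, I = (EP (fun v w => R (io (a i, v)) (io (a j, w))) (a i) (a j) (k i) (k j)).image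
      (fun x => α * x.2 - β * x.1) := ⟨_, rfl⟩
    have hrich' : 55 / 1000 * (M : ℝ) ^ 2 ≤
        ((EP (fun v w => R (io (a i, v)) (io (a j, w))) (a i) (a j) (k i) (k j)).card : ℝ) := by
      rw [hQ] at hrich; exact hrich
    rw [← hI] at h1
    have h2 : 55 / 1000 * (M : ℝ) ^ 2 ≤ 6 * (k i : ℝ) * ((G : ℝ) * (I.card : ℝ)) := by
      refine hrich'.trans ?_
      have h3 : ((EP (fun v w => R (io (a i, v)) (io (a j, w))) (a i) (a j) (k i) (k j)).card : ℝ) ≤
        6 * (k i : ℝ) * G * (I.card : ℝ) := by exact_mod_cast h1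
      linarith
    have h3 : I ⊆ (Icc 1 (α * (6 * a j * k j))).filter
        (fun c => AdmT α β c ∧ Gd α β c) := by
      intro c hc
      rw [hI] at hc
      obtain ⟨x, hx, rfl⟩ := mem_image.1 hc
      obtain ⟨h4, h5, h6⟩ := mem_filter.1 hx
      obtain ⟨h7, h8⟩ := mem_product.1 h4
      obtain ⟨h9, h10⟩ := mem_Vu.1 h7
      obtain ⟨h11, h12⟩ := mem_Vu.1 h8
      have c1 := odd_of_cop h10
      have c2 := odd_of_cop h12
      have h13 : β * x.1 < α * x.2 := by
        rw [hα, hβ, mul_assoc, mul_assoc] at h6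
        exact lt_of_mul_lt_mul_left h6 (Nat.zero_le _)
      have e : α * x.2 = β * x.1 + (α * x.2 - β * x.1) := by omega
      have c3 : Nat.Coprime x.1 α := Nat.Coprime.coprime_dvd_right ⟨G, by rw [hα]; ring⟩ c1.2
      have c4 : Nat.Coprime x.2 β := Nat.Coprime.coprime_dvd_right ⟨G, by rw [hβ]; ring⟩ c2.2
      have hadm : AdmT α β (α * x.2 - β * x.1) :=
        adm_of' hα1 hβ1 (by omega) c1.1 c2.1 c3 c4 hαβ e
      refine mem_filter.2 ⟨mem_Icc.2 ⟨by omega, ?_⟩, hadm, hGd G _ _ _ _ _ hG1 hadm e ?_⟩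
      · exact (Nat.sub_le _ _).trans (Nat.mul_le_mul_left _ h11.le)
      · rw [← hα, ← hβ]; exact h5
    have h4 : (I.card : ℝ) ≤ (((Icc 1 (α * (6 * a j * k j))).filter
        (fun c => AdmT α β c ∧ Gd α β c)).card : ℝ) := by exact_mod_cast card_le_card h3
    refine le_trans ?_ h4
    have hsup : ∀ i, 2 * Nat.totient (a i) ≤ Φ i := by
      intro i
      have h5 := Nat.totient_super_multiplicative 6 (a i)
      have h6 : Nat.totient 6 = 2 := by decide
      rw [h6] at h5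
      rw [hΦ]; exact h5
    have hai : (0 : ℝ) < a i := by exact_mod_cast ha i
    have haj : (0 : ℝ) < a j := by exact_mod_cast ha j
    have hki : (0 : ℝ) < k i := by exact_mod_cast hk1 i
    have hGr : (0 : ℝ) < G := by exact_mod_cast hG1
    have hαr : (a i : ℝ) = G * α := by exact_mod_cast hα
    have h5 := ar7 (Φ := Φ i) (Ψ := Φ j) (k := k i) (l := k j) (M := M) (I := G * I.card)
      (Y := G * ((α * (6 * a j * k j) : ℕ) : ℝ)) (f := Nat.totient (a i)) (g := Nat.totient (a j))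
      hai haj (by positivity) (by positivity) hki (by positivity) (by exact_mod_cast hsup i)
      (by exact_mod_cast hsup j) (by exact_mod_cast (hkM i).symm) (by exact_mod_cast (hkM j).symm)
      (by push_cast; rw [hαr]; ring) h2
    have h6 : (G : ℝ) * ((Nat.totient (a i) : ℝ) * Nat.totient (a j) / ((a i : ℝ) * a j) *
        ((α * (6 * a j * k j) : ℕ) : ℝ) / 200) ≤ G * (I.card : ℝ) := by
      refine le_trans (le_of_eq ?_) h5
      ring
    exact le_of_mul_le_mul_left h6 hGr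

end Pool.Agent.H42.NP
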