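import Mathlib
import Pool.Agent.H42.NP.Base
import Pool.Graph.R_pool_sql_team_seeded_35f281b4.K7.H63.TQ.Main
import Pool.Graph.R_pool_sql_team_seeded_35f281b4.K7.H63.RT.Abs

/-! A quarter of all the equations `a p - b q = c`, and a third of the rationals `(q - h) / (p - h)`: narrow
progressions of prime solutions (helper42). -/

set_option autoImplicit false

namespace Pool.Agent.H42.NP

open Finset Filter Topology
open Pool.Agent.Y827.RO (Nar)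
open Pool.Agent.K7.H63.TQ (HitR quarter_abs Rg Ad tt io AdmT)
open Pool.Agent.K7.H63.RT (third_abs)

/-- `q` is a prime and `a p - b q = c` for a prime `p` -/
def Sol (a b : ℕ) (c : ℤ) (q : ℕ) : Prop := q.Prime ∧ ∃ p : ℕ, p.Prime ∧ (a : ℤ) * p - b * q = c

theorem toNat_eq {x : ℤ} (h : x.toNat.Prime) : ((x.toNat : ℕ) : ℤ) = x := by
  apply Int.toNat_of_nonneg
  by_contra hcon
  rw [Int.toNat_of_nonpos (by omega)] at h
  exact Nat.not_prime_zero h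

/-- from the forms `G a n + b₁`, `G b n + b₂` to the equation -/
theorem sol_of_PF {G a b : ℕ} {b₁ b₂ c : ℤ} (he : (a : ℤ) * b₂ = b * b₁ + c) {n : ℕ}
    (h : PF (((G * a : ℕ) : ℤ), b₁) (((G * b : ℕ) : ℤ), b₂) n) :
    1 ≤ ((G * a : ℕ) : ℤ) * n + b₁ ∧ Sol a b c (((G * a : ℕ) : ℤ) * n + b₁).toNat := by
  obtain ⟨h1, h2⟩ := h
  have e1 := toNat_eq h1
  have e2 := toNat_eq h2
  simp only at h1 h2 e1 e2
  have h3 := h1.one_lt
  refine ⟨by omega, h1, _, h2, ?_⟩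
  rw [e1, e2]
  push_cast
  linear_combination he

theorem narN_sol {G a b : ℕ} {b₁ b₂ c : ℤ} (he : (a : ℤ) * b₂ = b * b₁ + c) {l C N : ℕ}
    (hG : 1 ≤ G * a) (hl : 1 ≤ l) (h : NarN (PF (((G * a : ℕ) : ℤ), b₁) (((G * b : ℕ) : ℤ), b₂)) l C N)
    {x Q : ℕ} (hqQ : G * a ≤ Q) (hx1 : ((G * a : ℕ) : ℤ) * N + b₁ ≤ x) (hx2 : x ≤ 4 * Q * N)
    (hN : 4 * (Q : ℝ) ≤ Real.log N) (hNx : N ≤ x) : NarN (Sol a b c) l (C + 1) x :=
  NarN.affine hG (h.mono fun _ hn => sol_of_PF he hn) hl hqQ hx1 hx2 hN hNx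

theorem nar_sol {G a b : ℕ} {b₁ b₂ c : ℤ} (he : (a : ℤ) * b₂ = b * b₁ + c)
    (hG : 1 ≤ G * a) (h : Nar (PF (((G * a : ℕ) : ℤ), b₁) (((G * b : ℕ) : ℤ), b₂))) : Nar (Sol a b c) :=
  nar_affine hG (h.mono fun _ hn => sol_of_PF he hn)

/-- the scale of the forms for a given scale of the primes -/
theorem scale (X Y : ℕ) (hX : 1 ≤ X) : ∀ᶠ x : ℕ in atTop, X * (x / (2 * X)) + Y ≤ x ∧
    x ≤ 4 * X * (x / (2 * X)) ∧ x / (2 * X) ≤ x := by
  filter_upwards [eventually_ge_atTop (2 * Y + 8 * X)] with x hx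
  have h1 : 2 * X * (x / (2 * X)) + x % (2 * X) = x := Nat.div_add_mod _ _
  have h2 : x % (2 * X) < 2 * X := Nat.mod_lt _ (by omega)
  have h3 := Nat.zero_le (x % (2 * X))
  refine ⟨?_, ?_, Nat.div_le_self _ _⟩
  · have e : 2 * X * (x / (2 * X)) = 2 * (X * (x / (2 * X))) := by ring
    linarith
  · have e : 2 * X * (x / (2 * X)) = 2 * (X * (x / (2 * X))) := by ring
    have e' : 4 * X * (x / (2 * X)) = 4 * (X * (x / (2 * X))) := by ring
    linarith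

theorem tendsto_div (X : ℕ) (hX : 1 ≤ X) : Tendsto (fun x : ℕ => x / (2 * X)) atTop atTop := by
  refine tendsto_atTop.2 fun B => ?_
  filter_upwards [eventually_ge_atTop (B * (2 * X))] with x hx
  exact (Nat.le_div_iff_mul_le (by omega)).2 hx

open Classical in
/-- **a quarter of all triples: progressions of every length** -/
theorem quarter_nar : ∃ X0 C : ℕ, 2 ≤ X0 ∧ ∀ X : ℕ, X0 ≤ X → ∀ Y : ℕ, X ^ C ≤ Y →
    1 / 4 * ∑ T ∈ (Rg X 1 Y).filter Ad, tt T ≤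
      ∑ T ∈ (Rg X 1 Y).filter (fun T => Ad T ∧ Nar (Sol T.1 T.2.1 (T.2.2 : ℤ))), tt T := by
  obtain ⟨K, hK, hhit⟩ := hit_inf
  obtain ⟨X0, C, hX0, H⟩ := quarter_abs K hK
  refine ⟨X0, C, hX0, fun X hX Y hY => ?_⟩
  refine H X hX Y hY {f | 1 ≤ f.1} (fun f g => Nar (PF f g)) (fun x y h => h.mono fun _ hn => PF_symm hn)
    hhit ?_ _ ?_
  · intro f h1 _ _
    show (1 : ℤ) ≤ (f.1 : ℤ)
    exact_mod_cast h1
  · intro G α β γ b b' hG hadm hGα hGβ _ _ hsol hR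
    refine nar_sol (G := G) (b₁ := (b : ℤ)) (b₂ := (b' : ℤ)) ?_ (Nat.mul_pos hG hadm.1) hR
    exact_mod_cast hsol

open Classical in
/-- **a quarter of all triples, at every scale** -/
theorem quarter_scale : ∃ X0 C : ℕ, 2 ≤ X0 ∧ ∀ X : ℕ, X0 ≤ X → ∀ Y : ℕ, X ^ C ≤ Y → ∀ l : ℕ, ∃ B : ℕ,
    ∀ᶠ x : ℕ in atTop, 1 / 4 * ∑ T ∈ (Rg X 1 Y).filter Ad, tt T ≤
      ∑ T ∈ (Rg X 1 Y).filter (fun T => Ad T ∧ NarN (Sol T.1 T.2.1 (T.2.2 : ℤ)) l B x), tt T := by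
  obtain ⟨K, hK, hhit⟩ := hit_scale
  obtain ⟨X0, C, hX0, H⟩ := quarter_abs K hK
  refine ⟨X0, C, hX0, fun X hX Y hY l => ?_⟩
  obtain ⟨F, hF⟩ : ∃ F : Finset (ℤ × ℤ), F = ((Icc 1 X) ×ˢ (range (Y + 1))).image io := ⟨_, rfl⟩
  obtain ⟨B, hB⟩ := hhit F (by
    intro f hf
    rw [hF] at hf
    obtain ⟨g, hg, rfl⟩ := mem_image.1 hf
    have := (mem_Icc.1 (mem_product.1 hg).1).1
    show (1 : ℤ) ≤ (g.1 : ℤ)
    exact_mod_cast this) (max l 1)
  refine ⟨B + 1, ?_⟩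
  have hX1 : 1 ≤ X := by omega
  filter_upwards [(tendsto_div X hX1).eventually hB, scale X Y hX1,
    (tendsto_div X hX1).eventually (log_ev' (4 * X))] with x hx hsc hlog
  refine H X hX Y hY {f | f ∈ F} _ (fun x y h => h.mono fun _ hn => PF_symm hn) hx ?_ _ ?_
  · intro f h1 h2 h3
    show io f ∈ F
    rw [hF]
    exact mem_image_of_mem _ (mem_product.2 ⟨mem_Icc.2 ⟨h1, h2⟩, mem_range.2 (by omega)⟩)
  · intro G α β γ b b' hG hadm hGα hGβ hb hb' hsol hR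
    refine (narN_sol (G := G) (b₁ := (b : ℤ)) (b₂ := (b' : ℤ)) ?_ (Nat.mul_pos hG hadm.1)
      (le_max_right _ _) hR (Q := X) hGα ?_ hsc.2.1 ?_ hsc.2.2).len (le_max_left _ _)
    · exact_mod_cast hsol
    · have h1 : G * α * (x / (2 * X)) ≤ X * (x / (2 * X)) := Nat.mul_le_mul_right _ hGα
      have h2 := hsc.1
      have h3 : G * α * (x / (2 * X)) + b ≤ x := by omega
      exact_mod_cast h3
    · exact_mod_cast hlog

open Classical in
/-- **a third of the rationals: progressions of every length** -/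
theorem third_nar (ε : ℝ) (hε : 0 < ε) (hε1 : ε ≤ 1 / 3) : ∃ C : ℝ, 2 ≤ C ∧ ∀ (h : ℤ) (X : ℕ),
    C ≤ Pool.Agent.K7.H63.RT.W h.natAbs X →
    (1 / 3 - ε) * Pool.Agent.K7.H63.RT.T h.natAbs X ≤ Pool.Agent.K7.H63.RT.S h.natAbs X
      (fun a b => a ≠ b ∧ Nar (Sol a b (h * (a - b)))) := by
  obtain ⟨K, hK, hhit⟩ := hit_inf
  obtain ⟨C, hC, H⟩ := third_abs K hK ε hε hε1
  refine ⟨max C 2, le_max_right _ _, fun h X hCW => ?_⟩
  refine H {f | 1 ≤ f.1} (fun f g => Nar (PF f g)) (fun x y h => h.mono fun _ hn => PF_symm hn) hhit h X ?_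
    ((le_max_left _ _).trans hCW) _ ?_
  · intro m h1 _
    show (1 : ℤ) ≤ (m : ℤ)
    exact_mod_cast h1
  · intro d a b hd ha hb _ _ _ _ hR
    exact nar_sol (G := d) (b₁ := h) (b₂ := h) (by ring) (Nat.mul_pos hd ha) hR

open Classical in
/-- **a third of the rationals, at every scale** -/
theorem third_scale (ε : ℝ) (hε : 0 < ε) (hε1 : ε ≤ 1 / 3) : ∃ C : ℝ, 2 ≤ C ∧ ∀ (h : ℤ) (X : ℕ),
    C ≤ Pool.Agent.K7.H63.RT.W h.natAbs X → ∀ l : ℕ, ∃ B : ℕ, ∀ᶠ x : ℕ in atTop,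
    (1 / 3 - ε) * Pool.Agent.K7.H63.RT.T h.natAbs X ≤ Pool.Agent.K7.H63.RT.S h.natAbs X
      (fun a b => a ≠ b ∧ NarN (Sol a b (h * (a - b))) l B x) := by
  obtain ⟨K, hK, hhit⟩ := hit_scale
  obtain ⟨C, hC, H⟩ := third_abs K hK ε hε hε1
  refine ⟨max C 2, le_max_right _ _, fun h X hCW l => ?_⟩
  obtain ⟨F, hF⟩ : ∃ F : Finset (ℤ × ℤ), F = (Icc 1 X).image (fun m : ℕ => ((m : ℤ), h)) := ⟨_, rfl⟩
  obtain ⟨B, hB⟩ := hhit F (by
    intro f hf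
    rw [hF] at hf
    obtain ⟨g, hg, rfl⟩ := mem_image.1 hf
    have := (mem_Icc.1 hg).1
    show (1 : ℤ) ≤ (g : ℤ)
    exact_mod_cast this) (max l 1)
  refine ⟨B + 1, ?_⟩
  filter_upwards [(tendsto_div (max X 1) (le_max_right _ _)).eventually hB,
    scale (max X 1) h.natAbs (le_max_right _ _),
    (tendsto_div (max X 1) (le_max_right _ _)).eventually (log_ev' (4 * (max X 1 : ℕ)))] with x hx hsc hlog
  refine H {f | f ∈ F} _ (fun x y h => h.mono fun _ hn => PF_symm hn) hx h X ?_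
    ((le_max_left _ _).trans hCW) _ ?_
  · intro m h1 h2
    show ((m : ℤ), h) ∈ F
    rw [hF]
    exact mem_image_of_mem (fun m : ℕ => ((m : ℤ), h)) (mem_Icc.2 ⟨h1, h2⟩)
  · intro d a b hd ha hb hda hdb _ _ hR
    have hda' : d * a ≤ max X 1 := hda.trans (le_max_left _ _)
    refine (narN_sol (G := d) (b₁ := h) (b₂ := h) (by ring) (Nat.mul_pos hd ha)
      (le_max_right _ _) hR (Q := max X 1) hda' ?_ hsc.2.1 ?_ hsc.2.2).len (le_max_left _ _)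
    · have h1 : d * a * (x / (2 * max X 1)) ≤ max X 1 * (x / (2 * max X 1)) :=
        Nat.mul_le_mul_right _ hda'
      have h2 := hsc.1
      have h3 : d * a * (x / (2 * max X 1)) + h.natAbs ≤ x := by omega
      have h4 := le_abs_self h
      rw [Int.abs_eq_natAbs] at h4
      have h5 : ((d * a : ℕ) : ℤ) * ((x / (2 * max X 1) : ℕ) : ℤ) + (h.natAbs : ℤ) ≤ x := by
        exact_mod_cast h3
      linarith
    · exact_mod_cast hlog

end Pool.Agent.H42.NP
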