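import Mathlib

/-! Selection of linear forms without coincidences in the orbits (helper42). -/

set_option autoImplicit false

namespace Pool.Agent.H42.NP

open Finset

/-- the mixed geometric sum -/
def gs (x y : ℤ) (i : ℕ) : ℤ := ∑ j ∈ range i, x ^ j * y ^ (i - 1 - j)

theorem gs_pos {x y : ℤ} (hx : 1 ≤ x) (hy : 1 ≤ y) {i : ℕ} (hi : 1 ≤ i) : 0 < gs x y i :=
  Finset.sum_pos (fun j _ => by positivity) ⟨0, mem_range.2 hi⟩

theorem gs_comm (x y : ℤ) (i : ℕ) : gs x y i = gs y x i := geom_sum₂_comm x y i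

theorem gs_mul (G x y : ℤ) {i : ℕ} (hi : 1 ≤ i) : gs (G * x) (G * y) i = G ^ (i - 1) * gs x y i := by
  unfold gs
  rw [Finset.mul_sum]
  refine Finset.sum_congr rfl fun j hj => ?_
  have h1 := mem_range.1 hj
  have h2 : G ^ (i - 1) = G ^ j * G ^ (i - 1 - j) := by rw [← pow_add]; congr 1; omega
  rw [h2, mul_pow, mul_pow]
  ring

/-- `w` is the `i`-th term after `v` in the orbit that contains `u`, `v` in succession -/
def Fwd (i : ℕ) (u v w : ℤ × ℤ) : Prop :=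
  v.1 ^ i * v.1 = u.1 ^ i * w.1 ∧
    v.1 ^ i * v.2 + (u.1 * v.2 - v.1 * u.2) * gs u.1 v.1 i = u.1 ^ i * w.2

theorem fwd_unique3 {i : ℕ} {u v w w' : ℤ × ℤ} (hu : 1 ≤ u.1) (h : Fwd i u v w)
    (h' : Fwd i u v w') : w = w' := by
  have hu0 : u.1 ^ i ≠ 0 := pow_ne_zero _ (by omega)
  exact Prod.ext (mul_left_cancel₀ hu0 (h.1.symm.trans h'.1))
    (mul_left_cancel₀ hu0 (h.2.symm.trans h'.2))

theorem fwd_unique2 {i : ℕ} (hi : 1 ≤ i) {u v w w' : ℤ × ℤ} (hu : 1 ≤ u.1) (hw : 1 ≤ w.1)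
    (hw' : 1 ≤ w'.1) (h : Fwd i u w v) (h' : Fwd i u w' v) : w = w' := by
  have h1 : w.1 = w'.1 := by
    have e1 := h.1.trans h'.1.symm
    rw [← pow_succ, ← pow_succ] at e1
    exact (pow_left_inj₀ (by omega) (by omega) (by omega)).1 e1
  have h2 := h.2.trans h'.2.symm
  rw [h1] at h2
  have h3 : (w.2 - w'.2) * (w'.1 ^ i + u.1 * gs u.1 w'.1 i) = 0 := by linear_combination h2
  have h4 : 0 < gs u.1 w'.1 i := gs_pos hu hw' hi
  have h5 : w'.1 ^ i + u.1 * gs u.1 w'.1 i ≠ 0 := by positivity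
  have h6 := (mul_eq_zero.1 h3).resolve_right h5
  exact Prod.ext h1 (by linarith)

theorem fwd_unique1 {i : ℕ} (hi : 1 ≤ i) {u v w w' : ℤ × ℤ} (hu : 1 ≤ u.1) (hw : 1 ≤ w.1)
    (hw' : 1 ≤ w'.1) (h : Fwd i w u v) (h' : Fwd i w' u v) : w = w' := by
  have hv0 : v.1 ≠ 0 := by
    intro h0
    have := h.1
    rw [h0, mul_zero, ← pow_succ] at this
    have h1 : 0 < u.1 ^ (i + 1) := by positivity
    omega
  have h1 : w.1 = w'.1 := by
    have e1 : w.1 ^ i * v.1 = w'.1 ^ i * v.1 := h.1.symm.trans h'.1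
    have e2 := mul_right_cancel₀ hv0 e1
    exact (pow_left_inj₀ (by omega) (by omega) (by omega)).1 e2
  have h2 := h.2
  have h2' := h'.2
  rw [h1] at h2
  have h3 : (w.2 - w'.2) * (u.1 * gs w'.1 u.1 i) = 0 := by linear_combination h2' - h2
  have h4 : 0 < gs w'.1 u.1 i := gs_pos hw' hu hi
  have h5 : u.1 * gs w'.1 u.1 i ≠ 0 := by positivity
  have h6 := (mul_eq_zero.1 h3).resolve_right h5
  exact Prod.ext h1 (by linarith)

theorem not_fwd_self2 {i : ℕ} (hi : 1 ≤ i) {u v : ℤ × ℤ} (hu : 1 ≤ u.1) (hv : 1 ≤ v.1)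
    (hne : u ≠ v) : ¬ Fwd i u v v := by
  rintro ⟨h1, h2⟩
  have e1 := mul_right_cancel₀ (show v.1 ≠ 0 by omega) h1
  have e2 : v.1 = u.1 := (pow_left_inj₀ (by omega) (by omega) (by omega)).1 e1
  rw [e2] at h2
  have h3 : (v.2 - u.2) * (u.1 * gs u.1 u.1 i) = 0 := by linear_combination h2
  have h4 : 0 < gs u.1 u.1 i := gs_pos hu hu hi
  have h5 : u.1 * gs u.1 u.1 i ≠ 0 := by positivity
  have h6 := (mul_eq_zero.1 h3).resolve_right h5
  exact hne (Prod.ext e2.symm (by linarith))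

theorem not_fwd_self1 {i : ℕ} (hi : 1 ≤ i) {u v : ℤ × ℤ} (hu : 1 ≤ u.1) (hv : 1 ≤ v.1)
    (hne : u ≠ v) : ¬ Fwd i u v u := by
  rintro ⟨h1, h2⟩
  rw [← pow_succ, ← pow_succ] at h1
  have e2 : v.1 = u.1 := (pow_left_inj₀ (by omega) (by omega) (by omega)).1 h1
  rw [e2] at h2
  have h3 : (v.2 - u.2) * (u.1 ^ i + u.1 * gs u.1 u.1 i) = 0 := by linear_combination h2
  have h4 : 0 < gs u.1 u.1 i := gs_pos hu hu hi
  have h5 : u.1 ^ i + u.1 * gs u.1 u.1 i ≠ 0 := by positivity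
  have h6 := (mul_eq_zero.1 h3).resolve_right h5
  exact hne (Prod.ext e2.symm (by linarith))

/-- the two forms satisfy a linear equation with small coefficients -/
def Rel (R : ℕ) (u v : ℤ × ℤ) : Prop :=
  ∃ a b : ℕ, (1 ≤ a ∧ a ≤ R + 1) ∧ (1 ≤ b ∧ b ≤ R + 1) ∧ ∃ c : ℤ, |c| ≤ R ∧ b * u.1 = a * v.1 ∧
    b * u.2 + c = a * v.2

theorem Rel.symm {R : ℕ} {u v : ℤ × ℤ} (h : Rel R u v) : Rel R v u := by
  obtain ⟨a, b, ha, hb, c, hc, h1, h2⟩ := h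
  exact ⟨b, a, hb, ha, -c, by rwa [abs_neg], h1.symm, by linarith⟩

theorem Rel.refl (R : ℕ) (u : ℤ × ℤ) : Rel R u u :=
  ⟨1, 1, ⟨le_rfl, by omega⟩, ⟨le_rfl, by omega⟩, 0, by simp, rfl, by simp⟩

/-- no coincidences among the forms with indices in `s` -/
def Clean {ι : Type} (R : ℕ) (F : ι → ℤ × ℤ) (s : Finset ι) : Prop :=
  (∀ x ∈ s, ∀ z ∈ s, x ≠ z → ¬ Rel R (F x) (F z)) ∧
    ∀ x ∈ s, ∀ y ∈ s, ∀ z ∈ s, x ≠ y → ∀ i : ℕ, 1 ≤ i → i ≤ R → ¬ Fwd i (F x) (F y) (F z)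

/-- the indices of the conditions -/
abbrev Idx (ι : Type) (R : ℕ) : Type :=
  ((ι × ι) × (Fin (2 * R + 2) × Fin 4)) × (Fin (R + 2) × Fin (R + 2))

/-- the forbidden forms -/
def Forb {ι : Type} (R : ℕ) (F : ι → ℤ × ℤ) (t : Idx ι R) (w : ℤ × ℤ) : Prop :=
  (t.1.2.2 = 0 ∧ 1 ≤ (t.1.2.1 : ℕ) ∧ Fwd t.1.2.1 (F t.1.1.1) (F t.1.1.2) w) ∨
  (t.1.2.2 = 1 ∧ 1 ≤ (t.1.2.1 : ℕ) ∧ Fwd t.1.2.1 (F t.1.1.1) w (F t.1.1.2)) ∨
  (t.1.2.2 = 2 ∧ 1 ≤ (t.1.2.1 : ℕ) ∧ Fwd t.1.2.1 w (F t.1.1.1) (F t.1.1.2)) ∨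
  (t.1.2.2 = 3 ∧ 1 ≤ (t.2.1 : ℕ) ∧ ((t.2.2 : ℕ) : ℤ) * (F t.1.1.1).1 = ((t.2.1 : ℕ) : ℤ) * w.1 ∧
    ((t.2.2 : ℕ) : ℤ) * (F t.1.1.1).2 + (((t.1.2.1 : ℕ) : ℤ) - R) = ((t.2.1 : ℕ) : ℤ) * w.2)

theorem forb_unique {ι : Type} {R : ℕ} {F : ι → ℤ × ℤ} (hF : ∀ x, 1 ≤ (F x).1)
    {t : Idx ι R} {w w' : ℤ × ℤ} (hw : 1 ≤ w.1) (hw' : 1 ≤ w'.1)
    (h : Forb R F t w) (h' : Forb R F t w') : w = w' := by
  rcases h with ⟨h1, h2, h3⟩ | ⟨h1, h2, h3⟩ | ⟨h1, h2, h3⟩ | ⟨h1, h2, h3, h4⟩ <;>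
  rcases h' with ⟨h1', h2', h3'⟩ | ⟨h1', h2', h3'⟩ | ⟨h1', h2', h3'⟩ | ⟨h1', h2', h3', h4'⟩ <;>
  first
  | (exfalso; rw [h1] at h1'; revert h1'; decide)
  | exact fwd_unique3 (hF _) h3 h3'
  | exact fwd_unique2 h2 (hF _) hw hw' h3 h3'
  | exact fwd_unique1 h2 (hF _) hw hw' h3 h3'
  | (have h0 : ((t.2.1 : ℕ) : ℤ) ≠ 0 := by exact_mod_cast (by omega : (t.2.1 : ℕ) ≠ 0)
     exact Prod.ext (mul_left_cancel₀ h0 (h3.symm.trans h3')) (mul_left_cancel₀ h0 (h4.symm.trans h4')))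

theorem exists_free {ι : Type} [Fintype ι] {R K' : ℕ} {F : ι → ℤ × ℤ} (hF : ∀ x, 1 ≤ (F x).1)
    {B : Fin K' → ℤ × ℤ} (hB : Function.Injective B) (hB1 : ∀ j, 1 ≤ (B j).1)
    (hK : Fintype.card (Idx ι R) < K') :
    ∃ j, ∀ t, ¬ Forb R F t (B j) := by
  by_contra hcon
  push Not at hcon
  choose t ht using hcon
  obtain ⟨x, y, hxy, he⟩ := Fintype.exists_ne_map_eq_of_card_lt t (by rwa [Fintype.card_fin])
  have h1 := ht x
  rw [he] at h1
  exact hxy (hB (forb_unique hF (hB1 x) (hB1 y) h1 (ht y)))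

theorem clean_insert {ι : Type} [DecidableEq ι] {R : ℕ} {F : ι → ℤ × ℤ}
    (hF : ∀ x, 1 ≤ (F x).1) {s : Finset ι} {a : ι} (ha : a ∉ s) (hs : Clean R F s)
    {w : ℤ × ℤ} (hw : 1 ≤ w.1) (hfree : ∀ t, ¬ Forb R F t w) :
    Clean R (Function.update F a w) (insert a s) := by
  have hne : ∀ x ∈ s, x ≠ a := fun x hx h => ha (h ▸ hx)
  have hup : ∀ x ∈ s, Function.update F a w x = F x := fun x hx =>
    Function.update_of_ne (hne x hx) _ _
  have hua : Function.update F a w a = w := Function.update_self _ _ _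
  have h3 : ∀ x : ι, ¬ Rel R (F x) w := by
    rintro x ⟨b₁, b₂, ⟨hb1, hb2⟩, ⟨hb3, hb4⟩, c, hc, e1, e2⟩
    have hc' := abs_le.1 hc
    have e3 : (((c + R).toNat : ℕ) : ℤ) - R = c := by
      rw [Int.toNat_of_nonneg (by omega)]; ring
    refine hfree (((x, x), (⟨(c + R).toNat, by omega⟩, 3)), (⟨b₁, by omega⟩, ⟨b₂, by omega⟩))
      (Or.inr (Or.inr (Or.inr ⟨rfl, hb1, e1, ?_⟩)))
    show (b₂ : ℤ) * (F x).2 + ((((c + R).toNat : ℕ) : ℤ) - R) = (b₁ : ℤ) * w.2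
    rw [e3]
    exact e2
  have hwx : ∀ x, w ≠ F x := fun x h => h3 x (by rw [h]; exact Rel.refl R _)
  refine ⟨?_, ?_⟩
  · intro x hx z hz hxz
    rcases mem_insert.1 hx with rfl | hx' <;> rcases mem_insert.1 hz with rfl | hz'
    · exact absurd rfl hxz
    · rw [hup z hz', hua]; exact fun h => h3 z h.symm
    · rw [hup x hx', hua]; exact h3 x
    · rw [hup x hx', hup z hz']; exact hs.1 x hx' z hz' hxz
  · intro x hx y hy z hz hxy i hi hiR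
    have hi2 : i < 2 * R + 2 := by omega
    rcases mem_insert.1 hx with rfl | hx' <;> rcases mem_insert.1 hy with rfl | hy'
    · exact absurd rfl hxy
    · rw [hua, hup y hy']
      rcases mem_insert.1 hz with rfl | hz'
      · rw [hua]
        exact not_fwd_self1 hi hw (hF y) (hwx y)
      · rw [hup z hz']
        intro h
        exact hfree (((y, z), (⟨i, hi2⟩, 2)), (0, 0)) (Or.inr (Or.inr (Or.inl ⟨rfl, hi, h⟩)))
    · rw [hua, hup x hx']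
      rcases mem_insert.1 hz with rfl | hz'
      · rw [hua]
        exact not_fwd_self2 hi (hF x) hw (hwx x).symm
      · rw [hup z hz']
        intro h
        exact hfree (((x, z), (⟨i, hi2⟩, 1)), (0, 0)) (Or.inr (Or.inl ⟨rfl, hi, h⟩))
    · rw [hup x hx', hup y hy']
      rcases mem_insert.1 hz with rfl | hz'
      · rw [hua]
        intro h
        exact hfree (((x, y), (⟨i, hi2⟩, 0)), (0, 0)) (Or.inl ⟨rfl, hi, h⟩)
      · rw [hup z hz']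
        exact hs.2 x hx' y hy' z hz' hxy i hi hiR

/-- **a family without coincidences** -/
theorem select (K R : ℕ) : ∃ K' : ℕ, 1 ≤ K' ∧ ∀ A : Fin 4 → Fin K' → ℤ × ℤ,
    Function.Injective (fun x : Fin 4 × Fin K' => A x.1 x.2) → (∀ g i, 1 ≤ (A g i).1) →
    ∃ τ : Fin 4 × Fin K → Fin K', Clean R (fun z => A z.1 (τ z)) univ := by
  classical
  obtain ⟨K', hK'⟩ : ∃ K' : ℕ, K' = Fintype.card (Idx (Fin 4 × Fin K) R) + 1 := ⟨_, rfl⟩
  refine ⟨K', by omega, fun A hinj hpos => ?_⟩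
  have key : ∀ s : Finset (Fin 4 × Fin K), ∃ τ : Fin 4 × Fin K → Fin K',
      Clean R (fun z => A z.1 (τ z)) s := by
    intro s
    induction s using Finset.induction_on with
    | empty =>
      refine ⟨fun _ => ⟨0, by omega⟩, ?_, ?_⟩
      · intro x hx; simp at hx
      · intro x hx; simp at hx
    | insert a s ha ih =>
      obtain ⟨τ, hτ⟩ := ih
      obtain ⟨j, hj⟩ := exists_free (R := R) (F := fun z : Fin 4 × Fin K => A z.1 (τ z))
        (fun x => hpos _ _) (B := fun j => A a.1 j)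
        (fun j j' h => (Prod.ext_iff.1 (hinj (a₁ := (a.1, j)) (a₂ := (a.1, j')) h)).2)
        (fun j => hpos _ _) (by omega)
      refine ⟨Function.update τ a j, ?_⟩
      have h1 := clean_insert (fun x => hpos _ _) ha hτ (hpos a.1 j) hj
      have h2 : (fun z : Fin 4 × Fin K => A z.1 (Function.update τ a j z)) =
          Function.update (fun z : Fin 4 × Fin K => A z.1 (τ z)) a (A a.1 j) := by
        funext z
        by_cases hz : z = a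
        · subst hz; simp
        · simp [Function.update_of_ne hz]
      rw [h2]
      exact h1
  exact key univ

end Pool.Agent.H42.NP
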