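import Mathlib
import Pool.Agent.H42.NP.Blk
import Pool.Agent.H42.NP.Sel
import Pool.Agent.H42.NP.Quarter

/-! A quarter of all the equations `a p - b q = c`: narrow progressions of isolated prime solutions
(helper42). -/

set_option autoImplicit false

namespace Pool.Agent.H42.NP

open Finset Filter Topology
open Pool.Agent.Y827.RO (Nar QE narE coprime_of_adm)
open Pool.Agent.K7.H63.TQ (HitR quarter_abs Rg Ad tt io AdmT)

/-- `p'` is the `i`-th term after the value at `n` of `v`, in the orbit from the value of `u` to the value of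
`v` -/
def FwdAt (i : ℕ) (u v : ℤ × ℤ) (n p' : ℕ) : Prop :=
  u.1 ^ i * (p' : ℤ) = v.1 ^ i * (v.1 * n + v.2) + (u.1 * v.2 - v.1 * u.2) * gs u.1 v.1 i

/-- both forms are prime, and isolated in the orbit and for the equations with small coefficients -/
def PFI (R : ℕ) (f g : ℤ × ℤ) (n : ℕ) : Prop :=
  PF f g n ∧ (∀ i : ℕ, 1 ≤ i → i ≤ R → ∀ p' : ℕ, p'.Prime → ¬ FwdAt i f g n p' ∧ ¬ FwdAt i g f n p') ∧
    ∀ w u : ℕ, (1 ≤ w ∧ w ≤ R + 1) → (1 ≤ u ∧ u ≤ R + 1) → ∀ v : ℤ, |v| ≤ R → ∀ r : ℕ, r.Prime →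
      ((w : ℤ) * r = u * (f.1 * n + f.2) + v → (r : ℤ) = f.1 * n + f.2) ∧
      ((w : ℤ) * r = u * (g.1 * n + g.2) + v → (r : ℤ) = g.1 * n + g.2)

theorem PFI_symm {R : ℕ} {f g : ℤ × ℤ} {n : ℕ} (h : PFI R f g n) : PFI R g f n :=
  ⟨PF_symm h.1, fun i h1 h2 p' hp => ⟨(h.2.1 i h1 h2 p' hp).2, (h.2.1 i h1 h2 p' hp).1⟩,
    fun w u h1 h2 v h3 r hr => ⟨(h.2.2 w u h1 h2 v h3 r hr).2, (h.2.2 w u h1 h2 v h3 r hr).1⟩⟩

/-- the family in the progression `Q m + r` -/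
def HH {K : ℕ} (F : Fin 4 × Fin K → ℤ × ℤ) (Q r : ℕ) (g : Fin 4) (i : Fin K) : ℤ × ℤ :=
  ((F (g, i)).1 * Q, (F (g, i)).1 * r + (F (g, i)).2)

open Classical in
/-- a progression in which all orbits between the forms of the family are free of other primes -/
theorem prep {K R : ℕ} (F : Fin 4 × Fin K → ℤ × ℤ) (hpos : ∀ z, 1 ≤ (F z).1)
    (hclean : Clean R F univ)
    (hadm : ∀ p : ℕ, p.Prime → ∃ n : ℤ, ∀ z, ¬ (p : ℤ) ∣ (F z).1 * n + (F z).2) :
    ∃ Q r : ℕ, 1 ≤ Q ∧ 1 ≤ r ∧ Function.Injective (fun x : Fin 4 × Fin K => HH F Q r x.1 x.2) ∧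
      (∀ g i, 1 ≤ (HH F Q r g i).1) ∧
      (∀ p : ℕ, p.Prime → ∃ n : ℤ, ∀ g i, ¬ (p : ℤ) ∣ (HH F Q r g i).1 * n + (HH F Q r g i).2) ∧
      ∀ x y : Fin 4 × Fin K, x ≠ y → ∀ m : ℕ, PF (HH F Q r x.1 x.2) (HH F Q r y.1 y.2) m →
        PFI R (F x) (F y) (Q * m + r) := by
  have hinj : Function.Injective F := by
    intro x z h
    by_contra hne
    exact hclean.1 x (mem_univ _) z (mem_univ _) hne (by rw [← h]; exact Rel.refl R _)
  obtain ⟨Hs, hHs⟩ : ∃ Hs : Finset (ℕ × (ℤ × ℤ)), Hs =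
      ((univ : Finset (Fin 4 × Fin K)) ×ˢ ((univ : Finset (Fin 4 × Fin K)) ×ˢ Icc 1 R)).image
        (fun t => (((F t.1).1 ^ t.2.2).toNat, ((F t.2.1).1 ^ t.2.2 * (F t.2.1).1,
          (F t.2.1).1 ^ t.2.2 * (F t.2.1).2 + ((F t.1).1 * (F t.2.1).2 - (F t.2.1).1 * (F t.1).2) *
            gs (F t.1).1 (F t.2.1).1 t.2.2))) ∪
      (((univ : Finset (Fin 4 × Fin K)) ×ˢ Icc (-(R : ℤ)) R) ×ˢ (Icc 1 (R + 1) ×ˢ Icc 1 (R + 1))).image
        (fun t => (t.2.1, ((t.2.2 : ℤ) * (F t.1.1).1, (t.2.2 : ℤ) * (F t.1.1).2 + t.1.2))) :=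
    ⟨_, rfl⟩
  have hpw : ∀ z (i : ℕ), 1 ≤ (F z).1 ^ i := fun z i => one_le_pow₀ (hpos z)
  obtain ⟨Q, r, ⟨hQ, hr, hgood⟩, hblock⟩ := block_all (F := univ.image F) (by
      intro f hf
      obtain ⟨z, -, rfl⟩ := mem_image.1 hf
      exact hpos z) (by
      intro p hp
      obtain ⟨n, hn⟩ := hadm p hp
      refine ⟨n, fun f hf => ?_⟩
      obtain ⟨z, -, rfl⟩ := mem_image.1 hf
      exact hn z) Hs (by
      intro h hh
      rw [hHs] at hh
      rcases mem_union.1 hh with hh | hh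
      · obtain ⟨t, -, rfl⟩ := mem_image.1 hh
        have h1 := hpw t.1 t.2.2
        have h2 := hpw t.2.1 t.2.2
        have h3 := hpos t.2.1
        refine ⟨?_, ?_⟩
        · show 1 ≤ ((F t.1).1 ^ t.2.2).toNat
          omega
        · show 1 ≤ (F t.2.1).1 ^ t.2.2 * (F t.2.1).1
          nlinarith
      · obtain ⟨t, ht, rfl⟩ := mem_image.1 hh
        have h1 := mem_Icc.1 (mem_product.1 (mem_product.1 ht).2).1
        have h2 := mem_Icc.1 (mem_product.1 (mem_product.1 ht).2).2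
        have h3 := hpos t.1.1
        have h4 : (1 : ℤ) ≤ (t.2.2 : ℤ) := by exact_mod_cast h2.1
        refine ⟨h1.1, ?_⟩
        show 1 ≤ (t.2.2 : ℤ) * (F t.1.1).1
        nlinarith)
  have hQz : (0 : ℤ) < Q := by exact_mod_cast hQ
  refine ⟨Q, r, hQ, hr, ?_, ?_, ?_, ?_⟩
  · intro x y h
    simp only [HH, Prod.mk.injEq] at h
    have h1 := mul_right_cancel₀ hQz.ne' h.1
    have h2 := h.2
    rw [h1] at h2
    exact hinj (Prod.ext h1 (by linarith))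
  · intro g i
    show 1 ≤ (F (g, i)).1 * (Q : ℤ)
    have := hpos (g, i)
    nlinarith
  · intro p hp
    by_cases hpQ : p ∣ Q
    · refine ⟨0, fun g i hd => hgood p hp hpQ (F (g, i)) (mem_image_of_mem _ (mem_univ _)) ?_⟩
      simpa [HH] using hd
    · obtain ⟨n, hn⟩ := hadm p hp
      have hcop : IsCoprime (Q : ℤ) (p : ℤ) := by
        rw [Nat.isCoprime_iff_coprime]
        exact ((Nat.Prime.coprime_iff_not_dvd hp).2 hpQ).symm
      obtain ⟨u, v, huv⟩ := hcop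
      refine ⟨u * (n - r), fun g i hd => hn (g, i) ?_⟩
      simp only [HH] at hd
      have e1 : (F (g, i)).1 * n + (F (g, i)).2 =
          ((F (g, i)).1 * Q * (u * (n - r)) + ((F (g, i)).1 * r + (F (g, i)).2)) +
          p * ((F (g, i)).1 * (v * (n - r))) := by
        linear_combination (-((F (g, i)).1 * (n - (r : ℤ)))) * huv
      rw [e1]
      exact dvd_add hd (dvd_mul_right _ _)
  · intro x y hxy m hPF
    have hval : ∀ z : Fin 4 × Fin K, (HH F Q r z.1 z.2).1 * (m : ℤ) + (HH F Q r z.1 z.2).2 =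
        (F z).1 * ((Q * m + r : ℕ) : ℤ) + (F z).2 := by
      intro z
      simp only [HH]
      push_cast
      ring
    have hfwd : ∀ x y : Fin 4 × Fin K, x ≠ y → ∀ i : ℕ, 1 ≤ i → i ≤ R → ∀ p' : ℕ, p'.Prime →
        ¬ FwdAt i (F x) (F y) (Q * m + r) p' := by
      intro x y hxy i hi hiR p' hp' hf
      have hmem : (((F x).1 ^ i).toNat, ((F y).1 ^ i * (F y).1,
          (F y).1 ^ i * (F y).2 + ((F x).1 * (F y).2 - (F y).1 * (F x).2) *
            gs (F x).1 (F y).1 i)) ∈ Hs := by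
        rw [hHs]
        refine mem_union_left _ (mem_image.2 ⟨(x, (y, i)), ?_, rfl⟩)
        exact mem_product.2 ⟨mem_univ _, mem_product.2 ⟨mem_univ _, mem_Icc.2 ⟨hi, hiR⟩⟩⟩
      have hD : ((((F x).1 ^ i).toNat : ℕ) : ℤ) = (F x).1 ^ i :=
        Int.toNat_of_nonneg (by have := hpw x i; omega)
      obtain ⟨f, hf1, hf2, hf3⟩ := hblock _ hmem m p' hp' (by
        show ((((F x).1 ^ i).toNat : ℕ) : ℤ) * p' = (F y).1 ^ i * (F y).1 * ((Q * m + r : ℕ) : ℤ) +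
          ((F y).1 ^ i * (F y).2 + ((F x).1 * (F y).2 - (F y).1 * (F x).2) * gs (F x).1 (F y).1 i)
        rw [hD]
        unfold FwdAt at hf
        rw [hf]
        ring)
      obtain ⟨z, -, rfl⟩ := mem_image.1 hf1
      simp only [hD] at hf2 hf3
      exact hclean.2 x (mem_univ _) y (mem_univ _) z (mem_univ _) hxy i hi hiR ⟨hf2, hf3⟩
    have hnb : ∀ x : Fin 4 × Fin K, ∀ w u : ℕ, (1 ≤ w ∧ w ≤ R + 1) → (1 ≤ u ∧ u ≤ R + 1) → ∀ v : ℤ,
        |v| ≤ R → ∀ q' : ℕ, q'.Prime →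
        (w : ℤ) * q' = u * ((F x).1 * ((Q * m + r : ℕ) : ℤ) + (F x).2) + v →
        (q' : ℤ) = (F x).1 * ((Q * m + r : ℕ) : ℤ) + (F x).2 := by
      intro x w u hw hu v hv q' hq' heq
      have hv' := abs_le.1 hv
      have hmem : (w, ((u : ℤ) * (F x).1, (u : ℤ) * (F x).2 + v)) ∈ Hs := by
        rw [hHs]
        refine mem_union_right _ (mem_image.2 ⟨((x, v), (w, u)), ?_, rfl⟩)
        exact mem_product.2 ⟨mem_product.2 ⟨mem_univ _, mem_Icc.2 hv'⟩,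
          mem_product.2 ⟨mem_Icc.2 hw, mem_Icc.2 hu⟩⟩
      obtain ⟨f, hf1, hf2, hf3⟩ := hblock _ hmem m q' hq' (by
        show (w : ℤ) * q' = (u : ℤ) * (F x).1 * ((Q * m + r : ℕ) : ℤ) + ((u : ℤ) * (F x).2 + v)
        rw [heq]
        ring)
      obtain ⟨z, -, rfl⟩ := mem_image.1 hf1
      simp only at hf2 hf3
      by_cases hxz : x = z
      · subst hxz
        have h1 : (u : ℤ) = w := mul_right_cancel₀ (by have := hpos x; omega) hf2
        rw [h1] at hf3 heq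
        have h2 : v = 0 := by linarith
        rw [h2, add_zero] at heq
        exact mul_left_cancel₀ (show (w : ℤ) ≠ 0 by have := hw.1; omega) heq
      · exact absurd ⟨w, u, hw, hu, v, hv, hf2, hf3⟩ (hclean.1 x (mem_univ _) z (mem_univ _) hxz)
    refine ⟨?_, fun i hi hiR p' hp' => ⟨hfwd x y hxy i hi hiR p' hp', hfwd y x hxy.symm i hi hiR p' hp'⟩,
      fun w u hw hu v hv q' hq' => ⟨hnb x w u hw hu v hv q' hq', hnb y w u hw hu v hv q' hq'⟩⟩
    obtain ⟨h1, h2⟩ := hPF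
    rw [hval] at h1 h2
    exact ⟨h1, h2⟩

/-- two of any four large classes of forms: isolated pairs along narrow progressions -/
theorem hit_iso (R : ℕ) : ∃ K : ℕ, 1 ≤ K ∧ HitR K {f | 1 ≤ f.1} (fun f g => Nar (PFI R f g)) := by
  obtain ⟨K, hK, hhit⟩ := hit_inf
  obtain ⟨K', hK', hsel⟩ := select K R
  refine ⟨K', hK', fun A hF hinj hadm => ?_⟩
  obtain ⟨τ, hτ⟩ := hsel A hinj (fun g i => hF g i)
  obtain ⟨Q, r, hQ, hr, h1, h2, h3, h4⟩ := prep (fun z => A z.1 (τ z)) (fun z => hF _ _) hτ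
    (fun p hp => by
      obtain ⟨n, hn⟩ := hadm p hp
      exact ⟨n, fun z => hn _ _⟩)
  obtain ⟨g, g', i, j, hne, hN⟩ := hhit _ (fun g i => h2 g i) h1 h3
  refine ⟨g, g', τ (g, i), τ (g', j), hne, ?_⟩
  show Nar (PFI R (A g (τ (g, i))) (A g' (τ (g', j))))
  refine nar_affine (q := Q) (b := (r : ℤ)) hQ (hN.mono ?_)
  intro m hm
  have h5 := h4 (g, i) (g', j) (fun h => hne (Prod.ext_iff.1 h).1) m hm
  have h6 : ((Q : ℤ) * (m : ℤ) + (r : ℤ)).toNat = Q * m + r := by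
    have : (Q : ℤ) * (m : ℤ) + (r : ℤ) = ((Q * m + r : ℕ) : ℤ) := by push_cast; ring
    rw [this, Int.toNat_natCast]
  refine ⟨?_, ?_⟩
  · have h7 : (0 : ℤ) ≤ (Q : ℤ) * (m : ℤ) := by positivity
    have h8 : (1 : ℤ) ≤ r := by exact_mod_cast hr
    omega
  · rw [h6]
    exact h5

/-- the same at every scale, for forms from a finite set -/
theorem hit_iso_scale (R : ℕ) : ∃ K : ℕ, 1 ≤ K ∧ ∀ (F : Finset (ℤ × ℤ)), (∀ f ∈ F, 1 ≤ f.1) →
    ∀ l : ℕ, ∃ C : ℕ, ∀ᶠ N : ℕ in atTop, HitR K {f | f ∈ F} (fun f g => NarN (PFI R f g) l C N) := by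
  classical
  obtain ⟨K, hK, H⟩ := narE 4 1 (by norm_num) (by norm_num)
  obtain ⟨K', hK', hsel⟩ := select K R
  refine ⟨K', hK', fun F hF l => ?_⟩
  have key : ∀ A : Fin 4 → Fin K' → F, ∃ C : ℕ, ∀ᶠ N : ℕ in atTop,
      Function.Injective (fun x : Fin 4 × Fin K' => (A x.1 x.2 : ℤ × ℤ)) →
      (∀ p : ℕ, p.Prime → ∃ n : ℤ, ∀ g i, ¬ ((p : ℤ) ∣ (A g i : ℤ × ℤ).1 * n + (A g i : ℤ × ℤ).2)) →
      ∃ (g g' : Fin 4) (i j : Fin K'), g ≠ g' ∧ NarN (PFI R (A g i) (A g' j)) l C N := by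
    intro A
    by_cases h1 : Function.Injective (fun x : Fin 4 × Fin K' => (A x.1 x.2 : ℤ × ℤ)) ∧
      (∀ p : ℕ, p.Prime → ∃ n : ℤ, ∀ g i, ¬ ((p : ℤ) ∣ (A g i : ℤ × ℤ).1 * n + (A g i : ℤ × ℤ).2))
    · obtain ⟨hinj, hadm⟩ := h1
      obtain ⟨τ, hτ⟩ := hsel (fun g i => (A g i : ℤ × ℤ)) hinj (fun g i => hF _ (A g i).2)
      obtain ⟨Q, r, hQ, hr, k1, k2, k3, k4⟩ := prep (fun z => (A z.1 (τ z) : ℤ × ℤ))
        (fun z => hF _ (A _ _).2) hτ (fun p hp => by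
          obtain ⟨n, hn⟩ := hadm p hp
          exact ⟨n, fun z => hn _ _⟩)
      obtain ⟨C, hC⟩ := H (HH (fun z => (A z.1 (τ z) : ℤ × ℤ)) Q r) k1 (fun g i => ⟨by
        have := k2 g i
        omega, coprime_of_adm fun p hp => by
        obtain ⟨n, hn⟩ := k3 p hp
        exact ⟨n, hn g i⟩⟩) (fun p hp _ => k3 p hp) (max l 1)
      refine ⟨C + 1, ?_⟩
      filter_upwards [(tendsto_div Q hQ).eventually hC, scale Q r hQ,
        (tendsto_div Q hQ).eventually (log_ev' (4 * Q))] with N hN hsc hlog _ _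
      obtain ⟨E, hE, hQE⟩ := hN
      obtain ⟨x, hx, y, hy, hxy⟩ := two_classes hE
      refine ⟨x.1, y.1, τ x, τ y, hxy, ?_⟩
      have hnar := narN_of_QE hQE hx hy
      refine (NarN.affine (q := Q) (b := (r : ℤ)) hQ (hnar.mono ?_) (le_max_right _ _) le_rfl ?_
        hsc.2.1 hlog hsc.2.2).len (le_max_left _ _)
      · intro m hm
        have h5 := k4 x y (fun h => hxy (Prod.ext_iff.1 h).1) m hm
        have h6 : ((Q : ℤ) * (m : ℤ) + (r : ℤ)).toNat = Q * m + r := by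
          have : (Q : ℤ) * (m : ℤ) + (r : ℤ) = ((Q * m + r : ℕ) : ℤ) := by push_cast; ring
          rw [this, Int.toNat_natCast]
        refine ⟨?_, ?_⟩
        · have h7 : (0 : ℤ) ≤ (Q : ℤ) * (m : ℤ) := by positivity
          have h8 : (1 : ℤ) ≤ r := by exact_mod_cast hr
          omega
        · rw [h6]
          exact h5
      · exact_mod_cast hsc.1
    · exact ⟨0, Eventually.of_forall fun N h2 h3 => absurd ⟨h2, h3⟩ h1⟩
  choose Cf hCf using key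
  refine ⟨∑ A, Cf A, ?_⟩
  have hlog : ∀ᶠ N : ℕ in atTop, 1 ≤ Real.log N :=
    (Real.tendsto_log_atTop.comp tendsto_natCast_atTop_atTop).eventually_ge_atTop _
  filter_upwards [eventually_all.2 hCf, hlog] with N hN hl A hA hinj hadm
  obtain ⟨g, g', i, j, hne, h⟩ := hN (fun g i => ⟨A g i, hA g i⟩) hinj hadm
  exact ⟨g, g', i, j, hne, h.exp (Finset.single_le_sum (f := Cf) (fun _ _ => Nat.zero_le _)
    (mem_univ _)) hl⟩

end Pool.Agent.H42.NP
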