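import Mathlib
import Pool.Agent.H42.NP.IsoHit

/-! A quarter of all the equations `a p - b q = c`: narrow progressions of isolated prime solutions
(helper42). -/

set_option autoImplicit false

namespace Pool.Agent.H42.NP

open Finset Filter Topology
open Pool.Agent.Y827.RO (Nar)
open Pool.Agent.K7.H63.TQ (HitR quarter_abs Rg Ad tt io AdmT)

/-- `q` is a prime and `a p - b q = c` for a prime `p`; the first `R` iterates of `p` under
`x ↦ (b x + c) / a` are not prime, `q` is none of the first `R` iterates of a prime, and no prime other than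
`q`, `p` is related to `q` or to `p` by a linear equation with coefficients at most `R` -/
def IsoSol (R : ℕ) (a b : ℕ) (c : ℤ) (q : ℕ) : Prop :=
  q.Prime ∧ ∃ p : ℕ, p.Prime ∧ (a : ℤ) * p - b * q = c ∧
    (∀ i : ℕ, 0 < i → i ≤ R → ∀ r : ℕ, r.Prime →
      (a : ℤ) ^ i * r - (b : ℤ) ^ i * p ≠ c * ∑ j ∈ range i, (a : ℤ) ^ j * (b : ℤ) ^ (i - 1 - j) ∧
      (a : ℤ) ^ i * q - (b : ℤ) ^ i * r ≠ c * ∑ j ∈ range i, (a : ℤ) ^ j * (b : ℤ) ^ (i - 1 - j)) ∧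
    ∀ w u : ℕ, (1 ≤ w ∧ w ≤ R) → (1 ≤ u ∧ u ≤ R) → ∀ v : ℤ, |v| ≤ R → ∀ r : ℕ, r.Prime →
      ((w : ℤ) * r = u * q + v ∨ (w : ℤ) * r = u * p + v) → r = q ∨ r = p

/-- from the forms `G a n + b₁`, `G b n + b₂` to the equation -/
theorem isoSol_of_PFI {R G a b : ℕ} {b₁ b₂ c : ℤ} (hG0 : 1 ≤ G) (he : (a : ℤ) * b₂ = b * b₁ + c) {n : ℕ}
    (h : PFI R (((G * a : ℕ) : ℤ), b₁) (((G * b : ℕ) : ℤ), b₂) n) :
    1 ≤ ((G * a : ℕ) : ℤ) * n + b₁ ∧ IsoSol R a b c (((G * a : ℕ) : ℤ) * n + b₁).toNat := by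
  obtain ⟨⟨h1, h2⟩, hfw, hnb⟩ := h
  have e1 := toNat_eq h1
  have e2 := toNat_eq h2
  simp only at h1 h2 e1 e2 hnb
  have h3 := h1.one_lt
  have hGz : (G : ℤ) ≠ 0 := by exact_mod_cast (by omega : G ≠ 0)
  refine ⟨by omega, h1, _, h2, ?_, ?_, ?_⟩
  · rw [e1, e2]
    push_cast
    linear_combination he
  · intro i hi hiR r hr
    have hi1 : 1 ≤ i := hi
    obtain ⟨f1, f2⟩ := hfw i hi1 hiR r hr
    have hGi : (G : ℤ) ^ i = G * G ^ (i - 1) := by
      rw [← pow_succ']; congr 1; omega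
    refine ⟨fun hc => f1 ?_, fun hc => f2 ?_⟩
    · unfold FwdAt
      simp only
      rw [e2] at hc
      have hc' : (a : ℤ) ^ i * r - (b : ℤ) ^ i * (((G * b : ℕ) : ℤ) * n + b₂) = c * gs a b i := hc
      have e3 := gs_mul (G : ℤ) a b hi1
      push_cast at hc' ⊢
      rw [e3, mul_pow, mul_pow]
      have e4 : (G : ℤ) * a * b₂ - G * b * b₁ = G * c := by linear_combination (G : ℤ) * he
      rw [e4]
      linear_combination (G : ℤ) ^ i * hc' + (c * gs a b i) * hGi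
    · unfold FwdAt
      simp only
      rw [e1] at hc
      have hc' : (a : ℤ) ^ i * (((G * a : ℕ) : ℤ) * n + b₁) - (b : ℤ) ^ i * r = c * gs a b i := hc
      have e3 := gs_mul (G : ℤ) b a hi1
      push_cast at hc' ⊢
      rw [e3, mul_pow, mul_pow, gs_comm b a]
      have e4 : (G : ℤ) * b * b₁ - G * a * b₂ = -(G * c) := by linear_combination (-(G : ℤ)) * he
      rw [e4]
      linear_combination (-(G : ℤ) ^ i) * hc' - (c * gs a b i) * hGi
  · intro w u hw hu v hv r hr hor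
    obtain ⟨g1, g2⟩ := hnb w u ⟨hw.1, by omega⟩ ⟨hu.1, by omega⟩ v hv r hr
    rcases hor with hd | hd
    · rw [e1] at hd
      left
      have h4 := g1 hd
      rw [← e1] at h4
      exact_mod_cast h4
    · rw [e2] at hd
      right
      have h4 := g2 hd
      rw [← e2] at h4
      exact_mod_cast h4

open Classical in
/-- **a quarter of all triples: progressions of every length of isolated solutions** -/
theorem quarter_iso (R : ℕ) : ∃ X0 C : ℕ, 2 ≤ X0 ∧ ∀ X : ℕ, X0 ≤ X → ∀ Y : ℕ, X ^ C ≤ Y →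
    1 / 4 * ∑ T ∈ (Rg X 1 Y).filter Ad, tt T ≤
      ∑ T ∈ (Rg X 1 Y).filter (fun T => Ad T ∧ Nar (IsoSol R T.1 T.2.1 (T.2.2 : ℤ))), tt T := by
  obtain ⟨K, hK, hhit⟩ := hit_iso R
  obtain ⟨X0, C, hX0, H⟩ := quarter_abs K hK
  refine ⟨X0, C, hX0, fun X hX Y hY => ?_⟩
  refine H X hX Y hY {f | 1 ≤ f.1} (fun f g => Nar (PFI R f g))
    (fun x y h => h.mono fun _ hn => PFI_symm hn) hhit ?_ _ ?_
  · intro f h1 _ _
    show (1 : ℤ) ≤ (f.1 : ℤ)
    exact_mod_cast h1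
  · intro G α β γ b b' hG hadm hGα hGβ _ _ hsol hR
    have he : (α : ℤ) * (b' : ℤ) = β * (b : ℤ) + (γ : ℤ) := by exact_mod_cast hsol
    exact nar_affine (Nat.mul_pos hG hadm.1) (hR.mono fun _ hn => isoSol_of_PFI hG he hn)

open Classical in
/-- **a quarter of all triples, at every scale** -/
theorem quarter_iso_scale (R : ℕ) : ∃ X0 C : ℕ, 2 ≤ X0 ∧ ∀ X : ℕ, X0 ≤ X → ∀ Y : ℕ, X ^ C ≤ Y →
    ∀ l : ℕ, ∃ B : ℕ, ∀ᶠ x : ℕ in atTop, 1 / 4 * ∑ T ∈ (Rg X 1 Y).filter Ad, tt T ≤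
      ∑ T ∈ (Rg X 1 Y).filter (fun T => Ad T ∧ NarN (IsoSol R T.1 T.2.1 (T.2.2 : ℤ)) l B x), tt T := by
  obtain ⟨K, hK, hhit⟩ := hit_iso_scale R
  obtain ⟨X0, C, hX0, H⟩ := quarter_abs K hK
  refine ⟨X0, C, hX0, fun X hX Y hY l => ?_⟩
  obtain ⟨F, hF⟩ : ∃ F : Finset (ℤ × ℤ), F = ((Icc 1 X) ×ˢ (range (Y + 1))).image io := ⟨_, rfl⟩
  obtain ⟨B, hB⟩ := hhit F (by
    intro f hf
    rw [hF] at hf
    obtain ⟨g, hg, rfl⟩ := mem_image.1 hf
    have := (mem_Icc.1 (mem_product.1 hg).1).1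
    show (1 : ℤ) ≤ (g.1 : ℤ)
    exact_mod_cast this) (max l 1)
  refine ⟨B + 1, ?_⟩
  have hX1 : 1 ≤ X := by omega
  filter_upwards [(tendsto_div X hX1).eventually hB, scale X Y hX1,
    (tendsto_div X hX1).eventually (log_ev' (4 * X))] with x hx hsc hlog
  refine H X hX Y hY {f | f ∈ F} _ (fun x y h => h.mono fun _ hn => PFI_symm hn) hx ?_ _ ?_
  · intro f h1 h2 h3
    show io f ∈ F
    rw [hF]
    exact mem_image_of_mem _ (mem_product.2 ⟨mem_Icc.2 ⟨h1, h2⟩, mem_range.2 (by omega)⟩)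
  · intro G α β γ b b' hG hadm hGα hGβ hb hb' hsol hR
    have he : (α : ℤ) * (b' : ℤ) = β * (b : ℤ) + (γ : ℤ) := by exact_mod_cast hsol
    refine (NarN.affine (Nat.mul_pos hG hadm.1) (hR.mono fun _ hn => isoSol_of_PFI hG he hn)
      (le_max_right _ _) (Q := X) hGα ?_ hsc.2.1 ?_ hsc.2.2).len (le_max_left _ _)
    · have h1 : G * α * (x / (2 * X)) ≤ X * (x / (2 * X)) := Nat.mul_le_mul_right _ hGα
      have h2 := hsc.1
      have h3 : G * α * (x / (2 * X)) + b ≤ x := by omega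
      exact_mod_cast h3
    · exact_mod_cast hlog

end Pool.Agent.H42.NP
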