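import Mathlib
import Pool.Agent.H42.NP.NatMain
import Pool.Agent.H42.NP.QIso

/-! Triples counted with multiplicity one, in short boxes: progressions of isolated solutions
(helper42). -/

set_option autoImplicit false

namespace Pool.Agent.H42.NP

open Finset Filter Topology
open Pool.Agent.Y827.RO (Nar)
open Pool.Agent.K7.H63.TQ (HitR io AdmT)

/-- the box of the triples `X < a, b ≤ X + H`, `1 ≤ c ≤ Y` -/
def Bx (X H Y : ℕ) : Finset (ℕ × ℕ × ℕ) := Ioc X (X + H) ×ˢ Ioc X (X + H) ×ˢ Icc 1 Y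

open Classical in
/-- **many triples of every short box: progressions of every length of isolated solutions** -/
theorem nat_iso (R : ℕ) : ∃ C : ℕ, 1 ≤ C ∧ ∀ X H Y : ℕ, C ≤ H → (C : ℝ) * Real.log X ≤ H →
    H ≤ X → C * X ^ 2 ≤ Y → (H : ℝ) ^ 2 * Y / 1000 ≤ (((Bx X H Y).filter
      (fun T => AdmT T.1 T.2.1 T.2.2 ∧ Nar (IsoSol R T.1 T.2.1 (T.2.2 : ℤ)))).card : ℝ) := by
  obtain ⟨K, hK, hhit⟩ := hit_iso R
  obtain ⟨C, hC, Hn⟩ := nat_abs K hK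
  refine ⟨C, hC, fun X H Y h1 h2 h3 h4 => ?_⟩
  refine Hn X H Y h1 h2 h3 h4 {f | 1 ≤ f.1} (fun f g => Nar (PFI R f g))
    (fun x y h => h.mono fun _ hn => PFI_symm hn) hhit ?_ (fun T => Nar (IsoSol R T.1 T.2.1 (T.2.2 : ℤ))) ?_
  · intro f h1 _ _
    show (1 : ℤ) ≤ (f.1 : ℤ)
    exact_mod_cast h1
  · intro α β γ b b' hadm hα hβ _ _ hsol hR
    have he : (α : ℤ) * (b' : ℤ) = β * (b : ℤ) + (γ : ℤ) := by exact_mod_cast hsol
    have hR' : Nar (PFI R (((1 * α : ℕ) : ℤ), (b : ℤ)) (((1 * β : ℕ) : ℤ), (b' : ℤ))) := by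
      rw [one_mul, one_mul]; exact hR
    exact nar_affine (Nat.mul_pos one_pos hadm.1) (hR'.mono fun _ hn => isoSol_of_PFI le_rfl he hn)

open Classical in
/-- **many triples of every short box, at every scale** -/
theorem nat_iso_scale (R : ℕ) : ∃ C : ℕ, 1 ≤ C ∧ ∀ X H Y : ℕ, C ≤ H → (C : ℝ) * Real.log X ≤ H →
    H ≤ X → C * X ^ 2 ≤ Y → ∀ l : ℕ, ∃ B : ℕ, ∀ᶠ x : ℕ in atTop,
    (H : ℝ) ^ 2 * Y / 1000 ≤ (((Bx X H Y).filter
      (fun T => AdmT T.1 T.2.1 T.2.2 ∧ NarN (IsoSol R T.1 T.2.1 (T.2.2 : ℤ)) l B x)).card : ℝ) := by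
  obtain ⟨K, hK, hhit⟩ := hit_iso_scale R
  obtain ⟨C, hC, Hn⟩ := nat_abs K hK
  refine ⟨C, hC, fun X H Y h1 h2 h3 h4 l => ?_⟩
  obtain ⟨F, hF⟩ : ∃ F : Finset (ℤ × ℤ), F = ((Icc 1 (X + H)) ×ˢ (range (Y + 1))).image io := ⟨_, rfl⟩
  obtain ⟨B, hB⟩ := hhit F (by
    intro f hf
    rw [hF] at hf
    obtain ⟨g, hg, rfl⟩ := mem_image.1 hf
    have := (mem_Icc.1 (mem_product.1 hg).1).1
    show (1 : ℤ) ≤ (g.1 : ℤ)
    exact_mod_cast this) (max l 1)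
  refine ⟨B + 1, ?_⟩
  have hX1 : 1 ≤ X + H := by omega
  filter_upwards [(tendsto_div (X + H) hX1).eventually hB, scale (X + H) Y hX1,
    (tendsto_div (X + H) hX1).eventually (log_ev' (4 * (X + H)))] with x hx hsc hlog
  refine Hn X H Y h1 h2 h3 h4 {f | f ∈ F} _ (fun x y h => h.mono fun _ hn => PFI_symm hn) hx ?_
    (fun T => NarN (IsoSol R T.1 T.2.1 (T.2.2 : ℤ)) l (B + 1) x) ?_
  · intro f h1 h2 h3
    show io f ∈ F
    rw [hF]
    exact mem_image_of_mem _ (mem_product.2 ⟨mem_Icc.2 ⟨h1, h2⟩, mem_range.2 (by omega)⟩)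
  · intro α β γ b b' hadm hα hβ hb hb' hsol hR
    have he : (α : ℤ) * (b' : ℤ) = β * (b : ℤ) + (γ : ℤ) := by exact_mod_cast hsol
    have hR' := hR.mono (Y := fun n => PFI R (((1 * α : ℕ) : ℤ), (b : ℤ)) (((1 * β : ℕ) : ℤ), (b' : ℤ)) n)
      (fun n hn => by
        show PFI R (((1 * α : ℕ) : ℤ), (b : ℤ)) (((1 * β : ℕ) : ℤ), (b' : ℤ)) n
        rw [one_mul, one_mul]; exact hn)
    refine (NarN.affine (Nat.mul_pos one_pos hadm.1) (hR'.mono fun _ hn => isoSol_of_PFI le_rfl he hn)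
      (le_max_right _ _) (Q := X + H) (by rw [one_mul]; exact hα) ?_ hsc.2.1 ?_ hsc.2.2).len (le_max_left _ _)
    · have h1 : 1 * α * (x / (2 * (X + H))) ≤ (X + H) * (x / (2 * (X + H))) :=
        Nat.mul_le_mul_right _ (by rw [one_mul]; exact hα)
      have h2 := hsc.1
      have h3 : 1 * α * (x / (2 * (X + H))) + b ≤ x := by omega
      exact_mod_cast h3
    · exact_mod_cast hlog

end Pool.Agent.H42.NP
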