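import Mathlib
import Pool.Agent.H42.NP.NatFour
import Pool.Agent.H42.NP.NatIso

/-! Two of any four integers: progressions of every length of isolated solutions, for a positive proportion
of the constants (helper42). -/

set_option autoImplicit false

namespace Pool.Agent.H42.NP

open Finset Filter Topology
open Pool.Agent.Y827.RO (Nar)
open Pool.Agent.K7.H63.TQ (HitR io AdmT)

open Classical in
theorem four_iso (R : ℕ) (a : Fin 4 → ℕ) (ha : ∀ i, 1 ≤ a i) (hinj : Function.Injective a) :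
    ∃ i j, i ≠ j ∧ ∃ᶠ Y : ℕ in atTop,
      (Nat.totient (a i) : ℝ) * Nat.totient (a j) / ((a i : ℝ) * a j) * Y / 200 ≤
        (((Icc 1 Y).filter (fun c => AdmT (a i / Nat.gcd (a i) (a j)) (a j / Nat.gcd (a i) (a j)) c ∧
          Nar (IsoSol R (a i / Nat.gcd (a i) (a j)) (a j / Nat.gcd (a i) (a j)) (c : ℤ)))).card : ℝ) := by
  obtain ⟨K, hK, hhit⟩ := hit_iso R
  obtain ⟨M0, hM0, H⟩ := four_abs K hK
  have h1 := H a ha hinj {f | 1 ≤ f.1} (fun f g => Nar (PFI R f g))
    (fun x y h => h.mono fun _ hn => PFI_symm hn) hhit (fun f hf => by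
      show (1 : ℤ) ≤ (f.1 : ℤ)
      exact_mod_cast hf) (fun α β c => Nar (IsoSol R α β (c : ℤ))) (fun G α β γ b b' hG hadm hsol hR => by
      have he : (α : ℤ) * (b' : ℤ) = β * (b : ℤ) + (γ : ℤ) := by exact_mod_cast hsol
      exact nar_affine (Nat.mul_pos hG hadm.1) (hR.mono fun _ hn => isoSol_of_PFI hG he hn))
  by_contra hcon
  push Not at hcon
  have h2 : ∀ᶠ Y : ℕ in atTop, ∀ i j : Fin 4, i ≠ j →
      ¬ ((Nat.totient (a i) : ℝ) * Nat.totient (a j) / ((a i : ℝ) * a j) * Y / 200 ≤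
        (((Icc 1 Y).filter (fun c => AdmT (a i / Nat.gcd (a i) (a j)) (a j / Nat.gcd (a i) (a j)) c ∧
          Nar (IsoSol R (a i / Nat.gcd (a i) (a j)) (a j / Nat.gcd (a i) (a j)) (c : ℤ)))).card : ℝ)) := by
    rw [Filter.eventually_all]
    intro i
    rw [Filter.eventually_all]
    intro j
    by_cases hij : i = j
    · exact Filter.Eventually.of_forall fun Y h => absurd hij h
    · exact (hcon i j hij).mono fun Y hY _ => not_le.2 hY
  obtain ⟨T, hT⟩ := Filter.eventually_atTop.1 h2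
  obtain ⟨i, j, hij, Y, hY, h3⟩ := h1 (max M0 T) (le_max_left _ _)
  exact hT Y ((le_max_right _ _).trans hY) i j hij h3

end Pool.Agent.H42.NP
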