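import Mathlib
import Pool.Agent.H42.NP.Base
import Pool.Graph.R_pool_sql_team_seeded_843ab51a.V11150.RatH

/-! Isolated prime solutions of the iterated equations along narrow progressions (helper42). -/

set_option autoImplicit false

namespace Pool.Agent.H42.NP

open Finset Filter Topology
open Pool.Agent.Y827.RO (Nar QE cntE bigE narE coprime_of_adm)
open Pool.Agent.V11150.RatL Pool.Agent.V11150.RatD Pool.Agent.V11150.RatG
open Pool.Agent.V11150.RatH
open Pool.Agent.H947R3.GM Pool.Agent.W59.GB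

/-- the conclusion of the coloured theorem, with exact sets along narrow progressions -/
def ColE (T K : ℕ) : Prop :=
  ∀ H : Fin T → Fin K → ℤ × ℤ, Function.Injective (fun x : Fin T × Fin K => H x.1 x.2) →
    (∀ g i, 0 < (H g i).1) →
    (∀ p : ℕ, p.Prime → ∃ n : ℤ, ∀ g i, ¬ (p : ℤ) ∣ (H g i).1 * n + (H g i).2) →
    ∃ E : Finset (Fin T × Fin K), 1 + 1 ≤ (E.image Prod.fst).card ∧
      Nar (fun m => ∀ g i, (((H g i).1 * (m : ℤ) + (H g i).2).toNat.Prime ↔ (g, i) ∈ E))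

theorem colE : ∃ K : ℕ, 1 ≤ K ∧ ColE 4 K := by
  obtain ⟨K, hK, H⟩ := bigE 4 1 (by norm_num) (by norm_num)
  refine ⟨K, hK, fun A hinj hpos hadm => ?_⟩
  obtain ⟨E, hE, hE2⟩ := H A hinj (fun g i => ⟨hpos g i, coprime_of_adm fun p hp => by
      obtain ⟨n, hn⟩ := hadm p hp
      exact ⟨n, hn g i⟩⟩) (fun p hp _ => hadm p hp)
  refine ⟨E, hE, ?_⟩
  rw [nar_iff]
  intro l
  obtain ⟨C, hC⟩ := hE2 l
  refine ⟨C, hC.mono ?_⟩
  rintro N ⟨d, h1, h2, h3⟩
  refine ⟨d, h1, h2, h3.trans ?_⟩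
  unfold cntE
  rw [← Set.ncard_coe_finset, Nat.cast_le]
  refine Set.ncard_le_ncard ?_ ((Set.finite_Iic N).subset fun _ h => h.2.1)
  intro n hn
  rw [mem_coe, mem_filter, mem_Icc] at hn
  exact ⟨hn.1.1, hn.1.2, hn.2⟩

theorem classes_nar (a b c : ℤ) (ha : 1 ≤ a) (hb : 1 ≤ b) (hc : c ≠ 0) (hab : IsCoprime a b)
    (hac : IsCoprime a c) (hbc : IsCoprime b c) (hpar : ¬ (Odd a ∧ Odd b ∧ Odd c)) {T K : ℕ}
    (hQ : ColE T K) (N : ℕ)
    (hN : ∀ p : ℕ, p.Prime → p ∣ N → (p : ℤ) ∣ a - b → (p : ℤ) ∣ c) (R : ℕ)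
    (H : Fin T × Fin K → ℕ) (hadm : ∀ p : ℕ, p.Prime → ¬ p ∣ N → ∃ n : ℤ, ∀ x, ¬ ((p : ℤ) ∣ n + H x))
    (hsp : ∀ x y : Fin T × Fin K, x ≠ y → H x + R < H y ∨ H y + R < H x) :
    ∃ x y : Fin T × Fin K, x.1 ≠ y.1 ∧ H x < H y ∧ Nar (fun q => q ∈ Gap R a b c (H y - H x)) := by
  classical
  have hinj : Function.Injective H := by
    intro x y h
    by_contra hne
    rcases hsp x y hne with h1 | h1 <;> omega
  obtain ⟨J, hJ⟩ : ∃ J : ℕ, ∀ x : Fin T × Fin K, H x + 2 * R + 2 < J :=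
    ⟨(univ.sup fun x : Fin T × Fin K => H x) + 2 * R + 3, fun x => by
      have := le_sup (f := fun x : Fin T × Fin K => H x) (mem_univ x)
      omega⟩
  obtain ⟨β, hβ⟩ := exists_beta a b c (by omega) hab J
  obtain ⟨e, he⟩ : ∃ e : Fin T × Fin K → ℕ, ∀ x, e x = H x + (R + 1) := ⟨_, fun _ => rfl⟩
  have heJ : ∀ x, 1 ≤ e x ∧ e x < J := fun x => by have := hJ x; rw [he]; omega
  have heR : ∀ x, e x + R ≤ J ∧ R < e x := fun x => by have := hJ x; rw [he]; omega
  have hadm' : ∀ p : ℕ, p.Prime → ∃ n : ℤ, ∀ x, ¬ (p : ℤ) ∣ a ^ (J - e x) * b ^ e x * n + β (e x) := by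
    intro p hp
    refine rat_admissible hab hac hbc hpar hβ e heJ hp ?_
    intro _ hp1 hpc
    obtain ⟨n, hn⟩ := hadm p hp (fun hpN => hpc (hN p hp hpN hp1))
    have hp0 : (0 : ℤ) < p := by exact_mod_cast hp.pos
    refine rat_miss hβ e (fun x => (heJ x).2.le) hp
      (bad_not_dvd hab hp hp1).1 hp1 hpc (((-n) % p).toNat + (R + 1)) ?_
    intro x h
    rw [he] at h
    have h := Nat.ModEq.add_right_cancel' (R + 1) h
    apply hn x
    have h3 : ((H x : ℕ) : ℤ) ≡ (((-n) % p).toNat : ℤ) [ZMOD p] := by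
      exact_mod_cast (Int.natCast_modEq_iff).2 h
    rw [Int.toNat_of_nonneg (Int.emod_nonneg _ hp0.ne')] at h3
    have h4 : ((H x : ℕ) : ℤ) ≡ -n [ZMOD p] := h3.trans (Int.mod_modEq _ _)
    have h5 := (Int.modEq_iff_dvd.1 h4.symm)
    have h6 : ((H x : ℕ) : ℤ) - -n = n + H x := by ring
    rwa [h6] at h5
  obtain ⟨Q, r, hQ0, hblock, hQp⟩ := block ha hb hc hβ (univ.image e)
  have hQz : (0 : ℤ) < Q := by exact_mod_cast hQ0
  have hval : ∀ x (m : ℤ), a ^ (J - e x) * b ^ e x * Q * m + LL a b β J (e x) (r : ℤ) =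
      LL a b β J (e x) (Q * m + r) := by
    intro x m
    unfold LL
    ring
  obtain ⟨P, hP1, hP⟩ := hQ (fun g i => (a ^ (J - e (g, i)) * b ^ e (g, i) * Q,
      LL a b β J (e (g, i)) (r : ℤ)))
    (by
      rintro x y h
      simp only [Prod.mk.injEq] at h
      obtain ⟨h1, h2⟩ := h
      have h3 := mul_right_cancel₀ hQz.ne' h1
      unfold LL at h2
      have h4 : β (e (x.1, x.2)) = β (e (y.1, y.2)) := by
        rw [h3] at h2
        linarith
      have h5 := forms_inj ha hb hc hab hβ (heJ _).2.le (heJ _).2.le h3 h4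
      rw [he, he] at h5
      exact hinj (show H x = H y by
        have : H (x.1, x.2) = H (y.1, y.2) := by omega
        exact this))
    (fun g i => by positivity)
    (by
      intro p hp
      by_cases hpQ : p ∣ Q
      · refine ⟨0, fun g i hd => hQp p hp hpQ (e (g, i)) (mem_image_of_mem _ (mem_univ _))
          (heJ _).2.le ?_⟩
        rwa [mul_zero, zero_add] at hd
      · obtain ⟨n, hn⟩ := hadm' p hp
        have hcop : IsCoprime (Q : ℤ) (p : ℤ) := by
          rw [Nat.isCoprime_iff_coprime]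
          exact ((Nat.Prime.coprime_iff_not_dvd hp).2 hpQ).symm
        obtain ⟨u, v, huv⟩ := hcop
        refine ⟨u * (n - r), fun g i hd => hn (g, i) ?_⟩
        rw [hval] at hd
        unfold LL at hd
        have e1 : a ^ (J - e (g, i)) * b ^ e (g, i) * n + β (e (g, i)) =
            (a ^ (J - e (g, i)) * b ^ e (g, i) * (Q * (u * (n - r)) + r) + β (e (g, i))) +
            p * (a ^ (J - e (g, i)) * b ^ e (g, i) * (v * (n - r))) := by
          linear_combination (-(a ^ (J - e (g, i)) * b ^ e (g, i) * (n - (r : ℤ)))) * huv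
        rw [e1]
        exact dvd_add hd (dvd_mul_right _ _))
  -- the patterns
  set V : Fin T × Fin K → ℕ → ℤ := fun x m => LL a b β J (e x) ((Q * m + r : ℕ) : ℤ) with hV
  obtain ⟨x₀, hx₀, y₀, hy₀, hne₀⟩ := two_classes hP1
  obtain ⟨x, hx, y, hy, hxy, hlt, hbet⟩ := exists_consec P H hinj hx₀ hy₀ hne₀
  refine ⟨x, y, hxy, hlt, ?_⟩
  have hlt' : e x < e y := by rw [he, he]; omega
  have hD : (0 : ℤ) < a ^ (J - e x) * b ^ e x := by positivity
  have hdiff : H y - H x = e y - e x := by rw [he, he]; omega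
  rw [hdiff]
  -- the relation between two terms
  have hrel : ∀ (n : ℤ) (i k : ℕ), i ≤ k → k ≤ J →
      a ^ (k - i) * LL a b β J k n = b ^ (k - i) * LL a b β J i n + cj a b c (k - i) := by
    intro n i k h1 h2
    have h3 := LL_iter hβ n i (k - i) (by omega)
    rwa [show i + (k - i) = k by omega] at h3
  have hDQ : (0 : ℤ) < a ^ (J - e x) * b ^ e x * Q := by positivity
  have hnat : (((a ^ (J - e x) * b ^ e x * Q).toNat : ℕ) : ℤ) = a ^ (J - e x) * b ^ e x * Q :=
    Int.toNat_of_nonneg hDQ.le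
  refine nar_affine (q := (a ^ (J - e x) * b ^ e x * Q).toNat) (b := LL a b β J (e x) (r : ℤ))
    (by omega) (hP.mono ?_)
  intro m hm0
  have hm : ∀ x, x ∈ P ↔ (V x m).toNat.Prime := by
    rintro ⟨g, i⟩
    rw [← hm0 g i]
    simp only [hV]
    rw [hval]
    push_cast
    exact Iff.rfl
  have hVx : (((a ^ (J - e x) * b ^ e x * Q).toNat : ℕ) : ℤ) * (m : ℤ) + LL a b β J (e x) (r : ℤ) =
      V x m := by
    rw [hnat, hval]
    simp only [hV]
    push_cast
    rfl
  rw [hVx]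
  have hpos1 : 1 ≤ V x m := by
    have hpx : (V x m).toNat.Prime := (hm x).1 hx
    have := hpx.one_lt
    omega
  refine ⟨hpos1, ?_⟩
  have hpx : (V x m).toNat.Prime := (hm x).1 hx
  have hpy : (V y m).toNat.Prime := (hm y).1 hy
  have ex := toNat_eq hpx
  have ey := toNat_eq hpy
  have ex' : (((V x m).toNat : ℕ) : ℤ) = LL a b β J (e x) ((Q * m + r : ℕ) : ℤ) := ex
  have ey' : (((V y m).toNat : ℕ) : ℤ) = LL a b β J (e y) ((Q * m + r : ℕ) : ℤ) := ey
  -- at all other times the terms are not prime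
  have hoff : ∀ t ≤ J, (∀ z ∈ P, e z ≠ t) →
      ¬ (LL a b β J t ((Q * m + r : ℕ) : ℤ)).toNat.Prime := by
    intro t ht hz hpr
    by_cases htp : t ∈ univ.image e
    · obtain ⟨z, -, hzt⟩ := mem_image.1 htp
      apply hz z ?_ hzt
      rw [hm z]
      simp only [hV]
      rw [hzt]
      exact hpr
    · exact hblock t ht htp m hpr
  have hnum : ∀ (t : ℕ) (p' : ℕ), p'.Prime → (p' : ℤ) = LL a b β J t ((Q * m + r : ℕ) : ℤ) →
      (LL a b β J t ((Q * m + r : ℕ) : ℤ)).toNat.Prime := by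
    intro t p' hp' h
    rw [← h]
    simpa using hp'
  refine ⟨hpx, (V y m).toNat, hpy, ?_, ?_, ?_⟩
  · rw [ex', ey']
    have h3 := hrel ((Q * m + r : ℕ) : ℤ) (e x) (e y) hlt'.le (heJ y).2.le
    linear_combination h3
  · intro l hl0 hl p' hp' h
    rw [ex'] at h
    have h3 := hrel ((Q * m + r : ℕ) : ℤ) (e x) (e x + l) (by omega) (by have := (heJ y).2; omega)
    rw [show e x + l - e x = l by omega] at h3
    have h4 : a ^ l * (p' : ℤ) = a ^ l * LL a b β J (e x + l) ((Q * m + r : ℕ) : ℤ) := by linarith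
    have h5 := mul_left_cancel₀ (pow_ne_zero l (show a ≠ 0 by omega)) h4
    refine hoff (e x + l) (by have := (heJ y).2; omega) ?_ (hnum _ p' hp' h5)
    intro z hz hzt
    apply hbet z hz
    have h6 := he z
    have h7 := he x
    have h8 := he y
    constructor <;> omega
  · intro l hl0 hlR
    refine ⟨?_, ?_⟩
    · intro p' hp' h
      rw [ey'] at h
      have h3 := hrel ((Q * m + r : ℕ) : ℤ) (e y) (e y + l) (by omega)
        (by have := (heR y).1; omega)
      rw [show e y + l - e y = l by omega] at h3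
      have h4 : a ^ l * (p' : ℤ) = a ^ l * LL a b β J (e y + l) ((Q * m + r : ℕ) : ℤ) := by
        linarith
      have h5 := mul_left_cancel₀ (pow_ne_zero l (show a ≠ 0 by omega)) h4
      refine hoff (e y + l) (by have := (heR y).1; omega) ?_ (hnum _ p' hp' h5)
      intro z hz hzt
      have h6 := he z
      have h8 := he y
      have hne' : z ≠ y := by
        rintro rfl
        omega
      rcases hsp z y hne' with h9 | h9 <;> omega
    · intro q' hq' h
      rw [ex'] at h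
      have h3 := hrel ((Q * m + r : ℕ) : ℤ) (e x - l) (e x) (by omega) (heJ x).2.le
      have h10 := (heR x).2
      rw [show e x - (e x - l) = l by omega] at h3
      have h4 : b ^ l * (q' : ℤ) = b ^ l * LL a b β J (e x - l) ((Q * m + r : ℕ) : ℤ) := by
        linarith
      have h5 := mul_left_cancel₀ (pow_ne_zero l (show b ≠ 0 by omega)) h4
      refine hoff (e x - l) (by have := (heJ x).2; omega) ?_ (hnum _ q' hq' h5)
      intro z hz hzt
      have h6 := he z
      have h8 := he x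
      have hne' : z ≠ x := by
        rintro rfl
        omega
      rcases hsp z x hne' with h9 | h9 <;> omega

/-- **a third of all times are gaps between isolated primes, in every long window** -/
theorem thirdNar : ∀ R : ℕ, ∀ a b c : ℤ, 1 ≤ a → 1 ≤ b → c ≠ 0 → IsCoprime a b →
    IsCoprime a c → IsCoprime b c → ¬ (Odd a ∧ Odd b ∧ Odd c) → ∀ ε : ℝ, 0 < ε →
    ∃ L : ℕ, ∀ T : ℕ, L ≤ T → ∀ u : ℕ,
      (1 / 3 - ε) * (T : ℝ) ≤
        ({j : ℕ | u < j ∧ j ≤ u + T ∧ Nar (fun q => q ∈ Gap R a b c j)}.ncard : ℝ) := by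
  classical
  obtain ⟨K, hK, hQ⟩ := colE
  intro R a b c ha hb hc hab hac hbc hpar ε hε
  obtain ⟨K', hK'⟩ : ∃ K', K' = (2 * R + 1) * Fintype.card (Fin 4 × Fin K) := ⟨_, rfl⟩
  have hcardpos : 0 < Fintype.card (Fin 4 × Fin K) := by
    rw [Fintype.card_prod, Fintype.card_fin, Fintype.card_fin]
    omega
  obtain ⟨L, hL⟩ := Pool.Agent.W432.UB.main 2 {j | Nar (fun q => q ∈ Gap R a b c j)} dvd_rfl
    ⟨K', by rw [hK']; exact Nat.mul_pos (by omega) hcardpos, by
    intro H hH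
    obtain ⟨hinj, hadm⟩ := hH
    obtain ⟨h, h1, h2⟩ := spaced R (fun z : Fin 4 × Fin K => univ.image (H z.1)) (fun z => by
      rw [card_image_of_injective, card_univ, Fintype.card_fin, hK']
      intro i j hij
      exact (Prod.ext_iff.1 (hinj (a₁ := (z.1, i)) (a₂ := (z.1, j)) hij)).2)
    have h1' : ∀ z, ∃ i, H z.1 i = h z := fun z => by
      obtain ⟨i, -, hi⟩ := mem_image.1 (h1 z)
      exact ⟨i, hi⟩
    choose τ hτ using h1'
    obtain ⟨x, y, hxy, hlt, hg⟩ := classes_nar a b c ha hb hc hab hac hbc hpar hQ 2 (by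
      intro p hp hp2 hp1
      have hp2' : p = 2 := (Nat.prime_dvd_prime_iff_eq hp Nat.prime_two).1 hp2
      subst hp2'
      by_contra h4
      obtain ⟨h5, h6⟩ := bad_not_dvd hab Nat.prime_two hp1
      apply hpar
      rw [← Int.not_even_iff_odd, ← Int.not_even_iff_odd, ← Int.not_even_iff_odd]
      exact ⟨fun h => h5 (by exact_mod_cast h.two_dvd), fun h => h6 (by exact_mod_cast h.two_dvd),
        fun h => h4 (by exact_mod_cast h.two_dvd)⟩) R h (by
      intro p hp hp2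
      obtain ⟨n, hn⟩ := hadm p hp hp2
      exact ⟨n, fun z => by rw [← hτ z]; exact hn z.1 (τ z)⟩) h2
    refine ⟨x.1, y.1, τ x, τ y, hxy, ?_, ?_⟩
    · rw [hτ, hτ]; exact hlt
    · rw [hτ, hτ]; exact hg⟩ ε hε
  refine ⟨L, fun T hT u => (hL T hT u).trans ?_⟩
  rw [win_eq, ← Set.ncard_coe_finset, Nat.cast_le]
  refine Set.ncard_le_ncard ?_ ((Set.finite_Ioc u (u + T)).subset fun k hk => ⟨hk.1, hk.2.1⟩)
  intro j hj
  obtain ⟨h1, h2⟩ := mem_filter.1 (mem_coe.1 hj)
  rw [mem_Ioc] at h1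
  exact ⟨h1.1, h1.2, h2⟩

end Pool.Agent.H42.NP
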