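import Pool.Graph.R_seed8.W76.PlaneB
import Pool.Agent.H42.NP.FourIso

set_option autoImplicit false

/-! The equations `a p - b q = t c` with `c` fixed: a positive proportion of the pairs `(a, b)` has a property
`P` which is attained by one of the pairs in every large family (the counting is the one of the library file
`W76.Plane`, with a general property) (helper42). -/

namespace Pool.Agent.H42.NP

open Finset
open Pool.Agent.Y827.RO (Nar)
open Pool.Agent.W76 (forms_admissible inj_aux exists_split exists_avoid exists_five count_class count_coprime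
  cross_not_dvd)

/-- the property of `K` in the master lemma, for a general property `P` of the equations -/
def MasterP (Pp : ℕ → ℕ → ℤ → Prop) (K : ℕ) : Prop := ∀ (F : Fin 5 → Fin K → ℕ)
    (_ : ∀ x y : Fin 5 × Fin K, F x.1 x.2 = F y.1 y.2 → x = y) (A C : ℕ) (_ : 0 < A) (_ : 0 < C)
    (_ : Nat.Coprime A C) (c : ℤ) (_ : c ≠ 0)
    (_ : ∀ g i, IsCoprime ((A + F g i * C : ℕ) : ℤ) c)
    (_ : ∀ l : ℕ, l.Prime → l ∣ C → ¬ (l : ℤ) ∣ c → ∃ ν : ℤ, ∀ g i, ¬ (l : ℤ) ∣ ν + F g i),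
    ∃ x y : Fin 5 × Fin K, x.1 ≠ y.1 ∧ F x.1 x.2 < F y.1 y.2 ∧ ∃ G t a b : ℕ, 0 < G ∧ 0 < t ∧
      G = Nat.gcd (A + F x.1 x.2 * C) (A + F y.1 y.2 * C) ∧
      F y.1 y.2 - F x.1 x.2 = G * t ∧ G * a = A + F x.1 x.2 * C ∧ G * b = A + F y.1 y.2 * C ∧
      Nat.Coprime a b ∧ IsCoprime (a : ℤ) c ∧ IsCoprime (b : ℤ) c ∧ Pp a b (t * c)

/-- for some `1 ≤ t ≤ T`, all of whose prime factors are `2` or `3` and divide `c`, the triple
`(a, b, t c)` satisfies the hypotheses of the question and has the property `P` -/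
def GoodPairP (Pp : ℕ → ℕ → ℤ → Prop) (T : ℕ) (c : ℤ) (a b : ℕ) : Prop :=
  ∃ t : ℕ, 0 < t ∧ t ≤ T ∧ (∀ l : ℕ, l.Prime → l ∣ t → l ≤ 3 ∧ (l : ℤ) ∣ c) ∧
    Nat.Coprime a b ∧ IsCoprime (a : ℤ) (t * c) ∧ IsCoprime (b : ℤ) (t * c) ∧
    ¬ (Odd a ∧ Odd b ∧ Odd ((t : ℤ) * c)) ∧ Pp a b (t * c)

theorem GoodPairP.mono {Pp : ℕ → ℕ → ℤ → Prop} {T T' : ℕ} (h : T ≤ T') {c : ℤ} {a b : ℕ}
    (hg : GoodPairP Pp T c a b) : GoodPairP Pp T' c a b := by
  obtain ⟨t, h1, h2, h3⟩ := hg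
  exact ⟨t, h1, h2.trans h, h3⟩

variable {Pp : ℕ → ℕ → ℤ → Prop}

/-- the pair obtained from one system of forms -/
theorem pairP {K : ℕ} (hM : MasterP Pp K) (F : Fin 5 → Fin K → ℕ)
    (hF3 : ∀ x y : Fin 5 × Fin K, F x.1 x.2 = F y.1 y.2 → x = y)
    (hF4 : ∀ x y : Fin 5 × Fin K, x.1 ≠ y.1 → ((F x.1 x.2 : ℤ) - F y.1 y.2) ∣ F x.1 x.2)
    (Fm : ℕ) (hFle : ∀ x : Fin 5 × Fin K, F x.1 x.2 ≤ Fm)
    (c : ℤ) (hc : c ≠ 0)
    (hbad : ∀ l : ℕ, l.Prime → 5 ≤ l → l ∣ c.natAbs → ∀ x y : Fin 5 × Fin K, x.1 ≠ y.1 →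
        ¬ (l : ℤ) ∣ (F x.1 x.2 : ℤ) - F y.1 y.2)
    (M A C : ℕ) (hApos : 0 < A) (hCpos : 0 < C) (hAC : Nat.Coprime A C) (hMA : M ∣ A)
    (hMg : ∀ x y : Fin 5 × Fin K, x.1 ≠ y.1 → ∀ g : ℕ, (g : ℤ) ∣ (F x.1 x.2 : ℤ) - F y.1 y.2 →
      Nat.Coprime g c.natAbs → g ∣ M)
    (hM2 : ¬ 2 ∣ c.natAbs → 2 ∣ M)
    (hα : ∀ x : Fin 5 × Fin K, ∀ l : ℕ, l.Prime → l ∣ c.natAbs → ¬ l ∣ A + F x.1 x.2 * C)
    (hadm : ∀ l : ℕ, l.Prime → l ∣ C → ¬ (l : ℤ) ∣ c → ∃ ν : ℤ, ∀ g i, ¬ (l : ℤ) ∣ ν + F g i) :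
    ∃ (a b G : ℕ) (x y : Fin 5 × Fin K), 1 ≤ a ∧ 1 ≤ b ∧
      GoodPairP Pp Fm c a b ∧ 0 < G ∧ G ≤ Fm ∧ F x.1 x.2 < F y.1 y.2 ∧
      G * a = A + F x.1 x.2 * C ∧ G * b = A + F y.1 y.2 * C := by
  have hunit : ∀ g i, IsCoprime ((A + F g i * C : ℕ) : ℤ) c := by
    intro g i
    rw [Int.isCoprime_iff_gcd_eq_one]
    have e : Int.gcd ((A + F g i * C : ℕ) : ℤ) c = Nat.gcd (A + F g i * C) c.natAbs := by
      rw [Int.gcd, Int.natAbs_natCast]
    rw [e]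
    by_contra hnc
    obtain ⟨l, hl, h1, h2⟩ := Nat.Prime.not_coprime_iff_dvd.1 hnc
    exact hα (g, i) l hl h2 h1
  obtain ⟨x, y, hxy, hlt, G, t, a, b, hG0, ht0', hG, hGt, hGa, hGb, hab, hac, hbc, hBigS⟩ :=
    hM F hF3 A C hApos hCpos hAC c hc hunit hadm
  -- the primes of `t` divide `c`
  have hDpos : 0 < F y.1 y.2 - F x.1 x.2 := by omega
  have e1 : ((F y.1 y.2 - F x.1 x.2 : ℕ) : ℤ) = (F y.1 y.2 : ℤ) - F x.1 x.2 := by
    push_cast [hlt.le]; ring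
  have hDy : (F y.1 y.2 - F x.1 x.2) ∣ F y.1 y.2 := by
    have h2 : ((F y.1 y.2 - F x.1 x.2 : ℕ) : ℤ) ∣ (F y.1 y.2 : ℤ) := by
      rw [e1]
      exact hF4 y x (Ne.symm hxy)
    exact Int.natCast_dvd_natCast.1 h2
  have hDx : (F y.1 y.2 - F x.1 x.2) ∣ F x.1 x.2 := by
    have h3 : F y.1 y.2 - (F y.1 y.2 - F x.1 x.2) = F x.1 x.2 := by omega
    have h4 := Nat.dvd_sub hDy (dvd_refl (F y.1 y.2 - F x.1 x.2))
    rwa [h3] at h4
  obtain ⟨g', t', hgt', hgc', htc'⟩ := exists_split c.natAbs (F y.1 y.2 - F x.1 x.2) hDpos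
  have hg'M : g' ∣ M := by
    refine hMg y x (Ne.symm hxy) g' ?_ hgc'
    rw [← e1]
    exact Int.natCast_dvd_natCast.2 (Dvd.intro _ hgt'.symm)
  have hg'G : g' ∣ G := by
    have h1 : g' ∣ F x.1 x.2 := (Dvd.intro _ hgt'.symm).trans hDx
    have h2 : g' ∣ F y.1 y.2 := (Dvd.intro _ hgt'.symm).trans hDy
    have h3 : g' ∣ A := hg'M.trans hMA
    rw [hG]
    exact Nat.dvd_gcd (dvd_add h3 (h1.mul_right _)) (dvd_add h3 (h2.mul_right _))
  have htt' : t ∣ t' := by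
    obtain ⟨k, hk⟩ := hg'G
    have h1 : g' * (k * t) = g' * t' := by
      calc g' * (k * t) = G * t := by rw [hk]; ring
        _ = g' * t' := by rw [← hGt, ← hgt']
    have hg'0 : 0 < g' := by
      rcases Nat.eq_zero_or_pos g' with h | h
      · rw [h, zero_mul] at hgt'; omega
      · exact h
    have h2 := Nat.eq_of_mul_eq_mul_left hg'0 h1
    exact Dvd.intro_left _ h2
  have htprime : ∀ l : ℕ, l.Prime → l ∣ t → l ∣ c.natAbs := fun l hl h =>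
    htc' l hl (h.trans htt')
  have htc : ∀ l : ℕ, l.Prime → l ∣ t → l ≤ 3 ∧ (l : ℤ) ∣ c := by
    intro l hl h
    have h1 := htprime l hl h
    refine ⟨?_, Int.natCast_dvd.2 h1⟩
    by_contra h3
    push Not at h3
    have h5 : 5 ≤ l := by
      rcases Nat.lt_or_ge l 5 with h4 | h4
      · have : l = 4 := by omega
        rw [this] at hl
        exact absurd hl (by norm_num)
      · exact h4
    apply hbad l hl h5 h1 y x (Ne.symm hxy)
    rw [← e1]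
    apply Int.natCast_dvd_natCast.2
    rw [hGt]
    exact h.mul_left _
  have hFy := hFle y
  have htle : t ≤ Fm := by
    have h1 : t ≤ F y.1 y.2 - F x.1 x.2 := Nat.le_of_dvd hDpos (by rw [hGt]; exact Dvd.intro_left _ rfl)
    omega
  have hGle : G ≤ Fm := by
    have h1 : G ≤ F y.1 y.2 - F x.1 x.2 := Nat.le_of_dvd hDpos (by rw [hGt]; exact Dvd.intro _ rfl)
    omega
  have hat : ∀ a : ℕ, IsCoprime (a : ℤ) c → IsCoprime (a : ℤ) ((t : ℤ) * c) := by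
    intro a hac
    refine IsCoprime.mul_right ?_ hac
    rw [Nat.isCoprime_iff_coprime]
    by_contra hne
    obtain ⟨l, hl, h1, h2⟩ := Nat.Prime.not_coprime_iff_dvd.1 hne
    have h3 := htprime l hl h2
    exact (Nat.prime_iff_prime_int.1 hl).not_isUnit (hac.isUnit_of_dvd'
      (Int.natCast_dvd_natCast.2 h1) (Int.natCast_dvd.2 h3))
  have ha1 : 1 ≤ a := by
    rcases Nat.eq_zero_or_pos a with h1 | h1
    · rw [h1, mul_zero] at hGa; omega
    · exact h1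
  have hb1 : 1 ≤ b := by
    rcases Nat.eq_zero_or_pos b with h1 | h1
    · rw [h1, mul_zero] at hGb; omega
    · exact h1
  refine ⟨a, b, G, x, y, ha1, hb1, ⟨t, ht0', htle, htc, hab, hat a hac, hat b hbc, ?_,
    hBigS⟩, hG0, hGle, hlt, hGa, hGb⟩
  -- not all odd
  rintro ⟨h1, h2, h3⟩
  have hco : Odd c := (Int.odd_mul.1 h3).2
  have hto : Odd t := by
    have := (Int.odd_mul.1 h3).1
    exact_mod_cast this
  have h2c : ¬ 2 ∣ c.natAbs := by
    intro h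
    exact (Int.not_even_iff_odd.2 hco) (even_iff_two_dvd.2 (Int.natCast_dvd.2 h))
  have h2A : 2 ∣ A := (hM2 h2c).trans hMA
  have hCo : Odd C := by
    rcases Nat.even_or_odd C with h | h
    · have h5 := Nat.dvd_gcd h2A (even_iff_two_dvd.1 h)
      rw [hAC] at h5
      omega
    · exact h
  have hba : b = a + t * C := by
    have h4 : G * b = G * (a + t * C) := by
      have h6 : (F y.1 y.2 - F x.1 x.2) * C = G * t * C := by rw [hGt]
      rw [Nat.sub_mul] at h6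
      have h7 : F x.1 x.2 * C ≤ F y.1 y.2 * C := Nat.mul_le_mul_right _ hlt.le
      have h8 : G * (a + t * C) = G * a + G * t * C := by ring
      rw [h8, hGb, hGa]
      omega
    exact Nat.eq_of_mul_eq_mul_left hG0 h4
  rw [hba] at h2
  exact (Nat.not_even_iff_odd.2 h2) (h1.add_odd (hto.mul hCo))

theorem planeP_core {K : ℕ} (hK1 : 1 ≤ K) (F : Fin 5 → Fin K → ℕ)
    (hF3 : ∀ x y : Fin 5 × Fin K, F x.1 x.2 = F y.1 y.2 → x = y)
    (hF4 : ∀ x y : Fin 5 × Fin K, x.1 ≠ y.1 → ((F x.1 x.2 : ℤ) - F y.1 y.2) ∣ F x.1 x.2) (r : ℕ) :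
    ∃ (T : ℕ) (δ : ℝ) (X₀ : ℕ), 0 < δ ∧ ∀ Pp : ℕ → ℕ → ℤ → Prop, MasterP Pp K →
      ∀ (c : ℤ), c ≠ 0 → c.natAbs.primeFactors.card ≤ r →
      (∀ l : ℕ, l.Prime → 5 ≤ l → l ∣ c.natAbs → ∀ x y : Fin 5 × Fin K, x.1 ≠ y.1 →
        ¬ (l : ℤ) ∣ (F x.1 x.2 : ℤ) - F y.1 y.2) →
      ∀ X : ℕ, X₀ ≤ X → ∀ S : Finset (ℕ × ℕ),
        (∀ a b : ℕ, 1 ≤ a → a ≤ X → 1 ≤ b → b ≤ X → GoodPairP Pp T c a b → (a, b) ∈ S) →
        δ * (X : ℝ) ^ 2 ≤ (S.card : ℝ) := by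
  classical
  -- the product of the cross differences
  set D0 : ℕ := ∏ z ∈ (univ : Finset ((Fin 5 × Fin K) × (Fin 5 × Fin K))).filter
    (fun z => z.1.1 ≠ z.2.1), ((F z.1.1 z.1.2 : ℤ) - F z.2.1 z.2.2).natAbs with hD0
  have hne : ∀ x y : Fin 5 × Fin K, x.1 ≠ y.1 → (F x.1 x.2 : ℤ) - F y.1 y.2 ≠ 0 := by
    intro x y hxy h
    have h1 : F x.1 x.2 = F y.1 y.2 := by
      have : (F x.1 x.2 : ℤ) = F y.1 y.2 := by linarith
      exact_mod_cast this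
    exact hxy (congrArg Prod.fst (hF3 x y h1))
  have hD0pos : 0 < D0 := by
    apply prod_pos
    intro z hz
    exact Int.natAbs_pos.2 (hne z.1 z.2 (mem_filter.1 hz).2)
  have hdD : ∀ x y : Fin 5 × Fin K, x.1 ≠ y.1 → ((F x.1 x.2 : ℤ) - F y.1 y.2) ∣ (D0 : ℤ) := by
    intro x y hxy
    rw [Int.dvd_natCast]
    exact dvd_prod_of_mem (fun z : (Fin 5 × Fin K) × (Fin 5 × Fin K) =>
      ((F z.1.1 z.1.2 : ℤ) - F z.2.1 z.2.2).natAbs) (a := (x, y)) (mem_filter.2 ⟨mem_univ _, hxy⟩)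
  set Fm : ℕ := ∑ x : Fin 5 × Fin K, F x.1 x.2 with hFm
  have hFle : ∀ x : Fin 5 × Fin K, F x.1 x.2 ≤ Fm := fun x =>
    Finset.single_le_sum (f := fun x : Fin 5 × Fin K => F x.1 x.2) (fun _ _ => Nat.zero_le _)
      (mem_univ x)
  clear_value D0 Fm
  obtain ⟨W, hW⟩ : ∃ u : ℕ, u = (5 * K + 16).factorial * D0 := ⟨_, rfl⟩
  have hWpos : 0 < W := by rw [hW]; exact Nat.mul_pos (Nat.factorial_pos _) hD0pos
  obtain ⟨m0, hm0⟩ : ∃ u : ℕ, u = r * (5 * K) := ⟨_, rfl⟩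
  obtain ⟨L0, hL0⟩ : ∃ u : ℕ, u = 8 * m0 + 5 * K + 16 := ⟨_, rfl⟩
  have hL0pos : 0 < L0 := by omega
  obtain ⟨Rm, hRm⟩ : ∃ u : ℕ, u = L0 ^ r := ⟨_, rfl⟩
  have hRmpos : 0 < Rm := by rw [hRm]; exact pow_pos hL0pos _
  obtain ⟨κ, hκ⟩ : ∃ u : ℕ, u = W * (1 + Rm) + Fm * (Rm * (1 + W)) := ⟨_, rfl⟩
  have hκpos : 0 < κ := by
    have : 0 < W * (1 + Rm) := Nat.mul_pos hWpos (by omega)
    omega
  obtain ⟨N, hN⟩ : ∃ u : ℕ, u = 25 * K ^ 2 * (Fm + 1) := ⟨_, rfl⟩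
  have hNpos : 0 < N := by
    rw [hN]
    exact Nat.mul_pos (Nat.mul_pos (by norm_num) (pow_pos hK1 2)) (Nat.succ_pos _)
  have hNR : (0 : ℝ) < N := by exact_mod_cast hNpos
  have hκR : (0 : ℝ) < κ := by exact_mod_cast hκpos
  obtain ⟨Z₀, hZ₀⟩ : ∃ u : ℕ, u = 4 * (1 + Rm) + 8 * m0 + 2 := ⟨_, rfl⟩
  refine ⟨Fm, 1 / (16 * (N : ℝ) * (κ : ℝ) ^ 2), κ * Z₀, by positivity, ?_⟩
  intro Pp hM c hc hr hbad X hX S hS
  have hcpos : 0 < c.natAbs := Int.natAbs_pos.2 hc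
  set P := c.natAbs.primeFactors with hP
  have hPmem : ∀ l ∈ P, l.Prime ∧ l ∣ c.natAbs := fun l hl =>
    ⟨(Nat.mem_primeFactors.1 hl).1, (Nat.mem_primeFactors.1 hl).2.1⟩
  have hPin : ∀ l : ℕ, l.Prime → l ∣ c.natAbs → l ∈ P := fun l hl hd =>
    Nat.mem_primeFactors.2 ⟨hl, hd, hcpos.ne'⟩
  set Ps := P.filter (fun l => l ≤ L0) with hPs
  set R := ∏ l ∈ Ps, l with hR
  have hRpos : 0 < R := prod_pos fun l hl => (hPmem l (mem_filter.1 hl).1).1.pos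
  have hRle : R ≤ Rm := by
    calc R ≤ L0 ^ Ps.card := Finset.prod_le_pow_card _ _ _ (fun l hl => (mem_filter.1 hl).2)
      _ ≤ L0 ^ r := Nat.pow_le_pow_right hL0pos ((card_filter_le _ _).trans hr)
      _ = Rm := hRm.symm
  have hRdvd : ∀ l : ℕ, l.Prime → l ∣ R → l ∣ c.natAbs := by
    intro l hl hd
    obtain ⟨l', hl', h2⟩ := (hl.prime.dvd_finsetProd_iff _).1 hd
    have hl'' := mem_filter.1 hl'
    rw [(Nat.prime_dvd_prime_iff_eq hl (hPmem l' hl''.1).1).1 h2]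
    exact (hPmem l' hl''.1).2
  -- the part of `W` prime to `c`
  obtain ⟨M, t₀, hMt, hMc, ht₀⟩ := exists_split c.natAbs W hWpos
  have hMpos : 0 < M := Nat.pos_of_mul_pos_right (hMt ▸ hWpos)
  have hMW : M ≤ W := Nat.le_of_dvd hWpos (Dvd.intro _ hMt.symm)
  have hMprime : ∀ l : ℕ, l.Prime → l ∣ M → ¬ l ∣ c.natAbs := by
    intro l hl h1 h2
    have := Nat.dvd_gcd h1 h2
    rw [hMc] at this
    exact hl.one_lt.ne' (Nat.dvd_one.1 this)
  have hMg : ∀ g : ℕ, g ∣ W → Nat.Coprime g c.natAbs → g ∣ M := by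
    intro g hg hgc
    have h1 : g ∣ M * t₀ := by rw [← hMt]; exact hg
    refine Nat.Coprime.dvd_of_dvd_mul_right ?_ h1
    by_contra hne
    obtain ⟨l, hl, h2, h3⟩ := Nat.Prime.not_coprime_iff_dvd.1 hne
    have h4 := Nat.dvd_gcd h2 (ht₀ l hl h3)
    rw [hgc] at h4
    exact hl.one_lt.ne' (Nat.dvd_one.1 h4)
  have hMs : ∀ l : ℕ, l.Prime → l ≤ 5 * K + 16 → ¬ l ∣ c.natAbs → l ∣ M := by
    intro l hl hlk hlc
    apply hMg l
    · rw [hW]; exact ((hl.dvd_factorial).2 hlk).mul_right _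
    · exact (Nat.Prime.coprime_iff_not_dvd hl).2 hlc
  have hMR : Nat.Coprime M R := by
    by_contra hne
    obtain ⟨l, hl, h2, h3⟩ := Nat.Prime.not_coprime_iff_dvd.1 hne
    exact hMprime l hl h2 (hRdvd l hl h3)
  -- the box
  set Z := X / κ with hZ
  have hZge : Z₀ ≤ Z := (Nat.le_div_iff_mul_le hκpos).2 (by rw [mul_comm]; exact hX)
  have hκZ : κ * Z ≤ X := Nat.mul_div_le X κ
  have hZpos : 0 < Z := by omega
  set Cop := ((range Z) ×ˢ (range Z)).filter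
        (fun z => Nat.Coprime (1 + R * z.1) (1 + M * z.2)) with hCop
  have hcnt : (Z : ℝ) ^ 2 ≤ 2 * (Cop.card : ℝ) := by
    refine count_coprime (c := R) (M := M) (u := 1) one_pos (Nat.coprime_one_left R) ?_ Z ?_
    · intro l hl hl16
      by_cases h : l ∣ c.natAbs
      · left
        exact dvd_prod_of_mem (fun l => l) (mem_filter.2 ⟨hPin l hl h, by omega⟩)
      · right
        exact hMs l hl (by omega) h
    · have : 4 * (1 + R) ≤ 4 * (1 + Rm) := by omega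
      omega
  -- the large primes
  set Pl := P.filter (fun l => L0 < l) with hPl
  have hPlcard : Pl.card ≤ r := (card_filter_le _ _).trans hr
  have hPlMR : ∀ l ∈ Pl, ¬ l ∣ M * R := by
    intro l hl hd
    rw [hPl, mem_filter] at hl
    obtain ⟨hlp, hlc⟩ := hPmem l hl.1
    rcases (hlp.dvd_mul).1 hd with h1 | h1
    · exact hMprime l hlp h1 hlc
    · obtain ⟨l', hl', h2⟩ := (hlp.prime.dvd_finsetProd_iff _).1 h1
      have hl'' := mem_filter.1 hl'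
      have h3 := (Nat.prime_dvd_prime_iff_eq hlp (hPmem l' hl''.1).1).1 h2
      have := hl''.2
      omega
  set E : (ℕ × (Fin 5 × Fin K)) × ℕ → Finset (ℕ × ℕ) := fun u =>
    ((range Z).filter (fun z => u.1.1 ∣ (M + F u.1.2.1 u.1.2.2 * (R * (1 + M * u.2))) +
      (M * R) * z)).image (fun z => (z, u.2)) with hE
  set Bad := ((Pl ×ˢ (univ : Finset (Fin 5 × Fin K))) ×ˢ (range Z)).biUnion E with hBad
  have hBadcard : Bad.card ≤ m0 * Z * (Z / L0 + 1) := by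
    have h1 : ∀ u ∈ ((Pl ×ˢ (univ : Finset (Fin 5 × Fin K))) ×ˢ (range Z)),
        (E u).card ≤ Z / L0 + 1 := by
      intro u hu
      rw [mem_product, mem_product] at hu
      have hlp := (hPmem u.1.1 (mem_filter.1 hu.1.1).1).1
      have h2 := count_class (u := M + F u.1.2.1 u.1.2.2 * (R * (1 + M * u.2))) (Z := Z) hlp
        (hPlMR u.1.1 hu.1.1)
      refine card_image_le.trans (h2.trans ?_)
      have h3 : Z / u.1.1 ≤ Z / L0 := Nat.div_le_div_left (mem_filter.1 hu.1.1).2.le hL0pos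
      omega
    calc Bad.card ≤ ∑ u ∈ ((Pl ×ˢ (univ : Finset (Fin 5 × Fin K))) ×ˢ (range Z)), (E u).card :=
          card_biUnion_le
      _ ≤ ∑ _u ∈ ((Pl ×ˢ (univ : Finset (Fin 5 × Fin K))) ×ˢ (range Z)), (Z / L0 + 1) :=
          sum_le_sum h1
      _ = Pl.card * (5 * K) * Z * (Z / L0 + 1) := by
          rw [sum_const, card_product, card_product]; simp
      _ ≤ r * (5 * K) * Z * (Z / L0 + 1) := by gcongr
      _ = m0 * Z * (Z / L0 + 1) := by rw [hm0]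
  have hBad2 : 4 * Bad.card ≤ Z ^ 2 := by
    have h1 : 8 * (m0 * (Z / L0)) ≤ Z := by
      calc 8 * (m0 * (Z / L0)) = (8 * m0) * (Z / L0) := by ring
        _ ≤ L0 * (Z / L0) := Nat.mul_le_mul_right _ (by omega)
        _ ≤ Z := Nat.mul_div_le _ _
    have h2 : 8 * m0 ≤ Z := by omega
    have h3 : 4 * (m0 * (Z / L0 + 1)) ≤ Z := by
      have : m0 * (Z / L0 + 1) = m0 * (Z / L0) + m0 := by ring
      omega
    calc 4 * Bad.card ≤ 4 * (m0 * Z * (Z / L0 + 1)) := Nat.mul_le_mul_left _ hBadcard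
      _ = 4 * (m0 * (Z / L0 + 1)) * Z := by ring
      _ ≤ Z * Z := Nat.mul_le_mul_right _ h3
      _ = Z ^ 2 := by ring
  set Good := Cop.filter (fun z => z ∉ Bad) with hGood
  have hGoodcard : (Z : ℝ) ^ 2 ≤ 4 * Good.card := by
    have h1 := card_filter_add_card_filter_not (s := Cop) (fun z => z ∈ Bad)
    have h2 : (Cop.filter (fun z => z ∈ Bad)).card ≤ Bad.card :=
      card_le_card (fun z hz => (mem_filter.1 hz).2)
    have h3 : (Cop.filter (fun z => z ∉ Bad)).card = Good.card := rfl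
    have h4 : Cop.card ≤ Bad.card + Good.card := by omega
    have h4' : (Cop.card : ℝ) ≤ Bad.card + Good.card := by exact_mod_cast h4
    have h5 : (4 : ℝ) * Bad.card ≤ (Z : ℝ) ^ 2 := by exact_mod_cast hBad2
    linarith
  -- each good `z` gives a pair
  have hmain : ∀ z ∈ Good, ∃ (a b G : ℕ) (x y : Fin 5 × Fin K), 1 ≤ a ∧ a ≤ X ∧ 1 ≤ b ∧ b ≤ X ∧
      GoodPairP Pp Fm c a b ∧ G ≤ Fm ∧ F x.1 x.2 < F y.1 y.2 ∧
      G * a = M * (1 + R * z.1) + F x.1 x.2 * (R * (1 + M * z.2)) ∧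
      G * b = M * (1 + R * z.1) + F y.1 y.2 * (R * (1 + M * z.2)) := by
    intro z hz
    rw [hGood, mem_filter, hCop, mem_filter, mem_product, mem_range, mem_range] at hz
    obtain ⟨⟨⟨hz1, hz2⟩, hz3⟩, hzB⟩ := hz
    have hzB' : ∀ l ∈ Pl, ∀ x : Fin 5 × Fin K,
        ¬ l ∣ (M + F x.1 x.2 * (R * (1 + M * z.2))) + (M * R) * z.1 := by
      intro l hl x hd
      apply hzB
      rw [hBad, mem_biUnion]
      refine ⟨((l, x), z.2), mem_product.2 ⟨mem_product.2 ⟨hl, mem_univ _⟩, mem_range.2 hz2⟩, ?_⟩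
      rw [hE]
      exact mem_image.2 ⟨z.1, mem_filter.2 ⟨mem_range.2 hz1, hd⟩, rfl⟩
    set A := M * (1 + R * z.1) with hA
    set C := R * (1 + M * z.2) with hC
    have hApos : 0 < A := Nat.mul_pos hMpos (by omega)
    have hCpos : 0 < C := Nat.mul_pos hRpos (by omega)
    have hMA : M ∣ A := Dvd.intro _ rfl
    have hAC : Nat.Coprime A C := by
      have h1 : Nat.Coprime (1 + R * z.1) R := by simp
      have h2 : Nat.Coprime M (1 + M * z.2) := by simp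
      exact Nat.Coprime.mul_left (Nat.Coprime.mul_right hMR h2) (Nat.Coprime.mul_right h1 hz3)
    -- the forms are prime to `c`
    have hα : ∀ x : Fin 5 × Fin K, ∀ l : ℕ, l.Prime → l ∣ c.natAbs → ¬ l ∣ A + F x.1 x.2 * C := by
      intro x l hl hlc hd
      have hlP := hPin l hl hlc
      rcases Nat.lt_or_ge L0 l with h1 | h1
      · apply hzB' l (mem_filter.2 ⟨hlP, h1⟩) x
        have e : M + F x.1 x.2 * (R * (1 + M * z.2)) + M * R * z.1 = A + F x.1 x.2 * C := by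
          rw [hA, hC]; ring
        rw [e]; exact hd
      · have h2 : l ∣ R := dvd_prod_of_mem (fun l => l) (mem_filter.2 ⟨hlP, h1⟩)
        have h3 : l ∣ C := h2.mul_right _
        have h4 : l ∣ A := (Nat.dvd_add_left (h3.mul_left _)).1 hd
        have h5 := Nat.dvd_gcd h4 h3
        rw [hAC] at h5
        exact hl.one_lt.ne' (Nat.dvd_one.1 h5)
    have hadm : ∀ l : ℕ, l.Prime → l ∣ C → ¬ (l : ℤ) ∣ c → ∃ ν : ℤ, ∀ g i, ¬ (l : ℤ) ∣ ν + F g i := by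
      intro l hl hlC hlc
      have hlc' : ¬ l ∣ c.natAbs := fun h => hlc (Int.natCast_dvd.2 h)
      have hl5K : 5 * K < l := by
        by_contra hlt
        push Not at hlt
        have h1 : l ∣ M := hMs l hl (by omega) hlc'
        have h2 := Nat.dvd_gcd (h1.trans hMA) hlC
        rw [hAC] at h2
        exact hl.one_lt.ne' (Nat.dvd_one.1 h2)
      obtain ⟨ν, hν⟩ := exists_avoid (ι := Fin 5 × Fin K) l (by simpa using hl5K)
        (fun x => (F x.1 x.2 : ℤ))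
      exact ⟨ν, fun g i => hν (g, i)⟩
    obtain ⟨a, b, G, x, y, ha1, hb1, hgood, hG0, hGle, hlt, hGa, hGb⟩ := pairP hM F hF3 hF4 Fm
      hFle c hc hbad M A C hApos hCpos hAC hMA
      (fun x y hxy g hg hgc => hMg g (by
        rw [hW]
        exact Dvd.dvd.mul_left (Int.natCast_dvd_natCast.1 (hg.trans (hdD x y hxy))) _) hgc)
      (fun h2 => hMs 2 Nat.prime_two (by omega) h2) hα hadm
    have hbound : ∀ x : Fin 5 × Fin K, A + F x.1 x.2 * C ≤ X := by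
      intro x
      have hA' : A ≤ W * (1 + Rm) * Z := by
        have h1 : 1 + R * z.1 ≤ (1 + Rm) * Z := by
          have h2 : R * z.1 ≤ Rm * Z := Nat.mul_le_mul hRle hz1.le
          have h3 : (1 + Rm) * Z = Z + Rm * Z := by ring
          omega
        calc A = M * (1 + R * z.1) := rfl
          _ ≤ W * ((1 + Rm) * Z) := Nat.mul_le_mul hMW h1
          _ = W * (1 + Rm) * Z := by ring
      have hC' : C ≤ Rm * (1 + W) * Z := by
        have h1 : 1 + M * z.2 ≤ (1 + W) * Z := by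
          have h2 : M * z.2 ≤ W * Z := Nat.mul_le_mul hMW hz2.le
          have h3 : (1 + W) * Z = Z + W * Z := by ring
          omega
        calc C = R * (1 + M * z.2) := rfl
          _ ≤ Rm * ((1 + W) * Z) := Nat.mul_le_mul hRle h1
          _ = Rm * (1 + W) * Z := by ring
      have h1 : F x.1 x.2 * C ≤ Fm * (Rm * (1 + W) * Z) := Nat.mul_le_mul (hFle x) hC'
      calc A + F x.1 x.2 * C ≤ W * (1 + Rm) * Z + Fm * (Rm * (1 + W) * Z) := Nat.add_le_add hA' h1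
        _ = κ * Z := by rw [hκ]; ring
        _ ≤ X := hκZ
    have haX : a ≤ X := by
      have h1 : a ≤ G * a := Nat.le_mul_of_pos_left _ hG0
      rw [hGa] at h1
      exact h1.trans (hbound x)
    have hbX : b ≤ X := by
      have h1 : b ≤ G * b := Nat.le_mul_of_pos_left _ hG0
      rw [hGb] at h1
      exact h1.trans (hbound y)
    exact ⟨a, b, G, x, y, ha1, haX, hb1, hbX, hgood, hGle, hlt, hGa, hGb⟩
  have : Nonempty (Fin 5 × Fin K) := ⟨(0, ⟨0, hK1⟩)⟩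
  choose! a b G x y ha1 haX hb1 hbX hgood hGle hlt hGa hGb using hmain
  -- counting
  have hinj : Set.InjOn (fun z => ((a z, b z), ((x z, y z), G z))) (Good : Set (ℕ × ℕ)) := by
    intro z hz z' hz' h1
    simp only [Prod.mk.injEq] at h1
    obtain ⟨⟨e1, e2⟩, ⟨e3, e4⟩, e5⟩ := h1
    have h2 := hGa z hz
    have h4 := hGb z hz
    rw [e1, e3, e5] at h2
    rw [e2, e4, e5] at h4
    exact inj_aux M R (G z') (a z') (b z') _ _ z z' hMpos hRpos (hlt z' hz') h2 (hGa z' hz') h4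
      (hGb z' hz')
  have hmaps : ∀ z ∈ Good, ((a z, b z), ((x z, y z), G z)) ∈
      S ×ˢ ((univ : Finset ((Fin 5 × Fin K) × (Fin 5 × Fin K))) ×ˢ (range (Fm + 1))) := by
    intro z hz
    exact mem_product.2 ⟨hS _ _ (ha1 z hz) (haX z hz) (hb1 z hz) (hbX z hz) (hgood z hz),
      mem_product.2 ⟨mem_univ _, mem_range.2 (Nat.lt_succ_of_le (hGle z hz))⟩⟩
  have hcard := card_le_card_of_injOn _ hmaps hinj
  rw [card_product, card_product, card_range] at hcard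
  have hcu : (univ : Finset ((Fin 5 × Fin K) × (Fin 5 × Fin K))).card = 25 * K ^ 2 := by
    simp [card_univ, Fintype.card_prod, Fintype.card_fin]; ring
  rw [hcu, ← hN] at hcard
  have hcardR : (Good.card : ℝ) ≤ S.card * N := by exact_mod_cast hcard
  have hZX : (X : ℝ) ≤ 2 * κ * Z := by
    have h1 : (X : ℝ) < κ * (Z + 1) := by
      have h3 : X < κ * (Z + 1) := Nat.lt_mul_div_succ X hκpos
      exact_mod_cast h3
    have h2 : (1 : ℝ) ≤ Z := by exact_mod_cast hZpos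
    have h4 : (0 : ℝ) < κ := by exact_mod_cast hκpos
    nlinarith
  have hX0 : (0 : ℝ) ≤ X := Nat.cast_nonneg X
  rw [one_div, inv_mul_le_iff₀ (by positivity)]
  calc (X : ℝ) ^ 2 ≤ (2 * κ * Z) ^ 2 := by gcongr
    _ = 4 * (κ : ℝ) ^ 2 * (Z : ℝ) ^ 2 := by ring
    _ ≤ 4 * (κ : ℝ) ^ 2 * (4 * (S.card * N)) := by
        gcongr
        linarith
    _ = 16 * N * (κ : ℝ) ^ 2 * S.card := by ring

theorem planeP_ind {K : ℕ} (hK1 : 1 ≤ K) (r n : ℕ) :
    ∀ Q : ℕ, 0 < Q → (∀ l : ℕ, l.Prime → l ∣ Q → 5 ≤ l) →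
    ∃ (T : ℕ) (δ : ℝ) (X₀ : ℕ), 0 < δ ∧ ∀ Pp : ℕ → ℕ → ℤ → Prop, MasterP Pp K →
      ∀ (c : ℤ), c ≠ 0 → c.natAbs.primeFactors.card ≤ r →
      (c.natAbs.primeFactors.filter (fun l => 5 ≤ l ∧ ¬ l ∣ Q)).card ≤ n →
      ∀ X : ℕ, X₀ ≤ X → ∀ S : Finset (ℕ × ℕ),
        (∀ a b : ℕ, 1 ≤ a → a ≤ X → 1 ≤ b → b ≤ X → GoodPairP Pp T c a b → (a, b) ∈ S) →
        δ * (X : ℝ) ^ 2 ≤ (S.card : ℝ) := by
  classical
  induction n with
  | zero =>
    intro Q hQ hQ5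
    obtain ⟨F, hF1, hF2, hF3, hF4⟩ := exists_five Q hQ hQ5 K
    obtain ⟨T, δ, X₀, hδ, H⟩ := planeP_core hK1 F hF3 hF4 r
    refine ⟨T, δ, X₀, hδ, ?_⟩
    intro Pp hM c hc hr hn X hX S hS
    apply H Pp hM c hc hr _ X hX S hS
    intro l hl h5 hlc x y hxy
    have hlQ : l ∣ Q := by
      by_contra hlQ
      have h1 : l ∈ c.natAbs.primeFactors.filter (fun l => 5 ≤ l ∧ ¬ l ∣ Q) :=
        mem_filter.2 ⟨Nat.mem_primeFactors.2 ⟨hl, hlc, (Int.natAbs_pos.2 hc).ne'⟩, h5, hlQ⟩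
      have := card_pos.2 ⟨l, h1⟩
      omega
    exact cross_not_dvd F hF2 l hlQ h5 x y hxy
  | succ n ih =>
    intro Q hQ hQ5
    obtain ⟨F, hF1, hF2, hF3, hF4⟩ := exists_five Q hQ hQ5 K
    obtain ⟨T1, δ1, X1, hδ1, H1⟩ := planeP_core hK1 F hF3 hF4 r
    set D : ℕ := ∏ z ∈ (univ : Finset ((Fin 5 × Fin K) × (Fin 5 × Fin K))).filter
      (fun z => z.1.1 ≠ z.2.1), ((F z.1.1 z.1.2 : ℤ) - F z.2.1 z.2.2).natAbs with hD
    have hDpos : 0 < D := by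
      apply prod_pos
      intro z hz
      apply Int.natAbs_pos.2
      intro h
      have h1 : F z.1.1 z.1.2 = F z.2.1 z.2.2 := by
        have : (F z.1.1 z.1.2 : ℤ) = F z.2.1 z.2.2 := by linarith
        exact_mod_cast this
      exact (mem_filter.1 hz).2 (congrArg Prod.fst (hF3 z.1 z.2 h1))
    set Q2 : ℕ := ∏ l ∈ D.primeFactors.filter (fun l => 5 ≤ l), l with hQ2
    have hQ2pos : 0 < Q2 := prod_pos fun l hl =>
      (Nat.mem_primeFactors.1 (mem_filter.1 hl).1).1.pos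
    obtain ⟨T2, δ2, X2, hδ2, H2⟩ := ih (Q * Q2) (Nat.mul_pos hQ hQ2pos) (by
      intro l hl hd
      rcases (hl.dvd_mul).1 hd with h | h
      · exact hQ5 l hl h
      · obtain ⟨l', hl', h2⟩ := (hl.prime.dvd_finsetProd_iff _).1 h
        have hl'' := mem_filter.1 hl'
        rw [(Nat.prime_dvd_prime_iff_eq hl (Nat.mem_primeFactors.1 hl''.1).1).1 h2]
        exact hl''.2)
    refine ⟨max T1 T2, min δ1 δ2, max X1 X2, lt_min hδ1 hδ2, ?_⟩
    intro Pp hM c hc hr hn X hX S hS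
    have hX0 : (0 : ℝ) ≤ (X : ℝ) ^ 2 := by positivity
    by_cases hb : ∀ l : ℕ, l.Prime → 5 ≤ l → l ∣ c.natAbs → ∀ x y : Fin 5 × Fin K, x.1 ≠ y.1 →
        ¬ (l : ℤ) ∣ (F x.1 x.2 : ℤ) - F y.1 y.2
    · refine le_trans (mul_le_mul_of_nonneg_right (min_le_left _ _) hX0) ?_
      exact H1 Pp hM c hc hr hb X ((le_max_left _ _).trans hX) S
        (fun a b h1 h2 h3 h4 h5 => hS a b h1 h2 h3 h4 (h5.mono (le_max_left _ _)))
    · push Not at hb
      obtain ⟨l0, hl0, h5, hl0c, x, y, hxy, hd⟩ := hb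
      refine le_trans (mul_le_mul_of_nonneg_right (min_le_right _ _) hX0) ?_
      refine H2 Pp hM c hc hr ?_ X ((le_max_right _ _).trans hX) S
        (fun a b h1 h2 h3 h4 h5 => hS a b h1 h2 h3 h4 (h5.mono (le_max_right _ _)))
      have hl0Q : ¬ l0 ∣ Q := fun h' => cross_not_dvd F hF2 l0 h' h5 x y hxy hd
      have hl0D : l0 ∣ D := by
        have h6 : l0 ∣ ((F x.1 x.2 : ℤ) - F y.1 y.2).natAbs := Int.natCast_dvd.1 hd
        refine h6.trans ?_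
        exact dvd_prod_of_mem (fun z : (Fin 5 × Fin K) × (Fin 5 × Fin K) =>
          ((F z.1.1 z.1.2 : ℤ) - F z.2.1 z.2.2).natAbs) (a := (x, y))
          (mem_filter.2 ⟨mem_univ _, hxy⟩)
      have hl0Q2 : l0 ∣ Q2 := dvd_prod_of_mem (fun l => l)
        (mem_filter.2 ⟨Nat.mem_primeFactors.2 ⟨hl0, hl0D, hDpos.ne'⟩, h5⟩)
      have hmem : l0 ∈ c.natAbs.primeFactors.filter (fun l => 5 ≤ l ∧ ¬ l ∣ Q) :=
        mem_filter.2 ⟨Nat.mem_primeFactors.2 ⟨hl0, hl0c, (Int.natAbs_pos.2 hc).ne'⟩, h5, hl0Q⟩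
      have hsub : c.natAbs.primeFactors.filter (fun l => 5 ≤ l ∧ ¬ l ∣ Q * Q2) ⊆
          (c.natAbs.primeFactors.filter (fun l => 5 ≤ l ∧ ¬ l ∣ Q)).erase l0 := by
        intro l hl
        rw [mem_filter] at hl
        rw [mem_erase, mem_filter]
        refine ⟨?_, hl.1, hl.2.1, fun h' => hl.2.2 (h'.mul_right _)⟩
        rintro rfl
        exact hl.2.2 (hl0Q2.mul_left _)
      have h6 := card_le_card hsub
      rw [card_erase_of_mem hmem] at h6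
      omega


/-- from two classes of four to the equation -/
theorem masterP {K : ℕ} (hK1 : 1 ≤ K) {J : ℤ × ℤ → ℤ × ℤ → Prop} (hsymm : ∀ f g, J f g → J g f)
    (hhit : Pool.Agent.K7.H63.TQ.HitR K {f | 1 ≤ f.1} J)
    (hP : ∀ (G a b : ℕ) (b₁ b₂ c : ℤ), 1 ≤ G → 1 ≤ a → 1 ≤ b → (a : ℤ) * b₂ = b * b₁ + c →
      J (((G * a : ℕ) : ℤ), b₁) (((G * b : ℕ) : ℤ), b₂) → Pp a b c) : MasterP Pp K := by
  classical
  intro F hinj A C hA hC hAC c hc hunit hadm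
  obtain ⟨B, E, hBE⟩ : ∃ B E : ℤ, (A : ℤ) * E - B * C = c := by
    have h : IsCoprime (A : ℤ) (C : ℤ) := Nat.isCoprime_iff_coprime.2 hAC
    obtain ⟨x, y, hxy⟩ := h
    refine ⟨-(c * y), c * x, ?_⟩
    linear_combination (c : ℤ) * hxy
  have hloc := fun (l : ℕ) (hl : l.Prime) => forms_admissible hK1 F A C B E c hBE hunit hadm l hl
  let e : Fin 4 → Fin 5 := Fin.castSucc
  obtain ⟨g, g', i, j, hgg, hJ⟩ := hhit
    (fun g i => (((A + F (e g) i * C : ℕ) : ℤ), B + F (e g) i * E))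
    (fun g i => by
      show (1 : ℤ) ≤ ((A + F (e g) i * C : ℕ) : ℤ)
      exact_mod_cast (by omega : 1 ≤ A + F (e g) i * C))
    (by
      intro x y hxy
      simp only [Prod.mk.injEq] at hxy
      have h1 : A + F (e x.1) x.2 * C = A + F (e y.1) y.2 * C := by exact_mod_cast hxy.1
      have h2 : F (e x.1) x.2 * C = F (e y.1) y.2 * C := by omega
      have h3 := hinj (e x.1, x.2) (e y.1, y.2) (Nat.eq_of_mul_eq_mul_right hC h2)
      simp only [Prod.mk.injEq] at h3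
      exact Prod.ext (Fin.castSucc_injective _ h3.1) h3.2)
    (fun p hp => by
      obtain ⟨n, hn⟩ := hloc p hp
      exact ⟨n, fun g i => hn (e g) i⟩)
  have hee : e g ≠ e g' := fun h => hgg (Fin.castSucc_injective _ h)
  -- an ordered pair
  have key : ∀ x y : Fin 5 × Fin K, x.1 ≠ y.1 → F x.1 x.2 < F y.1 y.2 →
      J (((A + F x.1 x.2 * C : ℕ) : ℤ), B + F x.1 x.2 * E) (((A + F y.1 y.2 * C : ℕ) : ℤ), B + F y.1 y.2 * E) →
      ∃ x y : Fin 5 × Fin K, x.1 ≠ y.1 ∧ F x.1 x.2 < F y.1 y.2 ∧ ∃ G t a b : ℕ, 0 < G ∧ 0 < t ∧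
      G = Nat.gcd (A + F x.1 x.2 * C) (A + F y.1 y.2 * C) ∧
      F y.1 y.2 - F x.1 x.2 = G * t ∧ G * a = A + F x.1 x.2 * C ∧ G * b = A + F y.1 y.2 * C ∧
      Nat.Coprime a b ∧ IsCoprime (a : ℤ) c ∧ IsCoprime (b : ℤ) c ∧ Pp a b (t * c) := by
    intro x y hxy hlt hB
    set f1 := F x.1 x.2 with hf1
    set f2 := F y.1 y.2 with hf2
    set G := Nat.gcd (A + f1 * C) (A + f2 * C) with hG
    have hα1 : 0 < A + f1 * C := by omega
    have hG0 : 0 < G := Nat.gcd_pos_of_pos_left _ hα1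
    have hGd1 : G ∣ A + f1 * C := Nat.gcd_dvd_left _ _
    have hGd2 : G ∣ A + f2 * C := Nat.gcd_dvd_right _ _
    -- `G` divides the difference
    have hGD : G ∣ f2 - f1 := by
      have hZ1 : (G : ℤ) ∣ (A : ℤ) + f1 * C := by exact_mod_cast hGd1
      have hZ2 : (G : ℤ) ∣ (A : ℤ) + f2 * C := by exact_mod_cast hGd2
      have h1 : (G : ℤ) ∣ ((f2 : ℤ) - f1) * C := by
        have := dvd_sub hZ2 hZ1
        have e : (A : ℤ) + f2 * C - (A + f1 * C) = ((f2 : ℤ) - f1) * C := by ring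
        rwa [e] at this
      have h2 : (G : ℤ) ∣ ((f2 : ℤ) - f1) * A := by
        have := dvd_sub (hZ1.mul_left (f2 : ℤ)) (hZ2.mul_left (f1 : ℤ))
        have e : (f2 : ℤ) * (A + f1 * C) - f1 * (A + f2 * C) = ((f2 : ℤ) - f1) * A := by ring
        rwa [e] at this
      obtain ⟨u, v, huv⟩ := Nat.isCoprime_iff_coprime.2 hAC
      have h3 : (G : ℤ) ∣ (f2 : ℤ) - f1 := by
        have e : (f2 : ℤ) - f1 = u * (((f2 : ℤ) - f1) * A) + v * (((f2 : ℤ) - f1) * C) := by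
          linear_combination (-((f2 : ℤ) - f1)) * huv
        rw [e]
        exact dvd_add (h2.mul_left _) (h1.mul_left _)
      have e : ((f2 - f1 : ℕ) : ℤ) = (f2 : ℤ) - f1 := by push_cast [hlt.le]; ring
      rw [← Int.natCast_dvd_natCast, e]
      exact h3
    obtain ⟨t, ht⟩ := hGD
    obtain ⟨a, ha⟩ := hGd1
    obtain ⟨b, hb⟩ := hGd2
    have ht0 : 0 < t := by
      rcases Nat.eq_zero_or_pos t with h | h
      · rw [h, mul_zero] at ht; omega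
      · exact h
    have hab : Nat.Coprime a b := by
      have h1 := Nat.coprime_div_gcd_div_gcd (m := A + f1 * C) (n := A + f2 * C) hG0
      rw [← hG] at h1
      rw [ha, hb, Nat.mul_div_cancel_left _ hG0, Nat.mul_div_cancel_left _ hG0] at h1
      exact h1
    have hac : IsCoprime (a : ℤ) c := by
      apply IsCoprime.of_isCoprime_of_dvd_left (hunit x.1 x.2)
      rw [← hf1, ha]
      exact Int.natCast_dvd_natCast.2 (Dvd.intro_left _ rfl)
    have hbc : IsCoprime (b : ℤ) c := by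
      apply IsCoprime.of_isCoprime_of_dvd_left (hunit y.1 y.2)
      rw [← hf2, hb]
      exact Int.natCast_dvd_natCast.2 (Dvd.intro_left _ rfl)
    refine ⟨x, y, hxy, hlt, G, t, a, b, hG0, ht0, hG, ht, ha.symm, hb.symm, hab, hac, hbc, ?_⟩
    have hGZ : (G : ℤ) ≠ 0 := by exact_mod_cast hG0.ne'
    have ha' : (G : ℤ) * a = A + f1 * C := by exact_mod_cast ha.symm
    have hb' : (G : ℤ) * b = A + f2 * C := by exact_mod_cast hb.symm
    have ht' : (f2 : ℤ) - f1 = G * t := by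
      have : f2 = f1 + G * t := by omega
      rw [this]; push_cast; ring
    refine hP G a b (B + f1 * E) (B + f2 * E) (t * c) hG0 ?_ ?_ ?_ ?_
    · rcases Nat.eq_zero_or_pos a with h | h
      · rw [h, mul_zero] at ha; omega
      · exact h
    · rcases Nat.eq_zero_or_pos b with h | h
      · rw [h, mul_zero] at hb; omega
      · exact h
    · apply mul_left_cancel₀ hGZ
      have e1 : (G : ℤ) * ((a : ℤ) * (B + f2 * E)) = (A + f1 * C) * (B + f2 * E) := by rw [← ha']; ring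
      have e2 : (G : ℤ) * ((b : ℤ) * (B + f1 * E) + t * c) = (A + f2 * C) * (B + f1 * E) +
          ((f2 : ℤ) - f1) * c := by rw [← hb', ht']; ring
      rw [e1, e2, ← hBE]
      ring
    · rw [← ha, ← hb]
      exact hB
  have hcase : F (e g) i ≠ F (e g') j := by
    intro h
    have := hinj (e g, i) (e g', j) h
    exact hee (congrArg Prod.fst this)
  rcases Nat.lt_or_gt_of_ne hcase with h | h
  · exact key (e g, i) (e g', j) hee h hJ
  · exact key (e g', j) (e g, i) hee.symm h (hsymm _ _ hJ)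

/-- For every `r` there are `T`, `δ > 0`, `X₀` such that for every nonzero `c` with at most `r`
prime factors and every `X ≥ X₀` at least `δ X ^ 2` pairs `(a, b)` up to `X` are good. -/
theorem planeP {K : ℕ} (hK1 : 1 ≤ K) (r : ℕ) :
    ∃ (T : ℕ) (δ : ℝ) (X₀ : ℕ), 0 < δ ∧ ∀ Pp : ℕ → ℕ → ℤ → Prop, MasterP Pp K →
      ∀ (c : ℤ), c ≠ 0 → c.natAbs.primeFactors.card ≤ r →
      ∀ X : ℕ, X₀ ≤ X → ∀ S : Finset (ℕ × ℕ),
        (∀ a b : ℕ, 1 ≤ a → a ≤ X → 1 ≤ b → b ≤ X → GoodPairP Pp T c a b → (a, b) ∈ S) →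
        δ * (X : ℝ) ^ 2 ≤ (S.card : ℝ) := by
  obtain ⟨T, δ, X₀, hδ, H⟩ := planeP_ind hK1 r r 1 one_pos (by
    intro l hl hd
    exact absurd (Nat.dvd_one.1 hd) hl.one_lt.ne')
  exact ⟨T, δ, X₀, hδ, fun Pp hM c hc hr X hX S hS =>
    H Pp hM c hc hr ((card_filter_le _ _).trans hr) X hX S hS⟩

theorem plane_iso (R r : ℕ) :
    ∃ (T : ℕ) (δ : ℝ) (X₀ : ℕ), 0 < δ ∧ ∀ (c : ℤ), c ≠ 0 → c.natAbs.primeFactors.card ≤ r →
      ∀ X : ℕ, X₀ ≤ X → ∀ S : Finset (ℕ × ℕ),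
        (∀ a b : ℕ, 1 ≤ a → a ≤ X → 1 ≤ b → b ≤ X →
          GoodPairP (fun a b c => Nar (IsoSol R a b c)) T c a b → (a, b) ∈ S) →
        δ * (X : ℝ) ^ 2 ≤ (S.card : ℝ) := by
  obtain ⟨K, hK, hhit⟩ := hit_iso R
  obtain ⟨T, δ, X₀, hδ, H⟩ := planeP hK r
  refine ⟨T, δ, X₀, hδ, H _ (masterP hK (fun f g h => h.mono fun _ hn => PFI_symm hn) hhit ?_)⟩
  intro G a b b₁ b₂ c hG ha hb he hJ
  exact nar_affine (Nat.mul_pos hG ha) (hJ.mono fun _ hn => isoSol_of_PFI hG he hn)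

open Filter in
open Classical in
/-- the same at every large scale -/
theorem plane_iso_scale (R r : ℕ) :
    ∃ (T : ℕ) (δ : ℝ) (X₀ : ℕ), 0 < δ ∧ ∀ (c : ℤ), c ≠ 0 → c.natAbs.primeFactors.card ≤ r →
      ∀ X : ℕ, X₀ ≤ X → ∀ l : ℕ, ∃ B : ℕ, ∀ᶠ x : ℕ in atTop,
        δ * (X : ℝ) ^ 2 ≤ (((Icc 1 X ×ˢ Icc 1 X).filter (fun z =>
          GoodPairP (fun a b c => NarN (IsoSol R a b c) l B x) T c z.1 z.2)).card : ℝ) := by
  obtain ⟨K, hK, hhit⟩ := hit_iso_scale R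
  obtain ⟨T, δ, X₀, hδ, H⟩ := planeP hK r
  refine ⟨T, δ, X₀, hδ, fun c hc hr X hX l => ?_⟩
  by_contra hcon
  push Not at hcon
  -- a bad scale for every `B`
  have h1 : ∀ k : ℕ, ∃ x : ℕ, k ≤ x ∧ (((Icc 1 X ×ˢ Icc 1 X).filter (fun z =>
      GoodPairP (fun a b c => NarN (IsoSol R a b c) l k x) T c z.1 z.2)).card : ℝ) < δ * (X : ℝ) ^ 2 := by
    intro k
    obtain ⟨x, hx1, hx2⟩ := ((hcon k).and_eventually (eventually_ge_atTop k)).exists
    exact ⟨x, hx2, hx1⟩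
  choose x hxk hxb using h1
  have htx : Tendsto x atTop atTop := tendsto_atTop_mono hxk tendsto_id
  have hle : (hyperfilter ℕ : Filter ℕ) ≤ atTop := by
    rw [← Nat.cofinite_eq_atTop]
    exact hyperfilter_le_cofinite
  set J : ℤ × ℤ → ℤ × ℤ → Prop := fun f g => ∃ q B : ℕ, 1 ≤ q ∧ f.1 ≤ q ∧ g.1 ≤ q ∧
    ∀ᶠ k in (hyperfilter ℕ : Filter ℕ), NarN (PFI R f g) (max l 1) B (x k / (2 * q)) with hJ
  have hit : Pool.Agent.K7.H63.TQ.HitR K {f | 1 ≤ f.1} J := by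
    intro A hA hinj hadm
    obtain ⟨F, hF⟩ : ∃ F : Finset (ℤ × ℤ), F = univ.image (fun z : Fin 4 × Fin K => A z.1 z.2) := ⟨_, rfl⟩
    obtain ⟨B, hB⟩ := hhit F (by
      intro f hf
      rw [hF] at hf
      obtain ⟨z, -, rfl⟩ := mem_image.1 hf
      exact hA _ _) (max l 1)
    obtain ⟨q, hq1, hq⟩ : ∃ q : ℕ, 1 ≤ q ∧ ∀ g i, (A g i).1 ≤ q := by
      refine ⟨1 + ∑ z : Fin 4 × Fin K, (A z.1 z.2).1.natAbs, by omega, fun g i => ?_⟩
      have h2 : (A g i).1.natAbs ≤ ∑ z : Fin 4 × Fin K, (A z.1 z.2).1.natAbs :=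
        Finset.single_le_sum (f := fun z : Fin 4 × Fin K => (A z.1 z.2).1.natAbs)
          (fun _ _ => Nat.zero_le _) (mem_univ (g, i))
      omega
    have h2 : ∀ᶠ k in (hyperfilter ℕ : Filter ℕ), Pool.Agent.K7.H63.TQ.HitR K {f | f ∈ F}
        (fun f g => NarN (PFI R f g) (max l 1) B (x k / (2 * q))) :=
      (((tendsto_div q hq1).comp htx).eventually hB).filter_mono hle
    have h3 : ∀ᶠ k in (hyperfilter ℕ : Filter ℕ), ∃ z ∈ (univ : Finset ((Fin 4 × Fin K) × (Fin 4 × Fin K))),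
        z.1.1 ≠ z.2.1 ∧ NarN (PFI R (A z.1.1 z.1.2) (A z.2.1 z.2.2)) (max l 1) B (x k / (2 * q)) := by
      filter_upwards [h2] with k hk
      obtain ⟨g, g', i, j, hne, hR⟩ := hk A (fun g i => by
        show A g i ∈ F
        rw [hF]
        exact mem_image.2 ⟨(g, i), mem_univ _, rfl⟩) hinj hadm
      exact ⟨((g, i), (g', j)), mem_univ _, hne, hR⟩
    have h4 : ∃ z : (Fin 4 × Fin K) × (Fin 4 × Fin K), ∀ᶠ k in (hyperfilter ℕ : Filter ℕ),
        z.1.1 ≠ z.2.1 ∧ NarN (PFI R (A z.1.1 z.1.2) (A z.2.1 z.2.2)) (max l 1) B (x k / (2 * q)) := by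
      by_contra hno
      push Not at hno
      have h5 : ∀ z : (Fin 4 × Fin K) × (Fin 4 × Fin K), ∀ᶠ k in (hyperfilter ℕ : Filter ℕ),
          ¬ (z.1.1 ≠ z.2.1 ∧ NarN (PFI R (A z.1.1 z.1.2) (A z.2.1 z.2.2)) (max l 1) B (x k / (2 * q))) := by
        intro z
        exact (hno z).mono fun k hk hh => hk hh.1 hh.2
      have h6 := (eventually_all (l := (hyperfilter ℕ : Filter ℕ))).2 h5
      obtain ⟨k, ⟨z, -, hz⟩, hk⟩ := (h3.and h6).exists
      exact hk z hz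
    obtain ⟨z, hz⟩ := h4
    refine ⟨z.1.1, z.2.1, z.1.2, z.2.2, hz.exists.choose_spec.1, q, B, hq1, hq _ _, hq _ _, ?_⟩
    exact hz.mono fun k hk => hk.2
  have hMP : MasterP (fun a b c => ∀ᶠ k in (hyperfilter ℕ : Filter ℕ), NarN (IsoSol R a b c) l k (x k)) K := by
    refine masterP hK (J := J) ?_ hit ?_
    · rintro f g ⟨q, B, h2, h3, h4, h5⟩
      exact ⟨q, B, h2, h4, h3, h5.mono fun k hk => hk.mono fun _ hn => PFI_symm hn⟩
    · rintro G a b b₁ b₂ c hG ha hb he ⟨q, B, hq1, hq2, -, hN⟩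
      have hqa : G * a ≤ q := by
        have h6 : ((G * a : ℕ) : ℤ) ≤ (q : ℤ) := hq2
        exact_mod_cast h6
      filter_upwards [hN, (htx.eventually (scale q b₁.natAbs hq1)).filter_mono hle,
        ((((tendsto_div q hq1).comp htx).eventually (log_ev' (4 * q)))).filter_mono hle,
        (eventually_ge_atTop (B + 1)).filter_mono hle,
        (htx.eventually (log_ev' 1)).filter_mono hle] with k hk hsc hlog hkB hlog1
      refine ((NarN.affine (Nat.mul_pos hG ha) (hk.mono fun _ hn => isoSol_of_PFI hG he hn)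
        (le_max_right _ _) (Q := q) hqa ?_ hsc.2.1 ?_ hsc.2.2).len (le_max_left _ _)).exp hkB hlog1
      · have h1 : G * a * (x k / (2 * q)) ≤ q * (x k / (2 * q)) := Nat.mul_le_mul_right _ hqa
        have h2 := hsc.1
        have h3 : G * a * (x k / (2 * q)) + b₁.natAbs ≤ x k := by omega
        have h4 : b₁ ≤ b₁.natAbs := by omega
        have h5 : ((G * a : ℕ) : ℤ) * ((x k / (2 * q) : ℕ) : ℤ) + b₁.natAbs ≤ x k := by exact_mod_cast h3
        linarith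
      · exact_mod_cast hlog
  have hS := H _ hMP c hc hr X hX ((Icc 1 X ×ˢ Icc 1 X).filter (fun z =>
    GoodPairP (fun a b c => ∀ᶠ k in (hyperfilter ℕ : Filter ℕ), NarN (IsoSol R a b c) l k (x k)) T c z.1 z.2))
    (fun a b ha haX hb hbX h => mem_filter.2 ⟨mem_product.2 ⟨mem_Icc.2 ⟨ha, haX⟩, mem_Icc.2 ⟨hb, hbX⟩⟩, h⟩)
  have hall : ∀ᶠ k in (hyperfilter ℕ : Filter ℕ), ∀ z ∈ (Icc 1 X ×ˢ Icc 1 X).filter (fun z =>
      GoodPairP (fun a b c => ∀ᶠ k in (hyperfilter ℕ : Filter ℕ), NarN (IsoSol R a b c) l k (x k)) T c z.1 z.2),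
      GoodPairP (fun a b c => NarN (IsoSol R a b c) l k (x k)) T c z.1 z.2 := by
    rw [Filter.eventually_all_finset]
    intro z hz
    obtain ⟨t, h1, h2, h3, h4, h5, h6, h7, h8⟩ := (mem_filter.1 hz).2
    exact h8.mono fun k hk => ⟨t, h1, h2, h3, h4, h5, h6, h7, hk⟩
  obtain ⟨k, hk⟩ := hall.exists
  refine absurd (hS.trans ?_) (not_le.2 (hxb k))
  exact_mod_cast card_le_card fun z hz => mem_filter.2 ⟨(mem_filter.1 hz).1, hk z hz⟩

end Pool.Agent.H42.NP
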