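import Mathlib

/-! The theorem of Turan for a relation on a finite set of integers (helper42). -/

set_option autoImplicit false

namespace Pool.Agent.H42.NP

open Finset

open Classical in
theorem turan_pairs (U : Finset ℕ) (J : ℕ → ℕ → Prop) (hJ : ∀ x y, J x y → J y x)
    (h4 : ∀ u : Fin 4 → ℕ, (∀ i, u i ∈ U) → Function.Injective u → ∃ i j, i ≠ j ∧ J (u i) (u j)) :
    (U.card : ℝ) ^ 2 / 3 - U.card ≤
      (((U ×ˢ U).filter (fun x => x.1 ≠ x.2 ∧ J x.1 x.2)).card : ℝ) := by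
  obtain ⟨G, hG⟩ : ∃ G : SimpleGraph U, ∀ x y, G.Adj x y ↔ (x ≠ y ∧ ¬ J x y) :=
    ⟨{ Adj := fun x y => x ≠ y ∧ ¬ J x y
       symm := ⟨fun x y h => ⟨h.1.symm, fun h' => h.2 (hJ _ _ h')⟩⟩
       loopless := ⟨fun x h => h.1 rfl⟩ }, fun x y => Iff.rfl⟩
  have hcf : G.CliqueFree (3 + 1) := by
    rw [SimpleGraph.cliqueFree_iff]
    refine ⟨fun f => ?_⟩
    obtain ⟨i, j, hij, h⟩ := h4 (fun i => (f i : ℕ)) (fun i => (f i).2) (by
      intro i j hij
      exact f.injective (Subtype.ext hij))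
    have h1 : G.Adj (f i) (f j) := f.toHom.map_adj (by simpa using hij)
    exact ((hG _ _).1 h1).2 h
  have h1 := hcf.card_edgeFinset_le
  simp only at h1
  rw [← SimpleGraph.card_edgeFinset_turanGraph] at h1
  have h2 := SimpleGraph.mul_card_edgeFinset_turanGraph_le (n := Fintype.card U) (r := 3)
  have hc : Fintype.card U = U.card := Fintype.card_coe U
  rw [hc] at h1 h2
  have h3 : 2 * G.edgeFinset.card = (univ.filter (fun x : U × U => G.Adj x.1 x.2)).card := by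
    exact SimpleGraph.two_mul_card_edgeFinset G
  have h5 : (univ.filter (fun x : U × U => G.Adj x.1 x.2)).card =
      ((U ×ˢ U).filter (fun x => x.1 ≠ x.2 ∧ ¬ J x.1 x.2)).card := by
    apply Finset.card_bij (fun x _ => ((x.1 : ℕ), (x.2 : ℕ)))
    · intro x hx
      have h6 := (hG _ _).1 (mem_filter.1 hx).2
      exact mem_filter.2 ⟨mem_product.2 ⟨x.1.2, x.2.2⟩, fun h => h6.1 (Subtype.ext h), h6.2⟩
    · intro x _ y _ hxy
      simp only [Prod.mk.injEq] at hxy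
      exact Prod.ext (Subtype.ext hxy.1) (Subtype.ext hxy.2)
    · intro y hy
      obtain ⟨h6, h7, h8⟩ := mem_filter.1 hy
      obtain ⟨h9, h10⟩ := mem_product.1 h6
      refine ⟨(⟨y.1, h9⟩, ⟨y.2, h10⟩), mem_filter.2 ⟨mem_univ _, (hG _ _).2 ⟨?_, h8⟩⟩, rfl⟩
      intro h
      exact h7 (by simpa using congrArg Subtype.val h)
  -- the pairs on the diagonal, the good and the bad pairs
  have h6 : U.card * U.card ≤ U.card + ((U ×ˢ U).filter (fun x => x.1 ≠ x.2 ∧ J x.1 x.2)).card +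
      ((U ×ˢ U).filter (fun x => x.1 ≠ x.2 ∧ ¬ J x.1 x.2)).card := by
    rw [← card_product]
    have h7 : U ×ˢ U ⊆ (U.image (fun x => (x, x)) ∪ (U ×ˢ U).filter (fun x => x.1 ≠ x.2 ∧ J x.1 x.2)) ∪
        (U ×ˢ U).filter (fun x => x.1 ≠ x.2 ∧ ¬ J x.1 x.2) := by
      intro x hx
      obtain ⟨h8, h9⟩ := mem_product.1 hx
      by_cases h10 : x.1 = x.2
      · exact mem_union_left _ (mem_union_left _ (mem_image.2 ⟨x.1, h8, Prod.ext rfl h10⟩))
      · by_cases h11 : J x.1 x.2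
        · exact mem_union_left _ (mem_union_right _ (mem_filter.2 ⟨hx, h10, h11⟩))
        · exact mem_union_right _ (mem_filter.2 ⟨hx, h10, h11⟩)
    refine (card_le_card h7).trans ((card_union_le _ _).trans ?_)
    refine Nat.add_le_add_right ((card_union_le _ _).trans ?_) _
    exact Nat.add_le_add_right card_image_le _
  rw [← h5, ← h3] at h6
  have h7 : (U.card : ℝ) * U.card ≤ U.card +
      (((U ×ˢ U).filter (fun x => x.1 ≠ x.2 ∧ J x.1 x.2)).card : ℝ) + 2 * G.edgeFinset.card := by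
    exact_mod_cast h6
  have h8 : (G.edgeFinset.card : ℝ) ≤ (SimpleGraph.turanGraph U.card 3).edgeFinset.card := by
    exact_mod_cast h1
  have h9 : 2 * 3 * ((SimpleGraph.turanGraph U.card 3).edgeFinset.card : ℝ) ≤ (3 - 1 : ℕ) * (U.card : ℝ) ^ 2 := by
    exact_mod_cast h2
  norm_num at h9
  rw [pow_two] at h9 ⊢
  linarith

theorem turan_ncard (U : Finset ℕ) (J : ℕ → ℕ → Prop) (hJ : ∀ x y, J x y → J y x)
    (h4 : ∀ u : Fin 4 → ℕ, (∀ i, u i ∈ U) → Function.Injective u → ∃ i j, i ≠ j ∧ J (u i) (u j)) :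
    (U.card : ℝ) ^ 2 / 3 - U.card ≤
      {x : ℕ × ℕ | (x.1 ∈ U ∧ x.2 ∈ U ∧ x.1 ≠ x.2) ∧ J x.1 x.2}.ncard := by
  classical
  refine (turan_pairs U J hJ h4).trans (Nat.cast_le.2 ?_)
  rw [← Set.ncard_coe_finset]
  apply Set.ncard_le_ncard
  · intro x hx
    obtain ⟨h1, h2, h3⟩ := mem_filter.1 (mem_coe.1 hx)
    obtain ⟨h4, h5⟩ := mem_product.1 h1
    exact ⟨⟨h4, h5, h2⟩, h3⟩
  · apply Set.Finite.subset (Finset.finite_toSet (U ×ˢ U))
    rintro x ⟨⟨h1, h2, -⟩, -⟩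
    exact mem_coe.2 (mem_product.2 ⟨h1, h2⟩)

end Pool.Agent.H42.NP
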